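import Pool.Agent.Run7.h406.Core2

/-!
Successive minimisation of angles.
-/

set_option autoImplicit false
set_option linter.unusedSectionVars false

namespace Run7.h406

open Module Submodule Finset Matrix MeasureTheory

variable {n : ℕ}

theorem sn_nonneg (x y : EE n) : 0 ≤ sn x y :=
  InnerProductGeometry.sin_angle_nonneg x y

theorem sn_le_one (x y : EE n) : sn x y ≤ 1 := Real.sin_le_one _

theorem sn_comm (x y : EE n) : sn x y = sn y x := by
  unfold sn; rw [InnerProductGeometry.angle_comm]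

theorem sn_sq (x y : EE n) : sn x y ^ 2 = 1 - (inner ℝ x y / (‖x‖ * ‖y‖)) ^ 2 := by
  unfold sn InnerProductGeometry.angle
  rw [Real.sin_arccos, Real.sq_sqrt]
  have := abs_real_inner_div_norm_mul_norm_le_one x y
  have h2 := abs_le.1 this
  nlinarith

theorem sn_sq_unit {x y : EE n} (hx : ‖x‖ = 1) (hy : ‖y‖ = 1) :
    sn x y ^ 2 = 1 - (inner ℝ x y) ^ 2 := by
  rw [sn_sq, hx, hy]; simp

/-- comparison of sines through inner products -/
theorem sn_le_iff {X Y x y : EE n} (hX : ‖X‖ = 1) (hY : ‖Y‖ = 1) (hx : x ≠ 0) (hy : y ≠ 0) :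
    sn X Y ≤ sn x y ↔ |inner ℝ x y| ≤ |inner ℝ X Y| * (‖x‖ * ‖y‖) := by
  have hxy : 0 < ‖x‖ * ‖y‖ := mul_pos (norm_pos_iff.2 hx) (norm_pos_iff.2 hy)
  rw [← pow_le_pow_iff_left₀ (sn_nonneg _ _) (sn_nonneg _ _) two_ne_zero, sn_sq_unit hX hY, sn_sq]
  rw [sub_le_sub_iff_left, sq_le_sq, abs_div, abs_of_pos hxy, div_le_iff₀ hxy]

theorem Chain.symm {A B : Submodule ℝ (EE n)} {j : ℕ} {X Y : ℕ → EE n} (h : Chain A B j X Y) :
    Chain B A j Y X where
  memX := h.memY
  memY := h.memX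
  min := by
    intro i hi y hy hy0 hy1 x hx hx0 hx1
    rw [sn_comm, sn_comm y x]
    exact h.min i hi x hx hx0 hx1 y hy hy0 hy1

theorem mem_Vs_orth {X : ℕ → EE n} {i : ℕ} {x : EE n} :
    x ∈ (Vs X i)ᗮ ↔ ∀ k < i, inner ℝ (X k) x = 0 := by
  rw [mem_orthogonal]
  constructor
  · intro h k hk
    exact h _ (mem_Vs X hk)
  · intro h u hu
    unfold Vs at hu
    induction hu using span_induction with
    | mem x hx =>
      obtain ⟨k, hk, rfl⟩ := hx
      exact h k hk
    | zero => exact inner_zero_left _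
    | add x y _ _ hx hy => rw [inner_add_left, hx, hy, add_zero]
    | smul a x _ hx => rw [inner_smul_left, hx, mul_zero]

/-- first order optimality -/
theorem Chain.first {A B : Submodule ℝ (EE n)} {j : ℕ} {X Y : ℕ → EE n} (h : Chain A B j X Y)
    {i : ℕ} (hi : i < j) {y : EE n} (hy : y ∈ B) (hy1 : ∀ k < i, inner ℝ (Y k) y = 0) :
    inner ℝ (X i) y = inner ℝ (X i) (Y i) * inner ℝ (Y i) y := by
  set Bi : Submodule ℝ (EE n) := B ⊓ (Vs Y i)ᗮ with hBi
  obtain ⟨hX1, hX2, hX3⟩ := h.memX i hi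
  obtain ⟨hY1, hY2, hY3⟩ := h.memY i hi
  have hYB : Y i ∈ Bi := mem_inf.2 ⟨hY1, mem_Vs_orth.2 hY3⟩
  have hyB : y ∈ Bi := mem_inf.2 ⟨hy, mem_Vs_orth.2 hy1⟩
  set p := Bi.starProjection (X i) with hp
  have hpB : p ∈ Bi := starProjection_apply_mem _ _
  have hip : ∀ u ∈ Bi, inner ℝ p u = inner ℝ (X i) u := by
    intro u hu
    rw [hp, inner_starProjection_left_eq_right, (starProjection_eq_self_iff).2 hu]
  set σ := inner ℝ (X i) (Y i) with hσ
  have hpn : ‖p‖ ≤ |σ| := by
    by_cases hp0 : p = 0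
    · rw [hp0, norm_zero]; exact abs_nonneg _
    · have hX0 : X i ≠ 0 := by
        intro h0
        rw [h0, norm_zero] at hX2
        exact zero_ne_one hX2
      have h1 := h.min i hi (X i) hX1 hX0 hX3 p (mem_inf.1 hpB).1 hp0
        (mem_Vs_orth.1 (mem_inf.1 hpB).2)
      rw [sn_le_iff hX2 hY2 hX0 hp0, hX2, one_mul, ← hip p hpB, real_inner_self_eq_norm_sq,
        abs_of_nonneg (sq_nonneg _), sq] at h1
      exact le_of_mul_le_mul_right h1 (norm_pos_iff.2 hp0)
  have hpY : inner ℝ p (Y i) = σ := hip _ hYB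
  have h0 : p = σ • Y i := by
    rw [← sub_eq_zero, ← norm_eq_zero]
    have h2 : ‖p - σ • Y i‖ ^ 2 ≤ 0 := by
      rw [norm_sub_sq_real, inner_smul_right, hpY, norm_smul, mul_pow, hY2, Real.norm_eq_abs,
        sq_abs]
      have : ‖p‖ ^ 2 ≤ |σ| ^ 2 := pow_le_pow_left₀ (norm_nonneg _) hpn 2
      rw [sq_abs] at this
      nlinarith
    have h3 : 0 ≤ ‖p - σ • Y i‖ ^ 2 := sq_nonneg _
    exact pow_eq_zero_iff two_ne_zero |>.1 (le_antisymm h2 h3)
  rw [← hip y hyB, h0, inner_smul_left]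
  rfl

theorem Chain.cross {A B : Submodule ℝ (EE n)} {j : ℕ} {X Y : ℕ → EE n} (h : Chain A B j X Y)
    {i k : ℕ} (hi : i < j) (hk : k < i) : inner ℝ (X i) (Y k) = 0 := by
  obtain ⟨hX1, hX2, hX3⟩ := h.memX i hi
  have h1 := h.symm.first (i := k) (by omega) hX1 (fun k' hk' => hX3 k' (by omega))
  rw [hX3 k hk, mul_zero] at h1
  rw [real_inner_comm]
  exact h1

/-- the projection of `X i` to `B` is a multiple of `Y i` -/
theorem Chain.all {A B : Submodule ℝ (EE n)} {j : ℕ} {X Y : ℕ → EE n} (h : Chain A B j X Y)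
    {i : ℕ} (hi : i < j) {y : EE n} (hy : y ∈ B) :
    inner ℝ (X i) y = inner ℝ (X i) (Y i) * inner ℝ (Y i) y := by
  set y' := y - ∑ k ∈ range i, (inner ℝ (Y k) y) • Y k with hy'
  have hYY : ∀ k k', k < j → k' < j → k ≠ k' → inner ℝ (Y k) (Y k') = 0 := by
    intro k k' hk hk' hne
    rcases lt_or_gt_of_ne hne with h1 | h1
    · exact (h.memY k' hk').2.2 k h1
    · rw [real_inner_comm]; exact (h.memY k hk).2.2 k' h1
  have hy'B : y' ∈ B := sub_mem hy (sum_mem fun k hk => smul_mem _ _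
    (h.memY k (by have := Finset.mem_range.1 hk; omega)).1)
  have hy'1 : ∀ k < i, inner ℝ (Y k) y' = 0 := by
    intro k hk
    rw [hy', inner_sub_right, inner_sum, Finset.sum_eq_single k]
    · rw [inner_smul_right, real_inner_self_eq_norm_sq, (h.memY k (by omega)).2.1]
      ring
    · intro k' hk' hne
      rw [inner_smul_right, hYY k k' (by omega) (by have := Finset.mem_range.1 hk'; omega)
        (Ne.symm hne), mul_zero]
    · intro h0; exact absurd (Finset.mem_range.2 hk) h0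
  have h1 := h.first hi hy'B hy'1
  have h2 : inner ℝ (X i) y' = inner ℝ (X i) y := by
    rw [hy', inner_sub_right, inner_sum, Finset.sum_eq_zero, sub_zero]
    intro k hk
    rw [inner_smul_right, h.cross hi (Finset.mem_range.1 hk), mul_zero]
  have h3 : inner ℝ (Y i) y' = inner ℝ (Y i) y := by
    rw [hy', inner_sub_right, inner_sum, Finset.sum_eq_zero, sub_zero]
    intro k hk
    have := Finset.mem_range.1 hk
    rw [inner_smul_right, hYY i k hi (by omega) (by omega), mul_zero]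
  rw [h2, h3] at h1
  exact h1

theorem Chain.anti {A B : Submodule ℝ (EE n)} {j : ℕ} {X Y : ℕ → EE n} (h : Chain A B j X Y)
    {i k : ℕ} (hik : i ≤ k) (hk : k < j) :
    (inner ℝ (X k) (Y k)) ^ 2 ≤ (inner ℝ (X i) (Y i)) ^ 2 := by
  obtain ⟨hX1, hX2, hX3⟩ := h.memX k hk
  obtain ⟨hY1, hY2, hY3⟩ := h.memY k hk
  have hX0 : X k ≠ 0 := by
    intro h0; rw [h0, norm_zero] at hX2; exact zero_ne_one hX2
  have hY0 : Y k ≠ 0 := by
    intro h0; rw [h0, norm_zero] at hY2; exact zero_ne_one hY2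
  have h1 := h.min i (by omega) (X k) hX1 hX0 (fun l hl => hX3 l (by omega)) (Y k) hY1 hY0
    (fun l hl => hY3 l (by omega))
  have h2 := pow_le_pow_left₀ (sn_nonneg _ _) h1 2
  rw [sn_sq_unit (h.memX i (by omega)).2.1 (h.memY i (by omega)).2.1, sn_sq_unit hX2 hY2] at h2
  linarith

theorem Chain.orthX {A B : Submodule ℝ (EE n)} {j : ℕ} {X Y : ℕ → EE n} (h : Chain A B j X Y) :
    ∀ k l : Fin j, k ≠ l → inner ℝ (X k) (X l) = 0 := by
  intro k l hne
  rcases lt_or_gt_of_ne hne with h1 | h1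
  · exact (h.memX l l.2).2.2 k h1
  · rw [real_inner_comm]; exact (h.memX k k.2).2.2 l h1

theorem Chain.posX {A B : Submodule ℝ (EE n)} {j : ℕ} {X Y : ℕ → EE n} (h : Chain A B j X Y) :
    ∀ k < j, 0 < rr X k := by
  rw [rr_pos_iff]
  have : Orthonormal ℝ (fun i : Fin j => X i) :=
    ⟨fun i => (h.memX i i.2).2.1, fun i k hik => h.orthX i k hik⟩
  exact this.linearIndependent

/-- the span of the `X i` is close to `B` -/
theorem Chain.close {A B : Submodule ℝ (EE n)} {j : ℕ} {X Y : ℕ → EE n} (h : Chain A B j X Y)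
    (hj : 1 ≤ j) : Close B (Vs X j) (sn (X (j - 1)) (Y (j - 1))) := by
  intro v hv
  rw [Vs_eq_span_range, mem_span_range_iff_exists_fun] at hv
  obtain ⟨a, rfl⟩ := hv
  have hproj : B.starProjection (∑ i : Fin j, a i • X i) =
      ∑ i : Fin j, (a i * inner ℝ (X i) (Y i)) • Y i := by
    refine eq_starProjection_of_mem_orthogonal (K := B) ?_ ?_
    · exact sum_mem fun i _ => smul_mem _ _ (h.memY i i.2).1
    · rw [mem_orthogonal']
      intro u hu
      rw [inner_sub_left, sum_inner, sum_inner, sub_eq_zero]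
      refine Finset.sum_congr rfl fun i _ => ?_
      rw [inner_smul_left, inner_smul_left, h.all i.2 hu]
      simp only [conj_trivial]
      ring
  have h1 := norm_sq_eq_add_norm_sq_starProjection (∑ i : Fin j, a i • X i) B
  rw [hproj, norm_sq_sum h.symm.orthX] at h1
  rw [norm_sq_sum h.orthX] at h1
  have h2 : sn (X (j - 1)) (Y (j - 1)) ^ 2 = 1 - (inner ℝ (X (j - 1)) (Y (j - 1))) ^ 2 :=
    sn_sq_unit (h.memX (j - 1) (by omega)).2.1 (h.memY (j - 1) (by omega)).2.1
  refine (pow_le_pow_iff_left₀ (norm_nonneg _)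
    (mul_nonneg (sn_nonneg _ _) (norm_nonneg _)) two_ne_zero).1 ?_
  rw [mul_pow, h2, norm_sq_sum h.orthX, Finset.mul_sum]
  have h3 : ‖Bᗮ.starProjection (∑ i : Fin j, a i • X i)‖ ^ 2 =
      ∑ i : Fin j, (a i ^ 2 * ‖X i‖ ^ 2 - (a i * inner ℝ (X i) (Y i)) ^ 2 * ‖Y i‖ ^ 2) := by
    rw [Finset.sum_sub_distrib]; linarith
  rw [h3]
  refine Finset.sum_le_sum fun i _ => ?_
  rw [(h.memX i i.2).2.1, (h.memY i i.2).2.1]
  have h4 := h.anti (i := i) (k := j - 1) (by have := i.2; omega) (by omega)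
  nlinarith [sq_nonneg (a i)]

theorem Chain.le {A B : Submodule ℝ (EE n)} {j : ℕ} {X Y : ℕ → EE n} (h : Chain A B j X Y)
    (hj : 1 ≤ j) {W : Submodule ℝ (EE n)} (hW : W ≤ B) (hWj : finrank ℝ W = j) {t : ℝ}
    (ht : Close A W t) : sn (X (j - 1)) (Y (j - 1)) ≤ t := by
  obtain ⟨w, hw1, hw2, hw3⟩ := exists_unit_orth W (j - 1) Y (by omega)
  have h1 := ht w hw1
  rw [hw2, mul_one] at h1
  have hsq := norm_sq_eq_add_norm_sq_starProjection w A
  by_cases hx : A.starProjection w = 0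
  · rw [hx, norm_zero, hw2] at hsq
    have h2 : ‖Aᗮ.starProjection w‖ = 1 := by
      have h3 : 0 ≤ ‖Aᗮ.starProjection w‖ := norm_nonneg _
      nlinarith
    rw [h2] at h1
    exact (sn_le_one _ _).trans h1
  · have hw0 : w ≠ 0 := by
      intro h0; rw [h0, norm_zero] at hw2; exact zero_ne_one hw2
    have h2 := h.min (j - 1) (by omega) (A.starProjection w) (starProjection_apply_mem _ _) hx
      (by
        intro k hk
        rw [← inner_starProjection_left_eq_right,
          (starProjection_eq_self_iff).2 (h.memX k (by omega)).1,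
          h.all (i := k) (by omega) (hW hw1), hw3 k hk, mul_zero]) w (hW hw1) hw0 hw3
    refine h2.trans ?_
    refine le_trans ?_ h1
    refine (pow_le_pow_iff_left₀ (sn_nonneg _ _) (norm_nonneg _) two_ne_zero).1 ?_
    have h3 : inner ℝ (A.starProjection w) w = ‖A.starProjection w‖ ^ 2 := by
      rw [← real_inner_self_eq_norm_sq, inner_starProjection_left_eq_right,
        ← inner_starProjection_left_eq_right, ← inner_starProjection_left_eq_right,
        (starProjection_eq_self_iff).2 (starProjection_apply_mem A w),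
        inner_starProjection_left_eq_right,
        ← inner_starProjection_left_eq_right]
    rw [sn_sq, h3, hw2, mul_one]
    have h4 : ‖A.starProjection w‖ ≠ 0 := norm_ne_zero_iff.2 hx
    have h5 : ‖A.starProjection w‖ ^ 2 / ‖A.starProjection w‖ = ‖A.starProjection w‖ := by
      field_simp
    rw [h5]
    rw [hw2] at hsq
    linarith

theorem exists_chain {A B : Submodule ℝ (EE n)} (j : ℕ) (hA : j ≤ finrank ℝ A)
    (hB : j ≤ finrank ℝ B) : ∃ X Y : ℕ → EE n, Chain A B j X Y := by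
  induction j with
  | zero => exact ⟨0, 0, ⟨by simp, by simp, by simp⟩⟩
  | succ j ih =>
    obtain ⟨X, Y, h⟩ := ih (by omega) (by omega)
    set A' : Submodule ℝ (EE n) := A ⊓ (Vs X j)ᗮ with hA'
    set B' : Submodule ℝ (EE n) := B ⊓ (Vs Y j)ᗮ with hB'
    have hAc : IsCompact ((A' : Set (EE n)) ∩ Metric.sphere 0 1) :=
      (isCompact_sphere 0 1).inter_left (Submodule.closed_of_finiteDimensional A')
    have hBc : IsCompact ((B' : Set (EE n)) ∩ Metric.sphere 0 1) :=
      (isCompact_sphere 0 1).inter_left (Submodule.closed_of_finiteDimensional B')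
    obtain ⟨x0, hx0, hx1, hx2⟩ := exists_unit_orth A j X (by omega)
    obtain ⟨y0, hy0, hy1, hy2⟩ := exists_unit_orth B j Y (by omega)
    have hne : (((A' : Set (EE n)) ∩ Metric.sphere 0 1) ×ˢ
        ((B' : Set (EE n)) ∩ Metric.sphere 0 1)).Nonempty :=
      ⟨(x0, y0), ⟨⟨mem_inf.2 ⟨hx0, mem_Vs_orth.2 hx2⟩, by simp [hx1]⟩,
        ⟨mem_inf.2 ⟨hy0, mem_Vs_orth.2 hy2⟩, by simp [hy1]⟩⟩⟩
    obtain ⟨⟨x, y⟩, ⟨⟨hxA, hxn⟩, ⟨hyB, hyn⟩⟩, hmax⟩ := (hAc.prod hBc).exists_isMaxOn hne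
      (f := fun p : EE n × EE n => |inner ℝ p.1 p.2|) (by fun_prop)
    have hxn' : ‖x‖ = 1 := by simpa using hxn
    have hyn' : ‖y‖ = 1 := by simpa using hyn
    have hmax' : ∀ u ∈ A', ∀ v ∈ B', u ≠ 0 → v ≠ 0 →
        |inner ℝ u v| ≤ |inner ℝ x y| * (‖u‖ * ‖v‖) := by
      intro u hu v hv hu0 hv0
      have hun : 0 < ‖u‖ := norm_pos_iff.2 hu0
      have hvn : 0 < ‖v‖ := norm_pos_iff.2 hv0
      have h1 : (‖u‖⁻¹ • u, ‖v‖⁻¹ • v) ∈ ((A' : Set (EE n)) ∩ Metric.sphere 0 1) ×ˢ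
        ((B' : Set (EE n)) ∩ Metric.sphere 0 1) := by
        refine ⟨⟨smul_mem _ _ hu, ?_⟩, ⟨smul_mem _ _ hv, ?_⟩⟩
        · simp [norm_smul, hun.ne']
        · simp [norm_smul, hvn.ne']
      have h2 := hmax h1
      simp only [Set.mem_ofPred_eq] at h2
      rw [inner_smul_left, inner_smul_right] at h2
      simp only [conj_trivial] at h2
      rw [abs_mul, abs_mul, abs_of_pos (inv_pos.2 hun), abs_of_pos (inv_pos.2 hvn)] at h2
      have h3 : |inner ℝ u v| = (‖u‖ * ‖v‖) * (‖u‖⁻¹ * (‖v‖⁻¹ * |inner ℝ u v|)) := by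
        field_simp
      rw [h3, mul_comm]
      exact mul_le_mul_of_nonneg_right h2 (by positivity)
    obtain ⟨hxA1, hxA2⟩ := mem_inf.1 hxA
    obtain ⟨hyB1, hyB2⟩ := mem_inf.1 hyB
    refine ⟨fun i => if i < j then X i else x, fun i => if i < j then Y i else y, ?_, ?_, ?_⟩
    · intro i hi
      rcases Nat.lt_or_ge i j with hij | hij
      · obtain ⟨g1, g2, g3⟩ := h.memX i hij
        simp only [if_pos hij]
        refine ⟨g1, g2, fun k hk => ?_⟩
        rw [if_pos (by omega)]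
        exact g3 k hk
      · have hij' : ¬ (i < j) := by omega
        simp only [if_neg hij']
        refine ⟨hxA1, hxn', fun k hk => ?_⟩
        rw [if_pos (by omega)]
        exact mem_Vs_orth.1 hxA2 k (by omega)
    · intro i hi
      rcases Nat.lt_or_ge i j with hij | hij
      · obtain ⟨g1, g2, g3⟩ := h.memY i hij
        simp only [if_pos hij]
        refine ⟨g1, g2, fun k hk => ?_⟩
        rw [if_pos (by omega)]
        exact g3 k hk
      · have hij' : ¬ (i < j) := by omega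
        simp only [if_neg hij']
        refine ⟨hyB1, hyn', fun k hk => ?_⟩
        rw [if_pos (by omega)]
        exact mem_Vs_orth.1 hyB2 k (by omega)
    · intro i hi u hu hu0 hu1 v hv hv0 hv1
      rcases Nat.lt_or_ge i j with hij | hij
      · simp only [if_pos hij]
        refine h.min i hij u hu hu0 (fun k hk => ?_) v hv hv0 (fun k hk => ?_)
        · have := hu1 k hk
          rwa [if_pos (by omega)] at this
        · have := hv1 k hk
          rwa [if_pos (by omega)] at this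
      · have hij' : ¬ (i < j) := by omega
        simp only [if_neg hij']
        rw [sn_le_iff hxn' hyn' hu0 hv0]
        refine hmax' u (mem_inf.2 ⟨hu, mem_Vs_orth.2 fun k hk => ?_⟩) v
          (mem_inf.2 ⟨hv, mem_Vs_orth.2 fun k hk => ?_⟩) hu0 hv0
        · have := hu1 k (by omega)
          rwa [if_pos hk] at this
        · have := hv1 k (by omega)
          rwa [if_pos hk] at this

/-- the value does not depend on the choices -/
theorem psi_eq {A B : Submodule ℝ (EE n)} {j : ℕ} (hj : 1 ≤ j) {X Y : ℕ → EE n}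
    (h : Chain A B j X Y) : psi A B j = sn (X (j - 1)) (Y (j - 1)) := by
  have hV : ∀ {X Y : ℕ → EE n}, Chain A B j X Y → Vs Y j ≤ B := by
    intro X Y h
    rw [Vs, span_le]
    rintro _ ⟨k, hk, rfl⟩
    exact (h.memY k hk).1
  have huniq : ∀ {X Y X' Y' : ℕ → EE n}, Chain A B j X Y → Chain A B j X' Y' →
      sn (X (j - 1)) (Y (j - 1)) ≤ sn (X' (j - 1)) (Y' (j - 1)) := by
    intro X Y X' Y' h h'
    refine h.le hj (hV h') (finrank_Vs _ _ h'.symm.posX) ?_
    rw [sn_comm]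
    exact h'.symm.close hj
  unfold psi
  have : {s | ∃ X Y : ℕ → EE n, Chain A B j X Y ∧ s = sn (X (j - 1)) (Y (j - 1))} =
      {sn (X (j - 1)) (Y (j - 1))} := by
    ext s
    constructor
    · rintro ⟨X', Y', h', rfl⟩
      exact le_antisymm (huniq h' h) (huniq h h')
    · rintro rfl
      exact ⟨X, Y, h, rfl⟩
  rw [this, csInf_singleton]

theorem psi_le_of_close {A B C : Submodule ℝ (EE n)} {j : ℕ} (hj : 1 ≤ j)
    (hjA : j ≤ finrank ℝ A) (hC : C ≤ B) (hCj : finrank ℝ C = j) {t : ℝ} (ht : Close A C t) :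
    psi A B j ≤ t := by
  have hjB : j ≤ finrank ℝ B := by rw [← hCj]; exact Submodule.finrank_mono hC
  obtain ⟨X, Y, h⟩ := exists_chain (A := A) (B := B) j hjA hjB
  rw [psi_eq hj h]
  exact h.le hj hC hCj ht

theorem close_of_psi {A B : Submodule ℝ (EE n)} {j : ℕ} (hj : 1 ≤ j)
    (hjA : j ≤ finrank ℝ A) (hjB : j ≤ finrank ℝ B) :
    ∃ V ≤ A, finrank ℝ V = j ∧ Close B V (psi A B j) := by
  obtain ⟨X, Y, h⟩ := exists_chain (A := A) (B := B) j hjA hjB
  refine ⟨Vs X j, ?_, finrank_Vs _ _ h.posX, ?_⟩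
  · rw [Vs, span_le]
    rintro _ ⟨k, hk, rfl⟩
    exact (h.memX k hk).1
  · rw [psi_eq hj h]
    exact h.close hj

theorem psi_nonneg {A B : Submodule ℝ (EE n)} {j : ℕ} (hj : 1 ≤ j)
    (hjA : j ≤ finrank ℝ A) (hjB : j ≤ finrank ℝ B) : 0 ≤ psi A B j := by
  obtain ⟨X, Y, h⟩ := exists_chain (A := A) (B := B) j hjA hjB
  rw [psi_eq hj h]
  exact sn_nonneg _ _

theorem psi_pos {A B : Submodule ℝ (EE n)} {j : ℕ} (hj : 1 ≤ j)
    (hjA : j ≤ finrank ℝ A) (hjB : j ≤ finrank ℝ B)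
    (h : finrank ℝ (A ⊓ B : Submodule ℝ (EE n)) < j) : 0 < psi A B j := by
  refine lt_of_le_of_ne (psi_nonneg hj hjA hjB) (fun h0 => ?_)
  obtain ⟨V, hV1, hV2, hV3⟩ := close_of_psi hj hjA hjB
  rw [← h0] at hV3
  have h1 : V ≤ A ⊓ B := by
    refine le_inf hV1 fun v hv => ?_
    have h2 := hV3 v hv
    rw [zero_mul] at h2
    have h3 : Bᗮ.starProjection v = 0 := norm_eq_zero.1 (le_antisymm h2 (norm_nonneg _))
    have h4 := B.starProjection_add_starProjection_orthogonal v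
    rw [h3, add_zero] at h4
    rw [← h4]
    exact starProjection_apply_mem _ _
  have h2 := Submodule.finrank_mono h1
  omega

end Run7.h406
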