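import Pool.Agent.Run7.h406.Count

/-!
The dynamical argument.
-/

set_option autoImplicit false
set_option linter.unusedSectionVars false

namespace Run7.h406

open Module Submodule Finset Matrix MeasureTheory

section general

variable {E : Type*} [NormedAddCommGroup E] [InnerProductSpace ℝ E] [FiniteDimensional ℝ E]

/-- summation by parts -/
theorem abel_le (X L : ℕ → ℝ) (κ K : ℝ) (hκ : 0 ≤ κ) (h0 : X 0 = 0) (n : ℕ)
    (hX0 : ∀ i, i ≤ n + 1 → 0 ≤ X i) (hXK : ∀ i, i ≤ n + 1 → X i ≤ K)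
    (hL : ∀ i, i < n → L i ≤ L (i + 1) + κ) :
    ∑ k ∈ range (n + 1), (X (k + 1) - X k) * L k ≤ X (n + 1) * L n + n * (κ * K) := by
  induction n with
  | zero => simp [h0]
  | succ n ih =>
    rw [Finset.sum_range_succ]
    have h1 := ih (fun i hi => hX0 i (by omega)) (fun i hi => hXK i (by omega))
      (fun i hi => hL i (by omega))
    have h2 := hL n (by omega)
    have h3 := hX0 (n + 1) (by omega)
    have h4 := hXK (n + 1) (by omega)
    have h5 : X (n + 1) * L n ≤ X (n + 1) * (L (n + 1) + κ) := mul_le_mul_of_nonneg_left h2 h3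
    have h6 : X (n + 1) * κ ≤ K * κ := mul_le_mul_of_nonneg_right h4 hκ
    push_cast
    nlinarith

theorem exists_unit_orth (W : Submodule ℝ E) (r : ℕ) (f : ℕ → E) (h : r < finrank ℝ W) :
    ∃ w ∈ W, ‖w‖ = 1 ∧ ∀ k < r, inner ℝ (f k) w = 0 := by
  let T : W →ₗ[ℝ] (Fin r → ℝ) := LinearMap.pi fun k => (innerₛₗ ℝ (f k)) ∘ₗ W.subtype
  have hT : LinearMap.ker T ≠ ⊥ := LinearMap.ker_ne_bot_of_finrank_lt (by simpa using h)
  obtain ⟨w, hw, hw0⟩ := (Submodule.ne_bot_iff _).1 hT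
  have hw1 : ∀ k < r, inner ℝ (f k) (w : E) = 0 := by
    intro k hk
    have := congrFun (LinearMap.mem_ker.1 hw) ⟨k, hk⟩
    simpa [T] using this
  have hn : ‖(w : E)‖ ≠ 0 := by
    rw [norm_ne_zero_iff]
    intro h0
    exact hw0 (Subtype.ext h0)
  refine ⟨‖(w : E)‖⁻¹ • (w : E), smul_mem _ _ w.2, ?_, ?_⟩
  · rw [norm_smul, norm_inv, norm_norm, inv_mul_cancel₀ hn]
  · intro k hk
    rw [inner_smul_right, hw1 k hk, mul_zero]

/-- greedy choice of vectors close to `A` -/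
theorem exists_sel (A : Submodule ℝ E) (b : ℕ → E) {δ : ℝ} (l : ℕ → ℝ) (i : ℕ) :
    ∃ (f : ℕ → E) (idx : ℕ → ℕ), (∀ k < nd A (Vs b i) δ, f k ∈ Vs b (idx k + 1) ∧ idx k < i ∧
      ‖f k‖ = 1 ∧ ‖Aᗮ.starProjection (f k)‖ ≤ δ ∧
      ∀ k' < k, inner ℝ (f k') (f k) = 0 ∧ idx k' < idx k) ∧
      ∑ k ∈ range (nd A (Vs b i) δ), l (idx k) =
        ∑ i' ∈ range i, ((nd A (Vs b (i' + 1)) δ : ℝ) - nd A (Vs b i') δ) * l i' := by
  induction i with
  | zero =>
    refine ⟨0, 0, ?_, ?_⟩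
    · intro k hk
      rw [Vs_zero, nd_bot] at hk
      omega
    · rw [Vs_zero, nd_bot]; simp
  | succ i ih =>
    obtain ⟨f, idx, h1, h2⟩ := ih
    have hm : nd A (Vs b i) δ ≤ nd A (Vs b (i + 1)) δ := nd_mono (Vs_mono b (Nat.le_succ i))
    have hs : nd A (Vs b (i + 1)) δ ≤ nd A (Vs b i) δ + 1 := by
      rw [Vs_succ]; exact nd_succ_le A _ _ δ
    rcases Nat.lt_or_ge (nd A (Vs b i) δ) (nd A (Vs b (i + 1)) δ) with hlt | hge
    · have he : nd A (Vs b (i + 1)) δ = nd A (Vs b i) δ + 1 := by omega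
      set r := nd A (Vs b i) δ with hr
      obtain ⟨W, hW1, hW2, hW3⟩ := nd_spec A (Vs b (i + 1)) δ
      obtain ⟨w, hw1, hw2, hw3⟩ := exists_unit_orth W r f (by omega)
      refine ⟨fun k => if k < r then f k else w, fun k => if k < r then idx k else i, ?_, ?_⟩
      · intro k hk
        rcases Nat.lt_or_ge k r with hkr | hkr
        · obtain ⟨g1, g2, g3, g4, g5⟩ := h1 k hkr
          simp only [if_pos hkr]
          refine ⟨g1, by omega, g3, g4, ?_⟩
          intro k' hk'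
          have : k' < r := by omega
          simp only [if_pos this]
          exact g5 k' hk'
        · have hkr' : ¬ (k < r) := by omega
          simp only [if_neg hkr']
          refine ⟨hW1 hw1, by omega, hw2, ?_, ?_⟩
          · have := hW3 w hw1
            rw [hw2, mul_one] at this
            exact this
          · intro k' hk'
            have : k' < r := by omega
            simp only [if_pos this]
            exact ⟨hw3 k' this, (h1 k' this).2.1⟩
      · rw [he, Finset.sum_range_succ, Finset.sum_range_succ, he]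
        simp only [lt_irrefl, if_false]
        have h3 : ∑ k ∈ range r, l (if k < r then idx k else i) = ∑ k ∈ range r, l (idx k) :=
          Finset.sum_congr rfl fun k hk => by rw [if_pos (Finset.mem_range.1 hk)]
        rw [h3, h2]
        push_cast
        ring
    · have he : nd A (Vs b (i + 1)) δ = nd A (Vs b i) δ := by omega
      refine ⟨f, idx, ?_, ?_⟩
      · intro k hk
        rw [he] at hk
        obtain ⟨g1, g2, g3, g4, g5⟩ := h1 k hk
        exact ⟨g1, by omega, g3, g4, g5⟩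
      · rw [he, Finset.sum_range_succ, h2, he]
        ring

end general

variable {n : ℕ}

theorem sum_lr_fl {z : ℕ → EE n} (hz : IsZB (⊤ : Submodule ℝ (EE n)) n z) (A : Submodule ℝ (EE n))
    (q : ℝ) : ∑ k ∈ range n, lr (fun i => fl A q (z i)) k = ((n : ℝ) - finrank ℝ A) * q := by
  have hA : finrank ℝ A ≤ n := by simpa using Submodule.finrank_le A
  have h1 := congrArg Real.log (prod_rr_fl (N := n) (by simp) A q z)
  rw [Finset.prod_pow, Finset.prod_pow, prod_rr_top hz, one_pow, one_mul, Real.log_pow,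
    ← sum_lr_eq _ n (rr_fl_pos A q z hz.pos), Real.log_pow, Real.log_exp, Nat.cast_sub hA] at h1
  push_cast at h1
  linarith

/-- near monotonicity -/
def Near (n : ℕ) (b : ℕ → EE n) : Prop :=
  ∀ i, i + 1 < n → lr b i ≤ lr b (i + 1) + Real.log 2 / 2

theorem reduce_fl (A : Submodule ℝ (EE n)) (q : ℝ) (z : ℕ → EE n)
    (hz : IsZB (⊤ : Submodule ℝ (EE n)) n z) :
    ∃ z', IsZB (⊤ : Submodule ℝ (EE n)) n z' ∧
      pot (fun i => fl A q (z' i)) n ≤ pot (fun i => fl A q (z i)) n ∧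
      Near n (fun i => fl A q (z' i)) := by
  obtain ⟨b', ⟨z', h1, rfl⟩, h2, h3, h4⟩ := reduce (E := EE n)
    (fun b => ∃ z, IsZB (⊤ : Submodule ℝ (EE n)) n z ∧ b = fun i => fl A q (z i)) 0 n
    (by
      rintro b i m - h2 - ⟨z, h3, rfl⟩
      exact ⟨swp z i m, isZB_swp h3 m h2, swp_map _ _ _ _⟩)
    (fun i => fl A q (z i)) ⟨z, hz, rfl⟩ (rr_fl_pos A q z hz.pos)
  exact ⟨z', h1, h3, fun i hi => h4 i (Nat.zero_le _) hi⟩

theorem tau_bounds (A : Submodule ℝ (EE n)) {q Δ : ℝ} (hΔ : 0 ≤ Δ) {z : ℕ → EE n}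
    (hz : IsZB (⊤ : Submodule ℝ (EE n)) n z) {k : ℕ} (hk : k < n) :
    0 ≤ lr (fun i => fl A (q + Δ) (z i)) k - lr (fun i => fl A q (z i)) k ∧
      lr (fun i => fl A (q + Δ) (z i)) k - lr (fun i => fl A q (z i)) k ≤ Δ := by
  have e : (fun i => fl A (q + Δ) (z i)) = fun i => fl A Δ ((fun i => fl A q (z i)) i) := by
    funext i
    exact fl_add A q Δ (z i)
  have hp := rr_fl_pos A q z hz.pos k hk
  rw [e]
  have h1 := rr_le_rr_fl A hΔ (fun i => fl A q (z i)) k
  have h2 := rr_fl_le A hΔ (fun i => fl A q (z i)) k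
  constructor
  · have := Real.log_le_log hp h1
    unfold lr
    linarith
  · have := Real.log_le_log (lt_of_lt_of_le hp h1) h2
    rw [Real.log_mul (Real.exp_pos _).ne' hp.ne', Real.log_exp] at this
    unfold lr
    linarith

theorem pot_evolve (A : Submodule ℝ (EE n)) {q Δ : ℝ} (hΔ : 0 ≤ Δ) {z : ℕ → EE n}
    (hz : IsZB (⊤ : Submodule ℝ (EE n)) n z) :
    pot (fun i => fl A (q + Δ) (z i)) n ≤ pot (fun i => fl A q (z i)) n +
      2 * (Δ * (((n : ℝ) - finrank ℝ A) * q) -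
        ∑ k ∈ range n, (Δ - (lr (fun i => fl A (q + Δ) (z i)) k - lr (fun i => fl A q (z i)) k)) *
          lr (fun i => fl A q (z i)) k) + (2 * n ^ 2 * Δ + n * Δ ^ 2) := by
  rw [← sum_lr_fl hz A q]
  set L := lr (fun i => fl A q (z i))
  set L' := lr (fun i => fl A (q + Δ) (z i))
  have hτ : ∀ k < n, 0 ≤ L' k - L k ∧ L' k - L k ≤ Δ := fun k hk => tau_bounds A hΔ hz hk
  have e1 : Δ * ∑ k ∈ range n, L k - ∑ k ∈ range n, (Δ - (L' k - L k)) * L k =
      ∑ k ∈ range n, (L' k - L k) * L k := by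
    rw [Finset.mul_sum, ← Finset.sum_sub_distrib]
    exact Finset.sum_congr rfl fun k _ => by ring
  rw [e1]
  have e2 : (2 * n ^ 2 * Δ + n * Δ ^ 2 : ℝ) = ∑ k ∈ range n, (2 * n * Δ + Δ ^ 2) := by
    rw [Finset.sum_const, Finset.card_range, nsmul_eq_mul]; ring
  rw [e2]
  unfold pot
  rw [Finset.mul_sum, ← Finset.sum_add_distrib, ← Finset.sum_add_distrib]
  refine Finset.sum_le_sum fun k hk => ?_
  obtain ⟨h1, h2⟩ := hτ k (Finset.mem_range.1 hk)
  have hk' : (k : ℝ) ≤ n := by exact_mod_cast (Finset.mem_range.1 hk).le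
  have hk0 : (0 : ℝ) ≤ k := Nat.cast_nonneg k
  change (L' k + ((n : ℝ) - k)) ^ 2 ≤ (L k + ((n : ℝ) - k)) ^ 2 + 2 * ((L' k - L k) * L k) +
    (2 * n * Δ + Δ ^ 2)
  set t := L' k - L k with ht
  have h3 : L' k = L k + t := by rw [ht]; ring
  rw [h3]
  have h4 : t * ((n : ℝ) - k) ≤ Δ * n := mul_le_mul h2 (by linarith) (by linarith) hΔ
  have h5 : t ^ 2 ≤ Δ ^ 2 := pow_le_pow_left₀ h1 h2 2
  nlinarith

theorem pot_lower (A : Submodule ℝ (EE n)) {q : ℝ} (hq : 0 ≤ q) {z : ℕ → EE n}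
    (hz : IsZB (⊤ : Submodule ℝ (EE n)) n z) :
    (((n : ℝ) - finrank ℝ A) * q) ^ 2 ≤ n * pot (fun i => fl A q (z i)) n := by
  have hA : (finrank ℝ A : ℝ) ≤ n := by
    have : finrank ℝ A ≤ n := by simpa using Submodule.finrank_le A
    exact_mod_cast this
  have h1 : (∑ k ∈ range n, (lr (fun i => fl A q (z i)) k + ((n : ℝ) - k))) ^ 2 ≤
      (range n).card * ∑ k ∈ range n, (lr (fun i => fl A q (z i)) k + ((n : ℝ) - k)) ^ 2 :=
    sq_sum_le_card_mul_sum_sq
  rw [Finset.card_range] at h1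
  refine le_trans ?_ h1
  refine pow_le_pow_left₀ (mul_nonneg (by linarith) hq) ?_ 2
  rw [← sum_lr_fl hz A q]
  refine Finset.sum_le_sum fun k hk => ?_
  have : (k : ℝ) ≤ n := by exact_mod_cast (Finset.mem_range.1 hk).le
  linarith

/-- there are arbitrarily late times at which the weighted slope is small -/
theorem good_time (hn : 0 < n) (A : Submodule ℝ (EE n)) {c Δ Q : ℝ}
    (hc : (finrank ℝ A : ℝ) * (n - finrank ℝ A) / n < c) (hc2 : c ≤ n - finrank ℝ A)
    (hΔ : 0 < Δ) (hQ : 0 ≤ Q) :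
    ∃ q, Q ≤ q ∧ ∃ z, IsZB (⊤ : Submodule ℝ (EE n)) n z ∧ Near n (fun i => fl A q (z i)) ∧
      ∑ k ∈ range n, (Δ - (lr (fun i => fl A (q + Δ) (z i)) k - lr (fun i => fl A q (z i)) k)) *
          lr (fun i => fl A q (z i)) k < c * Δ * q := by
  by_contra hcon
  push Not at hcon
  have hn' : (0 : ℝ) < n := by exact_mod_cast hn
  set d : ℝ := (finrank ℝ A : ℝ) with hd
  set P0 := pot (fun i => fl A Q (stdb n i)) n with hP0
  set K : ℝ := 2 * n ^ 2 * Δ + n * Δ ^ 2 with hK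
  have hP00 : 0 ≤ P0 := pot_nonneg _ _
  have hK0 : 0 ≤ K := by positivity
  have main : ∀ m : ℕ, ∃ z, IsZB (⊤ : Submodule ℝ (EE n)) n z ∧
      pot (fun i => fl A (Q + m * Δ) (z i)) n ≤ P0 + m * K + (n - d - c) * (Q + m * Δ) ^ 2 := by
    intro m
    induction m with
    | zero =>
      refine ⟨stdb n, isZB_stdb, ?_⟩
      have h1 : 0 ≤ (n - d - c) * (Q + (0 : ℕ) * Δ) ^ 2 := mul_nonneg (by linarith) (sq_nonneg _)
      have h2 : (Q + (0 : ℕ) * Δ) = Q := by simp
      rw [h2] at h1 ⊢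
      push_cast
      linarith
    | succ m ih =>
      obtain ⟨z, hz, hz2⟩ := ih
      obtain ⟨z', h1, h2, h3⟩ := reduce_fl A (Q + m * Δ) z hz
      refine ⟨z', h1, ?_⟩
      have hq : Q ≤ Q + m * Δ := by
        have : 0 ≤ (m : ℝ) * Δ := by positivity
        linarith
      have h4 := hcon _ hq z' h1 h3
      have h5 := pot_evolve A (q := Q + m * Δ) hΔ.le h1
      have e : Q + ((m + 1 : ℕ) : ℝ) * Δ = Q + m * Δ + Δ := by push_cast; ring
      rw [e]
      refine h5.trans ?_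
      rw [← hK]
      have h6 : (Q + m * Δ + Δ) ^ 2 = (Q + m * Δ) ^ 2 + 2 * Δ * (Q + m * Δ) + Δ ^ 2 := by ring
      have h7 : 0 ≤ (n - d - c) * Δ ^ 2 := mul_nonneg (by linarith) (sq_nonneg _)
      rw [h6]
      push_cast
      nlinarith
  set η := c - d * (n - d) / n with hη
  have hη0 : 0 < η := by rw [hη]; linarith
  have key : ∀ m : ℕ, η * (m * Δ) ^ 2 ≤ P0 + m * K := by
    intro m
    obtain ⟨z, hz, hz2⟩ := main m
    have hm0 : 0 ≤ (m : ℝ) * Δ := by positivity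
    have h1 := pot_lower A (q := Q + m * Δ) (by linarith) hz
    rw [← hd] at h1
    have h2 : ((n - d) * (Q + m * Δ)) ^ 2 / n ≤ P0 + m * K + (n - d - c) * (Q + m * Δ) ^ 2 := by
      rw [div_le_iff₀ hn']
      nlinarith
    have h3 : ((n - d) * (Q + m * Δ)) ^ 2 / n - (n - d - c) * (Q + m * Δ) ^ 2 =
        η * (Q + m * Δ) ^ 2 := by
      rw [hη]; field_simp; ring
    have h4 : η * (m * Δ) ^ 2 ≤ η * (Q + m * Δ) ^ 2 :=
      mul_le_mul_of_nonneg_left (pow_le_pow_left₀ hm0 (by linarith) 2) hη0.le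
    linarith
  obtain ⟨m, hm⟩ := exists_nat_gt ((P0 + K) / (η * Δ ^ 2) + 1)
  have h1 := key m
  have hm1 : (1 : ℝ) < m := by
    have : 0 ≤ (P0 + K) / (η * Δ ^ 2) := by positivity
    linarith
  have h2 : (P0 + K) / (η * Δ ^ 2) < m := by linarith
  rw [div_lt_iff₀ (by positivity)] at h2
  nlinarith

end Run7.h406
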