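import Pool.Agent.Run7.h406.Core

/-!
The dynamical argument, second part.
-/

set_option autoImplicit false
set_option linter.unusedSectionVars false

namespace Run7.h406

open Module Submodule Finset Matrix MeasureTheory

variable {n : ℕ}

/-- a level at which the jumps are cheap -/
theorem good_level (hn : 0 < n) {M : ℕ} (hM : 0 < M) {ρ : ℝ} (hρ : 0 < ρ) (c : ℝ) :
    ∃ K2 : ℝ, ∀ (A : Submodule ℝ (EE n)) (q : ℝ), 0 ≤ q → ∀ z : ℕ → EE n,
      IsZB (⊤ : Submodule ℝ (EE n)) n z → Near n (fun i => fl A q (z i)) →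
      ∑ k ∈ range n, (M * ρ - (lr (fun i => fl A (q + M * ρ) (z i)) k -
        lr (fun i => fl A q (z i)) k)) * lr (fun i => fl A q (z i)) k < c * (M * ρ) * q →
      ∃ m ∈ Icc 1 M, ∑ i ∈ range n,
        ((nd A (Vs (fun i => fl A q (z i)) (i + 1)) (Real.exp (-(m * ρ))) : ℝ) -
          nd A (Vs (fun i => fl A q (z i)) i) (Real.exp (-(m * ρ)))) *
          lr (fun i => fl A q (z i)) i ≤
        (c + n * (n - finrank ℝ A) / M) * q + K2 := by
  cases n with
  | zero => omega
  | succ n' =>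
  set n := n' + 1 with hn1
  set κ := Real.log 2 / 2 with hκ
  have hκ0 : 0 ≤ κ := by
    have : 0 < Real.log 2 := Real.log_pos (by norm_num)
    positivity
  set K : ℝ := ρ * (n + M * n) with hK
  have hM' : (0 : ℝ) < M := by exact_mod_cast hM
  have hn' : (0 : ℝ) < n := by exact_mod_cast hn
  refine ⟨(ρ * n * (n * (n * κ)) + n * (κ * K)) / (ρ * M), ?_⟩
  intro A q hq z hz hnear hG
  set b : ℕ → EE n := fun i => fl A q (z i) with hb
  set d : ℝ := (finrank ℝ A : ℝ) with hd
  have hbpos : ∀ k < n, 0 < rr b k := rr_fl_pos A q z hz.pos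
  have hdn : finrank ℝ A ≤ n := by simpa using Submodule.finrank_le A
  have hdn' : d ≤ n := by rw [hd]; exact_mod_cast hdn
  have e0 : (fun i => fl A (q + M * ρ) (z i)) = fun l => fl A (M * ρ) (b l) := by
    funext i
    exact fl_add A q (M * ρ) (z i)
  set g : ℕ → ℝ := fun k => M * ρ - (lr (fun i => fl A (q + M * ρ) (z i)) k - lr b k) with hg
  have hg0 : ∀ k < n, 0 ≤ g k := by
    intro k hk
    have := (tau_bounds A (q := q) (Δ := M * ρ) (by positivity) hz hk).2
    simp only [hg]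
    linarith
  set D : ℕ → ℝ := fun i => ∑ k ∈ range i, g k with hD
  set N : ℕ → ℕ → ℝ := fun m i => (nd A (Vs b i) (Real.exp (-(m * ρ))) : ℝ) with hN
  set D' : ℕ → ℝ := fun i => ρ * (i + ∑ m ∈ Icc 1 M, N m i) with hD'
  have hDD' : ∀ i ≤ n, D i ≤ D' i := by
    intro i hi
    have h1 := D_le A b i (fun k hk => hbpos k (by omega)) hρ.le M
    rw [← e0] at h1
    exact h1
  have hD0 : ∀ i ≤ n, 0 ≤ D i := by
    intro i hi
    exact Finset.sum_nonneg fun k hk => hg0 k (by have := Finset.mem_range.1 hk; omega)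
  have hNn : ∀ m i, N m i ≤ n := by
    intro m i
    have h1 : nd A (Vs b i) (Real.exp (-(m * ρ))) ≤ n :=
      nd_le_finrank.trans (by simpa using Submodule.finrank_le (Vs b i))
    simp only [hN]
    exact_mod_cast h1
  have hX := abel_le (fun i => D' i - D i) (lr b) κ K hκ0
    (by
      simp only [hD', hD, hN]
      rw [Vs_zero]
      simp [nd_bot]) n'
    (fun i hi => sub_nonneg.2 (hDD' i hi))
    (by
      intro i hi
      have h1 := hD0 i hi
      have h2 : D' i ≤ K := by
        simp only [hD', hK]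
        refine mul_le_mul_of_nonneg_left ?_ hρ.le
        have h3 : ∑ m ∈ Icc 1 M, N m i ≤ M * n := by
          have := Finset.sum_le_card_nsmul (Icc 1 M) (fun m => N m i) n (fun m _ => hNn m i)
          simpa using this
        have h4 : (i : ℝ) ≤ n := by exact_mod_cast hi
        linarith
      linarith)
    (fun i hi => hnear i (by omega))
  have hVtop : Vs b n = ⊤ := by
    apply Submodule.eq_top_of_finrank_eq
    rw [finrank_Vs b n hbpos]
    simp
  have hXn : D' n - D n = ρ * n := by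
    have h1 : D n = n * (M * ρ) - (n - d) * (M * ρ) := by
      simp only [hD, hg]
      rw [Finset.sum_sub_distrib, Finset.sum_sub_distrib, sum_lr_fl hz A (q + M * ρ),
        sum_lr_fl hz A q, Finset.sum_const, Finset.card_range, nsmul_eq_mul, ← hd]
      ring
    have h2 : ∑ m ∈ Icc 1 M, N m n = M * d := by
      have h3 : ∀ m ∈ Icc 1 M, N m n = d := by
        intro m hm
        simp only [hN]
        rw [hVtop, nd_top A (Real.exp_pos _).le]
        rw [Real.exp_lt_one_iff]
        have : 1 ≤ m := (Finset.mem_Icc.1 hm).1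
        have : (0 : ℝ) < m := by exact_mod_cast this
        have := mul_pos this hρ
        linarith
      rw [Finset.sum_congr rfl h3]
      simp
    simp only [hD'] at *
    rw [h1, h2]
    ring
  have hsum1 : ∑ k ∈ range n, ((D' (k + 1) - D (k + 1)) - (D' k - D k)) * lr b k =
      ρ * ((n - d) * q) + ρ * ∑ m ∈ Icc 1 M, ∑ i ∈ range n, (N m (i + 1) - N m i) * lr b i -
        ∑ k ∈ range n, g k * lr b k := by
    rw [← sum_lr_fl hz A q, Finset.sum_comm, ← mul_add, ← Finset.sum_add_distrib, Finset.mul_sum,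
      ← Finset.sum_sub_distrib]
    refine Finset.sum_congr rfl fun k _ => ?_
    have h1 : D (k + 1) = D k + g k := by
      simp only [hD]
      rw [Finset.sum_range_succ]
    have h2 : D' (k + 1) = D' k + ρ * (1 + ∑ m ∈ Icc 1 M, (N m (k + 1) - N m k)) := by
      simp only [hD']
      rw [Finset.sum_sub_distrib]
      push_cast
      ring
    rw [h1, h2, ← Finset.sum_mul]
    ring
  have hLlow : ∀ k < n, -(n * κ) ≤ lr b k := by
    intro k hk
    have h1 := near_mono (l := lr b) (lo := 0) (N := n) (κ := κ) hκ0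
      (fun i _ hi => hnear i hi) 0 k (le_refl _) (Nat.zero_le _) hk
    have h2 : 1 ≤ rr z 0 := by
      have := one_le_prod_rr (w := z) (e := 1) (fun k hk => hz.int k (by omega))
        (fun k hk => hz.pos k (by omega))
      simpa using this
    have h3 : 0 ≤ lr b 0 := Real.log_nonneg (h2.trans (rr_le_rr_fl A hq z 0))
    linarith
  have hLn : lr b n' ≤ (n - d) * q + n * (n * κ) := by
    have h1 : ∑ k ∈ range (n' + 1), lr b k = ((n : ℝ) - d) * q := sum_lr_fl hz A q
    rw [Finset.sum_range_succ] at h1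
    have h2 : ∑ k ∈ range n', (-(n * κ)) ≤ ∑ k ∈ range n', lr b k :=
      Finset.sum_le_sum fun k hk => hLlow k (by have := Finset.mem_range.1 hk; omega)
    rw [Finset.sum_const, Finset.card_range, nsmul_eq_mul] at h2
    have h3 : (n' : ℝ) ≤ n := by rw [hn1]; push_cast; linarith
    have h4 : (n' : ℝ) * (n * κ) ≤ n * (n * κ) := mul_le_mul_of_nonneg_right h3 (by positivity)
    linarith
  have hX2 := hX
  change ∑ k ∈ range n, ((D' (k + 1) - D (k + 1)) - (D' k - D k)) * lr b k ≤
    (D' n - D n) * lr b n' + n' * (κ * K) at hX2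
  rw [hsum1, hXn] at hX2
  have hn'' : (n' : ℝ) * (κ * K) ≤ n * (κ * K) := by
    refine mul_le_mul_of_nonneg_right ?_ (by positivity)
    rw [hn1]; push_cast; linarith
  have hLn2 : ρ * n * lr b n' ≤ ρ * n * ((n - d) * q + n * (n * κ)) :=
    mul_le_mul_of_nonneg_left hLn (by positivity)
  have hnd : 0 ≤ ρ * ((n - d) * q) :=
    mul_nonneg hρ.le (mul_nonneg (by linarith) hq)
  have hG' : ∑ k ∈ range n, g k * lr b k < c * (M * ρ) * q := hG
  have hfin : ∑ m ∈ Icc 1 M, ∑ i ∈ range n, (N m (i + 1) - N m i) * lr b i ≤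
      ∑ m ∈ Icc 1 M, ((c + n * (n - d) / M) * q +
        (ρ * n * (n * (n * κ)) + n * (κ * K)) / (ρ * M)) := by
    rw [Finset.sum_const, Nat.card_Icc, Nat.add_sub_cancel, nsmul_eq_mul]
    have h1 : ρ * (M * ((c + n * (n - d) / M) * q +
        (ρ * n * (n * (n * κ)) + n * (κ * K)) / (ρ * M))) =
        c * (M * ρ) * q + ρ * n * ((n - d) * q) + (ρ * n * (n * (n * κ)) + n * (κ * K)) := by
      field_simp
    refine le_of_mul_le_mul_left ?_ hρ
    rw [h1]
    linarith
  exact Finset.exists_le_of_sum_le ⟨1, Finset.mem_Icc.2 ⟨le_rfl, hM⟩⟩ hfin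

theorem close_of_est (A : Submodule ℝ (EE n)) (q : ℝ) (v : EE n) {t : ℝ} (ht : 0 ≤ t)
    (h1 : ‖Aᗮ.starProjection (fl A q v)‖ ≤ 1 / 4 * t) (h2 : 7 / 8 * t ≤ ‖fl A q v‖) :
    ‖Aᗮ.starProjection v‖ ≤ Real.exp (-q) * ‖v‖ := by
  have h4 := norm_sq_eq_add_norm_sq_starProjection (fl A q v) A
  have h5 : ‖Aᗮ.starProjection (fl A q v)‖ ≤ ‖A.starProjection (fl A q v)‖ := by
    refine (pow_le_pow_iff_left₀ (norm_nonneg _) (norm_nonneg _) two_ne_zero).1 ?_
    have h6 : ‖Aᗮ.starProjection (fl A q v)‖ ^ 2 ≤ (1 / 4 * t) ^ 2 :=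
      pow_le_pow_left₀ (norm_nonneg _) h1 2
    have h7 : (7 / 8 * t) ^ 2 ≤ ‖fl A q v‖ ^ 2 := pow_le_pow_left₀ (by positivity) h2 2
    nlinarith [sq_nonneg t]
  rw [proj_fl, projo_fl, norm_smul, Real.norm_eq_abs, abs_of_pos (Real.exp_pos _)] at h5
  have h6 := norm_starProjection_apply_le A v
  have h7 : ‖Aᗮ.starProjection v‖ =
      Real.exp (-q) * (Real.exp q * ‖Aᗮ.starProjection v‖) := by
    rw [← mul_assoc, ← Real.exp_add, neg_add_cancel, Real.exp_zero, one_mul]
  rw [h7]
  exact mul_le_mul_of_nonneg_left (h5.trans h6) (Real.exp_pos _).le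

theorem final_arith {n d j q ε κ K1 K2 c S η : ℝ} (hd : 0 < d) (hj : 1 ≤ j) (hjd : j ≤ d)
    (hdn : d ≤ n) (hq : 0 ≤ q) (hη0 : 0 ≤ η) (hη : η ≤ ε / 4) (hκ : 0 ≤ κ)
    (hK : |K2| + |K1| + n * (n * κ) ≤ ε / 4 * q) (hc : c = d * (n - d) / n + η)
    (hS : d * S ≤ j * ((c + ε / 4) * q + K2) + j * (d - j) * (n * κ)) :
    S + K1 ≤ j * ((n - d) / n + ε) * q := by
  obtain ⟨r, hr⟩ : ∃ r, r = j / d := ⟨_, rfl⟩
  have hjr : j = r * d := by rw [hr]; field_simp
  have hr0 : 0 ≤ r := by rw [hr]; positivity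
  have hr1 : r ≤ 1 := by rw [hr, div_le_one hd]; exact hjd
  have h1 : S ≤ r * ((c + ε / 4) * q + K2) + r * (d - j) * (n * κ) := by
    refine le_of_mul_le_mul_left ?_ hd
    have e : d * (r * ((c + ε / 4) * q + K2) + r * (d - j) * (n * κ)) =
        j * ((c + ε / 4) * q + K2) + j * (d - j) * (n * κ) := by
      have : j * ((c + ε / 4) * q + K2) + j * (d - j) * (n * κ) =
        (r * d) * ((c + ε / 4) * q + K2) + (r * d) * (d - j) * (n * κ) := by rw [← hjr]
      rw [this]; ring
    rw [e]; exact hS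
  have h2 : r * K2 ≤ |K2| := by
    have a1 : r * K2 ≤ r * |K2| := mul_le_mul_of_nonneg_left (le_abs_self _) hr0
    have a2 : r * |K2| ≤ 1 * |K2| := mul_le_mul_of_nonneg_right hr1 (abs_nonneg _)
    linarith
  have hn0 : 0 ≤ n := by linarith
  have h3 : r * (d - j) * (n * κ) ≤ n * (n * κ) := by
    refine mul_le_mul_of_nonneg_right ?_ (by positivity)
    have a1 : r * (d - j) ≤ 1 * (d - j) := mul_le_mul_of_nonneg_right hr1 (by linarith)
    linarith
  have h4 : r * (η + ε / 4) * q ≤ ε / 2 * q := by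
    refine mul_le_mul_of_nonneg_right ?_ hq
    have a1 : r * (η + ε / 4) ≤ 1 * (η + ε / 4) :=
      mul_le_mul_of_nonneg_right hr1 (by linarith)
    linarith
  have h5 : r * ((c + ε / 4) * q + K2) =
      j * ((n - d) / n) * q + r * (η + ε / 4) * q + r * K2 := by
    rw [hc, hjr]; ring
  have h6 : K1 ≤ |K1| := le_abs_self _
  have h7 : ε * q ≤ j * (ε * q) := by
    have a0 : 0 ≤ ε * q := mul_nonneg (by linarith) hq
    have a1 : 1 * (ε * q) ≤ j * (ε * q) := mul_le_mul_of_nonneg_right hj a0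
    linarith
  have h8 : j * ((n - d) / n + ε) * q = j * ((n - d) / n) * q + j * (ε * q) := by ring
  rw [h8]
  have h9 : 0 ≤ ε * q := mul_nonneg (by linarith) hq
  rw [h5] at h1
  linarith

/-- lattice vectors approximating the greedy directions -/
theorem approx (hn : 0 < n) : ∃ K1 : ℝ, ∀ (j : ℕ) (A : Submodule ℝ (EE n)) (q : ℝ), 0 ≤ q →
    ∀ z : ℕ → EE n, IsZB (⊤ : Submodule ℝ (EE n)) n z → Near n (fun i => fl A q (z i)) →
    ∀ (δ : ℝ), δ ≤ 1 / (8 * n) → ∀ (f : ℕ → EE n) (idx : ℕ → ℕ), j ≤ n →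
    (∀ k < j, f k ∈ Vs (fun i => fl A q (z i)) (idx k + 1) ∧ idx k < n ∧ ‖f k‖ = 1 ∧
      ‖Aᗮ.starProjection (f k)‖ ≤ δ ∧ ∀ k' < k, inner ℝ (f k') (f k) = 0) →
    ∃ C ∈ Rn n j, Close A C (Real.exp (-q)) ∧
      Real.log (height C) ≤ ∑ k ∈ range j, lr (fun i => fl A q (z i)) (idx k) + K1 := by
  set κ := Real.log 2 / 2 with hκ
  have hκ0 : 0 ≤ κ := by
    have : 0 < Real.log 2 := Real.log_pos (by norm_num)
    positivity
  have hn' : (1 : ℝ) ≤ n := by exact_mod_cast hn
  set C1 : ℝ := n * Real.exp (n * κ) with hC1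
  have hC10 : 1 ≤ C1 := by
    have : 1 ≤ Real.exp (n * κ) := Real.one_le_exp (by positivity)
    rw [hC1]; nlinarith
  refine ⟨n * Real.log (16 * n * C1), ?_⟩
  intro j A q hq z hz hnear δ hδ f idx hjn hf
  set b : ℕ → EE n := fun i => fl A q (z i) with hb
  have hbpos : ∀ k < n, 0 < rr b k := rr_fl_pos A q z hz.pos
  have hnm := near_mono (l := lr b) (lo := 0) (N := n) (κ := κ) hκ0 (fun i _ hi => hnear i hi)
  have hrk : ∀ i k, i ≤ k → k < n → rr b i ≤ Real.exp (n * κ) * rr b k := by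
    intro i k hik hk
    have h1 := hnm i k (Nat.zero_le _) hik hk
    have h3 := Real.exp_le_exp.2 h1
    unfold lr at h3
    rw [Real.exp_add, Real.exp_log (hbpos i (by omega)), Real.exp_log (hbpos k hk)] at h3
    linarith
  let R : ℕ → ℝ := fun k => 8 * n * C1 * rr b (idx k)
  have hR : ∀ k < j, 0 < R k := by
    intro k hk
    have := hbpos (idx k) (hf k hk).2.1
    simp only [R]
    positivity
  have hex : ∀ k, ∃ c : EE n, k < j → c ∈ ZL n ∧ ‖R k • f k - fl A q c‖ ≤ R k / (8 * n) := by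
    intro k
    by_cases hk : k < j
    · obtain ⟨h1, h2, h3, h4, h5⟩ := hf k hk
      obtain ⟨c, hc⟩ := babai b (idx k + 1) (fun i hi => hbpos i (by omega)) (R k • f k)
        (smul_mem _ _ h1)
      refine ⟨∑ i ∈ range (idx k + 1), c i • z i, fun _ => ⟨?_, ?_⟩⟩
      · refine sum_mem fun i hi => zsmul_mem (hz.int i ?_) _
        have := Finset.mem_range.1 hi
        omega
      · have e1 : fl A q (∑ i ∈ range (idx k + 1), c i • z i) =
            ∑ i ∈ range (idx k + 1), c i • b i := by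
          rw [map_sum]
          exact Finset.sum_congr rfl fun i _ => map_zsmul _ _ _
        rw [e1]
        have hbi := hbpos (idx k) h2
        refine (pow_le_pow_iff_left₀ (norm_nonneg _) (by have := hR k hk; positivity)
          two_ne_zero).1 ?_
        refine hc.trans ?_
        have h6 : R k / (8 * n) = C1 * rr b (idx k) := by
          simp only [R]; field_simp
        rw [h6]
        have h7 : ∑ i ∈ range (idx k + 1), rr b i ^ 2 ≤
            n * (Real.exp (n * κ) * rr b (idx k)) ^ 2 := by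
          have h8 : ∀ i ∈ range (idx k + 1), rr b i ^ 2 ≤
              (Real.exp (n * κ) * rr b (idx k)) ^ 2 := by
            intro i hi
            have := Finset.mem_range.1 hi
            exact pow_le_pow_left₀ (rr_nonneg _ _) (hrk i (idx k) (by omega) h2) 2
          have h9 := Finset.sum_le_card_nsmul _ _ _ h8
          rw [Finset.card_range, nsmul_eq_mul] at h9
          refine h9.trans (mul_le_mul_of_nonneg_right ?_ (by positivity))
          exact_mod_cast (by omega : idx k + 1 ≤ n)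
        have h10 : (C1 * rr b (idx k)) ^ 2 = n ^ 2 * (Real.exp (n * κ) * rr b (idx k)) ^ 2 := by
          rw [hC1]; ring
        rw [h10]
        have h11 : 0 ≤ (Real.exp (n * κ) * rr b (idx k)) ^ 2 := by positivity
        have h12 : (n : ℝ) ≤ n ^ 2 := by nlinarith
        have h13 : (n : ℝ) * (Real.exp (n * κ) * rr b (idx k)) ^ 2 ≤
            n ^ 2 * (Real.exp (n * κ) * rr b (idx k)) ^ 2 := mul_le_mul_of_nonneg_right h12 h11
        nlinarith
    · exact ⟨0, fun h => absurd h hk⟩
  choose c hc using hex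
  -- estimates on the span
  have hest : ∀ a : Fin j → ℝ,
      ‖Aᗮ.starProjection (fl A q (∑ k, a k • c k))‖ ≤ (∑ k, |a k| * R k) / (4 * n) ∧
      7 / 8 * ((∑ k, |a k| * R k) / n) ≤ ‖fl A q (∑ k, a k • c k)‖ := by
    intro a
    set s : ℝ := ∑ k : Fin j, |a k| * R k with hs
    have e1 : fl A q (∑ k, a k • c k) = ∑ k : Fin j, (a k * R k) • f k -
        ∑ k : Fin j, a k • (R k • f k - fl A q (c k)) := by
      rw [map_sum, ← Finset.sum_sub_distrib]
      refine Finset.sum_congr rfl fun k _ => ?_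
      rw [map_smul, smul_sub, smul_smul]
      abel
    have h1 : ‖∑ k : Fin j, a k • (R k • f k - fl A q (c k))‖ ≤ s / (8 * n) := by
      refine (norm_sum_le _ _).trans ?_
      rw [hs, Finset.sum_div]
      refine Finset.sum_le_sum fun k _ => ?_
      rw [norm_smul, Real.norm_eq_abs, mul_div_assoc]
      exact mul_le_mul_of_nonneg_left (hc k k.2).2 (abs_nonneg _)
    have h2 : ‖Aᗮ.starProjection (∑ k : Fin j, (a k * R k) • f k)‖ ≤ s / (8 * n) := by
      rw [map_sum]
      refine (norm_sum_le _ _).trans ?_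
      rw [hs, Finset.sum_div]
      refine Finset.sum_le_sum fun k _ => ?_
      rw [map_smul, norm_smul, Real.norm_eq_abs, abs_mul, abs_of_pos (hR k k.2), div_eq_mul_one_div]
      have := hR k k.2
      exact mul_le_mul_of_nonneg_left ((hf k k.2).2.2.2.1.trans hδ) (by positivity)
    have h3 : s / n ≤ ‖∑ k : Fin j, (a k * R k) • f k‖ := by
      refine (pow_le_pow_iff_left₀ ?_ (norm_nonneg _) two_ne_zero).1 ?_
      · have : 0 ≤ s := Finset.sum_nonneg fun k _ => mul_nonneg (abs_nonneg _) (hR k k.2).le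
        positivity
      · rw [norm_sq_sum (f := fun k : Fin j => f k) (by
          intro k l hkl
          rcases lt_or_gt_of_ne hkl with h | h
          · exact (hf l l.2).2.2.2.2 k h
          · rw [real_inner_comm]; exact (hf k k.2).2.2.2.2 l h) (fun k => a k * R k) Finset.univ]
        have h4 : s ^ 2 ≤ j * ∑ k : Fin j, (|a k| * R k) ^ 2 := by
          have := sq_sum_le_card_mul_sum_sq (s := (Finset.univ : Finset (Fin j)))
            (f := fun k => |a k| * R k)
          simpa using this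
        have h5 : ∑ k : Fin j, (|a k| * R k) ^ 2 = ∑ k : Fin j, (a k * R k) ^ 2 * ‖f k‖ ^ 2 := by
          refine Finset.sum_congr rfl fun k _ => ?_
          rw [(hf k k.2).2.2.1, mul_pow, sq_abs, mul_pow]; ring
        rw [← h5, div_pow, div_le_iff₀ (by positivity)]
        refine h4.trans ?_
        have h6 : 0 ≤ ∑ k : Fin j, (|a k| * R k) ^ 2 := Finset.sum_nonneg fun k _ => sq_nonneg _
        have h7 : (j : ℝ) ≤ n ^ 2 := by
          have : (j : ℝ) ≤ n := by exact_mod_cast hjn
          nlinarith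
        nlinarith
    constructor
    · rw [e1, map_sub]
      refine (norm_sub_le _ _).trans ?_
      have h4 := (norm_starProjection_apply_le Aᗮ
        (∑ k : Fin j, a k • (R k • f k - fl A q (c k)))).trans h1
      have h5 : s / (4 * n) = s / (8 * n) + s / (8 * n) := by field_simp; ring
      rw [h5]
      exact add_le_add h2 h4
    · have h4 := norm_sub_norm_le (∑ k : Fin j, (a k * R k) • f k)
        (∑ k : Fin j, a k • (R k • f k - fl A q (c k)))
      rw [← e1] at h4
      have h5 : s / (8 * n) = 1 / 8 * (s / n) := by field_simp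
      rw [h5] at h1
      linarith
  have hcpos : ∀ k < j, 0 < rr c k := by
    rw [rr_pos_iff, Fintype.linearIndependent_iff]
    intro a ha k
    have h1 := (hest a).2
    rw [ha, map_zero, norm_zero] at h1
    have h2 : 0 ≤ ∑ k : Fin j, |a k| * R k :=
      Finset.sum_nonneg fun k _ => mul_nonneg (abs_nonneg _) (hR k k.2).le
    have h3 : ∑ k : Fin j, |a k| * R k = 0 := by
      by_contra hne
      have h4 : 0 < ∑ k : Fin j, |a k| * R k := lt_of_le_of_ne h2 (Ne.symm hne)
      have h5 : 0 < 7 / 8 * ((∑ k : Fin j, |a k| * R k) / n) := by positivity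
      linarith
    have h4 := (Finset.sum_eq_zero_iff_of_nonneg (fun k _ =>
      mul_nonneg (abs_nonneg (a k)) (hR k k.2).le)).1 h3 k (Finset.mem_univ k)
    rcases mul_eq_zero.1 h4 with h5 | h5
    · exact abs_eq_zero.1 h5
    · exact absurd h5 (hR k k.2).ne'
  have hcint : ∀ k < j, c k ∈ ZL n := fun k hk => (hc k hk).1
  refine ⟨Vs c j, Vs_mem_Rn hcint hcpos, ?_, ?_⟩
  · intro v hv
    rw [Vs_eq_span_range, mem_span_range_iff_exists_fun] at hv
    obtain ⟨a, rfl⟩ := hv
    obtain ⟨h1, h2⟩ := hest a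
    have h0 : 0 ≤ ∑ k : Fin j, |a k| * R k :=
      Finset.sum_nonneg fun k _ => mul_nonneg (abs_nonneg _) (hR k k.2).le
    refine close_of_est A q _ (t := (∑ k : Fin j, |a k| * R k) / n)
      (div_nonneg h0 (Nat.cast_nonneg n)) ?_ h2
    have h3 : (∑ k : Fin j, |a k| * R k) / (4 * n) = 1 / 4 * ((∑ k : Fin j, |a k| * R k) / n) := by
      field_simp
    rw [← h3]
    exact h1
  · have h1 := height_le hcint hcpos
    have h2 := Real.log_le_log (lt_of_lt_of_le one_pos
      (one_le_height (Vs_mem_Rn hcint hcpos))) h1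
    rw [← sum_lr_eq c j hcpos] at h2
    refine h2.trans ?_
    have h3 : ∑ k ∈ range j, lr c k ≤
        ∑ k ∈ range j, (lr b (idx k) + Real.log (16 * n * C1)) := by
      refine Finset.sum_le_sum fun k hk => ?_
      have hk' := Finset.mem_range.1 hk
      have hbi := hbpos (idx k) (hf k hk').2.1
      have h4 : rr c k ≤ 16 * n * C1 * rr b (idx k) := by
        refine (rr_le_norm c k).trans ((norm_le_fl A hq (c k)).trans ?_)
        have h5 : fl A q (c k) = R k • f k - (R k • f k - fl A q (c k)) := by abel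
        rw [h5]
        refine (norm_sub_le _ _).trans ?_
        rw [norm_smul, (hf k hk').2.2.1, mul_one, Real.norm_eq_abs, abs_of_pos (hR k hk')]
        have h6 := (hc k hk').2
        have h7 : R k / (8 * n) ≤ R k := by
          rw [div_le_iff₀ (by positivity)]
          have := hR k hk'
          nlinarith
        have h8 : 16 * n * C1 * rr b (idx k) = R k + R k := by simp only [R]; ring
        rw [h8]
        linarith
      have h5 := Real.log_le_log (hcpos k hk') h4
      rw [Real.log_mul (by positivity) hbi.ne'] at h5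
      unfold lr
      linarith
    refine h3.trans ?_
    rw [Finset.sum_add_distrib, Finset.sum_const, Finset.card_range, nsmul_eq_mul]
    have h6 : 0 ≤ Real.log (16 * n * C1) := Real.log_nonneg (by nlinarith)
    have h7 : (j : ℝ) * Real.log (16 * n * C1) ≤ n * Real.log (16 * n * C1) :=
      mul_le_mul_of_nonneg_right (by exact_mod_cast hjn) h6
    linarith

/-- The core estimate. -/
theorem core {d j : ℕ} (hj : 1 ≤ j) (hjd : j ≤ d) (hdn : d < n) (A : Submodule ℝ (EE n))
    (hA : finrank ℝ A = d) {ε : ℝ} (hε : 0 < ε) (Q : ℝ) :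
    ∃ q, Q ≤ q ∧ ∃ C ∈ Rn n j, Close A C (Real.exp (-q)) ∧
      Real.log (height C) ≤ (j : ℝ) * ((n - d) / n + ε) * q := by
  have hn : 0 < n := by omega
  have hn' : (0 : ℝ) < n := by exact_mod_cast hn
  have hd' : (0 : ℝ) < d := by exact_mod_cast (by omega : 0 < d)
  have hj' : (0 : ℝ) < j := by exact_mod_cast (by omega : 0 < j)
  have hdn' : (d : ℝ) < n := by exact_mod_cast hdn
  have hjd' : (j : ℝ) ≤ d := by exact_mod_cast hjd
  set κ := Real.log 2 / 2 with hκ
  have hκ0 : 0 ≤ κ := by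
    have : 0 < Real.log 2 := Real.log_pos (by norm_num)
    positivity
  -- small parameter
  set η : ℝ := min (ε / 4) (((n : ℝ) - d) ^ 2 / n) with hη
  have hη0 : 0 < η := lt_min (by positivity) (by
    have : 0 < (n : ℝ) - d := by linarith
    positivity)
  have hη1 : η ≤ ε / 4 := min_le_left _ _
  have hη2 : η ≤ ((n : ℝ) - d) ^ 2 / n := min_le_right _ _
  set c : ℝ := (d : ℝ) * (n - d) / n + η with hc
  have hc2 : c ≤ n - d := by
    have : (d : ℝ) * (n - d) / n + ((n : ℝ) - d) ^ 2 / n = n - d := by field_simp; ring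
    linarith
  obtain ⟨M, hM⟩ := exists_nat_gt (n * ((n : ℝ) - d) / (ε / 4))
  have hM0 : (0 : ℝ) < M := by
    have : 0 ≤ n * ((n : ℝ) - d) / (ε / 4) := by
      have : 0 < (n : ℝ) - d := by linarith
      positivity
    linarith
  have hM0' : 0 < M := by exact_mod_cast hM0
  have hM2 : n * ((n : ℝ) - d) / M ≤ ε / 4 := by
    rw [div_lt_iff₀ (by positivity)] at hM
    rw [div_le_iff₀ hM0]
    linarith
  set ρ : ℝ := Real.log (8 * n) with hρ
  have h8n : (1 : ℝ) < 8 * n := by
    have : (1 : ℝ) ≤ n := by exact_mod_cast hn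
    linarith
  have hρ0 : 0 < ρ := Real.log_pos h8n
  obtain ⟨K2, hK2⟩ := good_level hn hM0' hρ0 c
  obtain ⟨K1, hK1⟩ := approx (n := n) hn
  set K3 : ℝ := |K2| + |K1| + n * (n * κ) with hK3
  have hK30 : 0 ≤ K3 := by positivity
  set Q' : ℝ := max (max Q 0) (K3 / (ε / 4)) with hQ'
  obtain ⟨q, hqQ, z, hz, hnear, hG⟩ := good_time hn A (c := c) (Δ := M * ρ) (Q := Q')
    (by rw [hA]; linarith) (by rw [hA]; exact hc2) (by positivity)
    (le_max_of_le_left (le_max_right _ _))
  have hq0 : 0 ≤ q := (le_max_right Q 0).trans ((le_max_left _ _).trans hqQ)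
  have hqQ' : Q ≤ q := (le_max_left Q 0).trans ((le_max_left _ _).trans hqQ)
  have hqK : K3 ≤ ε / 4 * q := by
    have := (le_max_right (max Q 0) (K3 / (ε / 4))).trans hqQ
    rw [div_le_iff₀ (by positivity)] at this
    linarith
  obtain ⟨m, hm, hJ⟩ := hK2 A q hq0 z hz hnear hG
  set δ := Real.exp (-(m * ρ)) with hδ
  have hm1 : (1 : ℝ) ≤ m := by exact_mod_cast (Finset.mem_Icc.1 hm).1
  have hδ1 : δ ≤ 1 / (8 * n) := by
    have : δ ≤ Real.exp (-ρ) := Real.exp_le_exp.2 (by nlinarith)
    rwa [Real.exp_neg, hρ, Real.exp_log (by positivity), inv_eq_one_div] at this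
  have hδ2 : δ < 1 := by
    rw [hδ, Real.exp_lt_one_iff]
    nlinarith
  set b : ℕ → EE n := fun i => fl A q (z i) with hb
  have hbpos : ∀ k < n, 0 < rr b k := rr_fl_pos A q z hz.pos
  obtain ⟨f, idx, hf, hsum⟩ := exists_sel A b (δ := δ) (lr b) n
  have hVtop : Vs b n = ⊤ := by
    apply Submodule.eq_top_of_finrank_eq
    rw [finrank_Vs b n hbpos]
    simp
  have hnd : nd A (Vs b n) δ = d := by
    rw [hVtop, nd_top A (Real.exp_pos _).le hδ2, hA]
  rw [hnd] at hf hsum
  obtain ⟨C, hC1, hC2, hC3⟩ := hK1 j A q hq0 z hz hnear δ hδ1 f idx (by omega) (by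
    intro k hk
    obtain ⟨g1, g2, g3, g4, g5⟩ := hf k (by omega)
    exact ⟨g1, g2, g3, g4, fun k' hk' => (g5 k' hk').1⟩)
  refine ⟨q, hqQ', C, hC1, hC2, hC3.trans ?_⟩
  have hnm := near_mono (l := lr b) (lo := 0) (N := n) (κ := κ) hκ0 (fun i _ hi => hnear i hi)
  have havg := avg_le (l := fun k => lr b (idx k)) (N := d) (r := j) (K := n * κ) hjd (by
    intro i k hi hk hkd
    refine hnm (idx i) (idx k) (Nat.zero_le _) ?_ (hf k hkd).2.1
    exact ((hf k hkd).2.2.2.2 i (by omega)).2.le)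
  rw [hsum] at havg
  rw [hA] at hJ
  set S : ℝ := ∑ i ∈ range j, lr b (idx i) with hS
  set J : ℝ := ∑ i ∈ range n, ((nd A (Vs b (i + 1)) δ : ℝ) - nd A (Vs b i) δ) * lr b i with hJdef
  have h1 : J ≤ (c + ε / 4) * q + K2 := by
    refine hJ.trans ?_
    have : (c + n * ((n : ℝ) - d) / M) * q ≤ (c + ε / 4) * q :=
      mul_le_mul_of_nonneg_right (by linarith) hq0
    linarith
  have h2 : (d : ℝ) * S ≤ j * ((c + ε / 4) * q + K2) + j * (d - j) * (n * κ) :=
    havg.trans (add_le_add (mul_le_mul_of_nonneg_left h1 hj'.le) le_rfl)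
  exact final_arith hd' (by exact_mod_cast hj) hjd' hdn'.le hq0 hη0.le hη1 hκ0 hqK hc h2

end Run7.h406
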