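import Pool.Agent.Run7.h406.Flow

/-!
Dimensions of subspaces of `V` close to `A`, and the expansion of the flow on `V`.
-/

set_option autoImplicit false
set_option linter.unusedSectionVars false

namespace Run7.h406

open Module Submodule Finset Matrix MeasureTheory

variable {E : Type*} [NormedAddCommGroup E] [InnerProductSpace ℝ E] [FiniteDimensional ℝ E]

/-- `W` is `δ`-close to `A` -/
def Close (A W : Submodule ℝ E) (δ : ℝ) : Prop := ∀ w ∈ W, ‖Aᗮ.starProjection w‖ ≤ δ * ‖w‖

/-- largest dimension of a subspace of `V` which is `δ`-close to `A` -/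
noncomputable def nd (A V : Submodule ℝ E) (δ : ℝ) : ℕ :=
  sSup {r | ∃ W ≤ V, finrank ℝ W = r ∧ Close A W δ}

theorem nd_bdd (A V : Submodule ℝ E) (δ : ℝ) :
    BddAbove {r | ∃ W ≤ V, finrank ℝ W = r ∧ Close A W δ} :=
  ⟨finrank ℝ E, by rintro r ⟨W, -, rfl, -⟩; exact Submodule.finrank_le W⟩

theorem close_bot (A : Submodule ℝ E) (δ : ℝ) : Close A ⊥ δ := by
  intro w hw
  rw [mem_bot] at hw
  simp [hw]

theorem nd_spec (A V : Submodule ℝ E) (δ : ℝ) :
    ∃ W ≤ V, finrank ℝ W = nd A V δ ∧ Close A W δ := by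
  have h : {r | ∃ W ≤ V, finrank ℝ W = r ∧ Close A W δ}.Nonempty :=
    ⟨0, ⊥, bot_le, finrank_bot ℝ E, close_bot A δ⟩
  exact Nat.sSup_mem h (nd_bdd A V δ)

theorem le_nd {A V W : Submodule ℝ E} {δ : ℝ} (hW : W ≤ V) (h : Close A W δ) :
    finrank ℝ W ≤ nd A V δ :=
  le_csSup (nd_bdd A V δ) ⟨W, hW, rfl, h⟩

theorem close_mono {A W W' : Submodule ℝ E} {δ : ℝ} (h : W' ≤ W) (hW : Close A W δ) :
    Close A W' δ := fun w hw => hW w (h hw)

theorem nd_mono {A V V' : Submodule ℝ E} {δ : ℝ} (h : V ≤ V') : nd A V δ ≤ nd A V' δ := by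
  obtain ⟨W, h1, h2, h3⟩ := nd_spec A V δ
  rw [← h2]
  exact le_nd (h1.trans h) h3

theorem nd_bot (A : Submodule ℝ E) (δ : ℝ) : nd A ⊥ δ = 0 := by
  obtain ⟨W, h1, h2, h3⟩ := nd_spec A ⊥ δ
  rw [← h2, eq_bot_iff.2 h1]
  exact finrank_bot ℝ E

theorem nd_le_finrank {A V : Submodule ℝ E} {δ : ℝ} : nd A V δ ≤ finrank ℝ V := by
  obtain ⟨W, h1, h2, h3⟩ := nd_spec A V δ
  rw [← h2]
  exact Submodule.finrank_mono h1

theorem nd_succ_le (A V : Submodule ℝ E) (x : E) (δ : ℝ) :
    nd A (V ⊔ span ℝ {x}) δ ≤ nd A V δ + 1 := by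
  obtain ⟨W, h1, h2, h3⟩ := nd_spec A (V ⊔ span ℝ {x}) δ
  rw [← h2]
  have h4 : finrank ℝ (W ⊓ V : Submodule ℝ E) ≤ nd A V δ :=
    le_nd inf_le_right (close_mono inf_le_left h3)
  have h5 := Submodule.finrank_sup_add_finrank_inf_eq W V
  have h6 : finrank ℝ (W ⊔ V : Submodule ℝ E) ≤ finrank ℝ (V ⊔ span ℝ {x} : Submodule ℝ E) :=
    Submodule.finrank_mono (sup_le h1 le_sup_left)
  have h7 := Submodule.finrank_add_le_finrank_add_finrank V (span ℝ {x})
  have h8 : finrank ℝ (span ℝ {x}) ≤ 1 := by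
    have := finrank_span_le_card (R := ℝ) ({x} : Set E)
    simpa using this
  omega

theorem nd_top (A : Submodule ℝ E) {δ : ℝ} (h0 : 0 ≤ δ) (hδ : δ < 1) :
    nd A ⊤ δ = finrank ℝ A := by
  apply le_antisymm
  · obtain ⟨W, h1, h2, h3⟩ := nd_spec A ⊤ δ
    rw [← h2]
    have h4 : W ⊓ Aᗮ = ⊥ := by
      rw [eq_bot_iff]
      intro w hw
      obtain ⟨hw1, hw2⟩ := mem_inf.1 hw
      have h5 := h3 w hw1
      rw [(starProjection_eq_self_iff).2 hw2] at h5
      rw [mem_bot]
      by_contra hne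
      have : 0 < ‖w‖ := norm_pos_iff.2 hne
      nlinarith
    have h5 := Submodule.finrank_sup_add_finrank_inf_eq W Aᗮ
    rw [h4, finrank_bot] at h5
    have h6 := Submodule.finrank_le (W ⊔ Aᗮ)
    have h7 := Submodule.finrank_add_finrank_orthogonal A
    omega
  · apply le_nd le_top
    intro w hw
    rw [proj_self_zero A hw, norm_zero]
    positivity

theorem norm_sq_sum {k : ℕ} {f : Fin k → E} (hf : ∀ i j, i ≠ j → inner ℝ (f i) (f j) = 0)
    (y : Fin k → ℝ) (s : Finset (Fin k)) :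
    ‖∑ i ∈ s, y i • f i‖ ^ 2 = ∑ i ∈ s, y i ^ 2 * ‖f i‖ ^ 2 := by
  rw [← real_inner_self_eq_norm_sq, sum_inner]
  refine Finset.sum_congr rfl fun i hi => ?_
  rw [inner_sum, Finset.sum_eq_single i]
  · rw [inner_smul_left, inner_smul_right, real_inner_self_eq_norm_sq]
    simp only [conj_trivial]
    ring
  · intro j _ hj
    rw [inner_smul_left, inner_smul_right, hf i j (Ne.symm hj)]
    simp
  · intro h; exact absurd hi h

/-- the elementary inequality for one direction -/
theorem one_dir {ρ x : ℝ} (hρ : 0 ≤ ρ) (hx0 : 0 ≤ x) (hx1 : x ≤ 1) (M : ℕ) :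
    M * ρ - Real.log (1 - x + Real.exp (2 * (M * ρ)) * x) / 2 ≤
      ρ * (1 + ∑ m ∈ Icc 1 M, if x ≤ Real.exp (-(m * ρ)) ^ 2 then (1 : ℝ) else 0) := by
  have hs1 : 1 ≤ 1 - x + Real.exp (2 * (M * ρ)) * x := by
    have : 1 ≤ Real.exp (2 * (M * ρ)) := Real.one_le_exp (by positivity)
    nlinarith
  have main : ∀ M', M' ≤ M → (x ≤ Real.exp (-(M' * ρ)) ^ 2 ∧
      ∑ m ∈ Icc 1 M', (if x ≤ Real.exp (-(m * ρ)) ^ 2 then (1 : ℝ) else 0) = M') ∨
      M * ρ - Real.log (1 - x + Real.exp (2 * (M * ρ)) * x) / 2 ≤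
      ρ * (1 + ∑ m ∈ Icc 1 M', if x ≤ Real.exp (-(m * ρ)) ^ 2 then (1 : ℝ) else 0) := by
    intro M'
    induction M' with
    | zero => intro _; left; simp [hx1]
    | succ M' ih =>
      intro hM
      rw [Finset.sum_Icc_succ_top (by omega)]
      rcases ih (by omega) with ⟨h1, h2⟩ | h
      · by_cases hc : x ≤ Real.exp (-((M' + 1 : ℕ) * ρ)) ^ 2
        · left
          refine ⟨hc, ?_⟩
          rw [h2, if_pos hc]
          push_cast; ring
        · right
          rw [h2, if_neg hc]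
          push Not at hc
          have h3 : Real.exp (2 * (M * ρ)) * Real.exp (-((M' + 1 : ℕ) * ρ)) ^ 2 ≤
              1 - x + Real.exp (2 * (M * ρ)) * x := by
            have : 0 < Real.exp (2 * (M * ρ)) := Real.exp_pos _
            nlinarith
          have h4 := Real.log_le_log (by positivity) h3
          rw [Real.log_mul (by positivity) (by positivity), Real.log_exp, Real.log_pow,
            Real.log_exp] at h4
          push_cast at h4 ⊢
          linarith
      · right
        refine h.trans (mul_le_mul_of_nonneg_left ?_ hρ)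
        have : (0 : ℝ) ≤ if x ≤ Real.exp (-((M' + 1 : ℕ) * ρ)) ^ 2 then (1 : ℝ) else 0 := by
          split_ifs <;> norm_num
        linarith
  rcases main M le_rfl with ⟨-, h2⟩ | h
  · rw [h2]
    have := Real.log_nonneg hs1
    nlinarith
  · exact h

/-- lower bound for the expansion of the flow on the span of `b 0, …, b (i-1)` -/
theorem D_le (A : Submodule ℝ E) (b : ℕ → E) (i : ℕ) (hpos : ∀ k < i, 0 < rr b k) {ρ : ℝ}
    (hρ : 0 ≤ ρ) (M : ℕ) :
    ∑ k ∈ range i, (M * ρ - (lr (fun l => fl A (M * ρ) (b l)) k - lr b k)) ≤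
      ρ * (i + ∑ m ∈ Icc 1 M, (nd A (Vs b i) (Real.exp (-(m * ρ))) : ℝ)) := by
  obtain ⟨f, hfV, hfo, hfe, hfd⟩ := exists_diag (k := i) A (Vs b i) (finrank_Vs b i hpos)
  let x : Fin i → ℝ := fun k => ‖Aᗮ.starProjection (f k)‖ ^ 2
  have hx0 : ∀ k, 0 ≤ x k := fun k => by positivity
  have hx1 : ∀ k, x k ≤ 1 := by
    intro k
    have h1 : ‖Aᗮ.starProjection (f k)‖ ≤ 1 := by
      rw [← hfo.1 k]; exact norm_starProjection_apply_le _ _
    have h2 := norm_nonneg (Aᗮ.starProjection (f k))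
    simp only [x]
    nlinarith
  have hxA : ∀ k, ‖A.starProjection (f k)‖ ^ 2 = 1 - x k := by
    intro k
    have := norm_sq_eq_add_norm_sq_starProjection (f k) A
    rw [hfo.1 k] at this
    simp only [x]
    linarith
  have hfA : ∀ k l, k ≠ l → inner ℝ (A.starProjection (f k)) (A.starProjection (f l)) = 0 := by
    intro k l hkl
    have h1 : inner ℝ (f k) (f l) = 0 := hfo.2 hkl
    have h2 : inner ℝ (f k) (f l) = inner ℝ (A.starProjection (f k)) (A.starProjection (f l)) +
        inner ℝ (Aᗮ.starProjection (f k)) (Aᗮ.starProjection (f l)) := by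
      conv_lhs => rw [← A.starProjection_add_starProjection_orthogonal (f k),
        ← A.starProjection_add_starProjection_orthogonal (f l)]
      rw [inner_add_left, inner_add_right, inner_add_right,
        (mem_orthogonal _ _).1 (starProjection_apply_mem Aᗮ (f l)) _
          (starProjection_apply_mem A (f k)),
        (mem_orthogonal' _ _).1 (starProjection_apply_mem Aᗮ (f k)) _
          (starProjection_apply_mem A (f l))]
      ring
    rw [h1, hfd k l hkl] at h2
    linarith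
  have hprod := prod_rr_map b i (fl A (M * ρ)) f
    (Matrix.of fun k j : Fin i => inner ℝ (f k) (b j))
    (fun j => hfe (b j) (mem_Vs b j.2)) (gram_eq_one_iff_orthonormal.2 hfo)
    (fun k => 1 - x k + Real.exp (2 * (M * ρ)) * x k) (by
      ext k l
      rw [gram_apply, Matrix.diagonal_apply]
      by_cases hkl : k = l
      · rw [if_pos hkl, ← hkl, real_inner_self_eq_norm_sq, norm_fl_sq, hxA]
      · rw [if_neg hkl, fl_apply, fl_apply, inner_add_left, inner_add_right, inner_add_right,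
          inner_smul_left, inner_smul_right, inner_smul_left, inner_smul_right,
          hfA k l hkl, hfd k l hkl,
          (mem_orthogonal _ _).1 (starProjection_apply_mem Aᗮ (f l)) _
            (starProjection_apply_mem A (f k)),
          (mem_orthogonal' _ _).1 (starProjection_apply_mem Aᗮ (f k)) _
            (starProjection_apply_mem A (f l))]
        simp)
  have hpos' := rr_fl_pos A (M * ρ) b hpos
  have hs : ∀ k : Fin i, 1 ≤ 1 - x k + Real.exp (2 * (M * ρ)) * x k := by
    intro k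
    have h1 : 1 ≤ Real.exp (2 * (M * ρ)) := Real.one_le_exp (by positivity)
    nlinarith [hx0 k]
  have hsum : ∑ k ∈ range i, (lr (fun l => fl A (M * ρ) (b l)) k - lr b k) =
      ∑ k : Fin i, Real.log (1 - x k + Real.exp (2 * (M * ρ)) * x k) / 2 := by
    have h1 := congrArg Real.log hprod
    rw [Finset.prod_pow, Finset.prod_pow, Real.log_mul, Real.log_pow, Real.log_pow,
      Real.log_prod, Real.log_prod, Real.log_prod] at h1
    · rw [Finset.sum_sub_distrib, ← Finset.sum_div]
      unfold lr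
      push_cast at h1
      linarith
    · intro k _
      exact (lt_of_lt_of_le one_pos (hs k)).ne'
    · intro k hk
      exact (hpos k (Finset.mem_range.1 hk)).ne'
    · intro k hk
      exact (hpos' k (Finset.mem_range.1 hk)).ne'
    · exact pow_ne_zero _ (Finset.prod_pos fun k hk => hpos k (Finset.mem_range.1 hk)).ne'
    · exact (Finset.prod_pos fun k _ => lt_of_lt_of_le one_pos (hs k)).ne'
  rw [Finset.sum_sub_distrib, hsum, Finset.sum_const, Finset.card_range, nsmul_eq_mul]
  have e1 : (i : ℝ) * (M * ρ) - ∑ k : Fin i, Real.log (1 - x k + Real.exp (2 * (M * ρ)) * x k) / 2 =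
      ∑ k : Fin i, (M * ρ - Real.log (1 - x k + Real.exp (2 * (M * ρ)) * x k) / 2) := by
    rw [Finset.sum_sub_distrib, Finset.sum_const, Finset.card_univ, Fintype.card_fin, nsmul_eq_mul]
  rw [e1]
  refine (Finset.sum_le_sum fun k _ => one_dir hρ (hx0 k) (hx1 k) M).trans ?_
  rw [← Finset.mul_sum]
  refine mul_le_mul_of_nonneg_left ?_ hρ
  rw [Finset.sum_add_distrib, Finset.sum_const, Finset.card_univ, Fintype.card_fin, nsmul_eq_mul,
    mul_one, Finset.sum_comm]
  refine add_le_add le_rfl (Finset.sum_le_sum fun m _ => ?_)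
  set δ := Real.exp (-(m * ρ)) with hδ
  have hδ0 : 0 < δ := Real.exp_pos _
  rw [← Finset.sum_filter, Finset.sum_const, nsmul_eq_mul, mul_one]
  have hcard : (Finset.univ.filter fun k : Fin i => x k ≤ δ ^ 2).card =
      finrank ℝ (span ℝ (Set.range fun k : {k : Fin i // x k ≤ δ ^ 2} => f k)) := by
    rw [finrank_span_eq_card]
    · rw [Fintype.card_subtype]
    · exact hfo.linearIndependent.comp _ Subtype.val_injective
  rw [hcard]
  norm_cast
  apply le_nd
  · rw [span_le]
    rintro _ ⟨k, rfl⟩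
    exact hfV k
  · intro w hw
    have hw' : ∃ y : Fin i → ℝ, w = ∑ k ∈ Finset.univ.filter (fun k : Fin i => x k ≤ δ ^ 2),
        y k • f k := by
      rw [mem_span_range_iff_exists_fun] at hw
      obtain ⟨c, hc⟩ := hw
      refine ⟨fun k => if h : x k ≤ δ ^ 2 then c ⟨k, h⟩ else 0, ?_⟩
      rw [← hc, ← Finset.sum_subtype_eq_sum_filter]
      rw [Finset.subtype_univ]
      refine Finset.sum_congr rfl fun k _ => ?_
      simp only [dif_pos k.2]
    obtain ⟨y, rfl⟩ := hw'
    refine (pow_le_pow_iff_left₀ (norm_nonneg _) (by positivity) two_ne_zero).1 ?_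
    rw [map_sum, mul_pow, norm_sq_sum (fun k l h => hfo.2 h)]
    simp_rw [map_smul]
    rw [norm_sq_sum hfd, Finset.mul_sum]
    refine Finset.sum_le_sum fun k hk => ?_
    have h1 : x k ≤ δ ^ 2 := (Finset.mem_filter.1 hk).2
    rw [hfo.1 k]
    have h2 : ‖Aᗮ.starProjection (f k)‖ ^ 2 ≤ δ ^ 2 := h1
    nlinarith [sq_nonneg (y k)]

end Run7.h406
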