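import Mathlib

/-!
Schmidt's exponents of approximation of a subspace by rational subspaces: definitions.
-/

set_option autoImplicit false

namespace Run7.h406

open Module MeasureTheory
open scoped ENNReal

/-- `ℝ^n` with its Euclidean norm. -/
abbrev EE (n : ℕ) := EuclideanSpace ℝ (Fin n)

/-- The lattice `ℤ^n` in `ℝ^n`. -/
def ZL (n : ℕ) : Submodule ℤ (EE n) where
  carrier := {x | ∀ i, ∃ m : ℤ, x i = (m : ℝ)}
  zero_mem' := fun _ => ⟨0, by simp⟩
  add_mem' := by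
    intro x y hx hy i
    obtain ⟨a, ha⟩ := hx i
    obtain ⟨b, hb⟩ := hy i
    exact ⟨a + b, by simp [ha, hb]⟩
  smul_mem' := by
    intro c x hx i
    obtain ⟨a, ha⟩ := hx i
    exact ⟨c * a, by simp [ha]⟩

/-- A subspace is rational if it is spanned by vectors with rational coordinates. -/
def IsRat {n : ℕ} (B : Submodule ℝ (EE n)) : Prop :=
  ∃ s : Set (EE n), (∀ x ∈ s, ∀ i, ∃ q : ℚ, x i = (q : ℝ)) ∧ Submodule.span ℝ s = B

/-- The set of rational subspaces of `ℝ^n` of dimension `e`. -/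
def Rn (n e : ℕ) : Set (Submodule ℝ (EE n)) := {B | IsRat B ∧ finrank ℝ B = e}

/-- The lattice `B ∩ ℤ^n`, as a subgroup of `B`. -/
def latt {n : ℕ} (B : Submodule ℝ (EE n)) : Submodule ℤ B :=
  (ZL n).comap (B.subtype.restrictScalars ℤ)

/-- The height of `B`: the covolume of `B ∩ ℤ^n` in `B`, for the Lebesgue measure of the
Euclidean space `B` (the cube on an orthonormal basis of `B` has measure one). -/
noncomputable def height {n : ℕ} (B : Submodule ℝ (EE n)) : ℝ :=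
  ZLattice.covolume (latt B) ((stdOrthonormalBasis ℝ B).toBasis.addHaar)

/-- The sine of the angle between two vectors. -/
noncomputable def sn {n : ℕ} (x y : EE n) : ℝ := Real.sin (InnerProductGeometry.angle x y)

/-- Successive minimisation: for every `i < j` the pair of unit vectors `X i ∈ A`, `Y i ∈ B`
minimises the sine of the angle among all nonzero `x ∈ A` orthogonal to `X 0, …, X (i-1)` and
nonzero `y ∈ B` orthogonal to `Y 0, …, Y (i-1)`. -/
structure Chain {n : ℕ} (A B : Submodule ℝ (EE n)) (j : ℕ) (X Y : ℕ → EE n) : Prop where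
  memX : ∀ i < j, X i ∈ A ∧ ‖X i‖ = 1 ∧ ∀ k < i, inner ℝ (X k) (X i) = 0
  memY : ∀ i < j, Y i ∈ B ∧ ‖Y i‖ = 1 ∧ ∀ k < i, inner ℝ (Y k) (Y i) = 0
  min : ∀ i < j, ∀ x ∈ A, x ≠ 0 → (∀ k < i, inner ℝ (X k) x = 0) →
    ∀ y ∈ B, y ≠ 0 → (∀ k < i, inner ℝ (Y k) y = 0) → sn (X i) (Y i) ≤ sn x y

/-- `ψ_j(A,B)`, `1 ≤ j ≤ min (dim A) (dim B)`: the minimum reached at the `j`-th step of the
successive minimisation (it does not depend on the choices). -/
noncomputable def psi {n : ℕ} (A B : Submodule ℝ (EE n)) (j : ℕ) : ℝ :=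
  sInf {s | ∃ X Y : ℕ → EE n, Chain A B j X Y ∧ s = sn (X (j - 1)) (Y (j - 1))}

/-- `𝔍_n(d,e)_j`: the `d`-dimensional `A` with `dim (A ∩ B) < j` for all `B ∈ 𝔯_n(e)`. -/
def Jn (n d e j : ℕ) : Set (Submodule ℝ (EE n)) :=
  {A | finrank ℝ A = d ∧ ∀ B ∈ Rn n e, finrank ℝ (A ⊓ B : Submodule ℝ (EE n)) < j}

/-- `μ_n(A|e)_j ∈ [0,∞]`. -/
noncomputable def muA {n : ℕ} (A : Submodule ℝ (EE n)) (e j : ℕ) : ℝ≥0∞ :=
  ⨆ β ∈ {β : ℝ | 0 < β ∧ {B | B ∈ Rn n e ∧ psi A B j ≤ height B ^ (-β)}.Infinite},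
    ENNReal.ofReal β

/-- `μ_n(d|e)_j`. -/
noncomputable def mu (n d e j : ℕ) : ℝ≥0∞ := ⨅ A ∈ Jn n d e j, muA A e j

end Run7.h406
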