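import Pool.Agent.Run7.h406.Equiv

/-!
Duality: orthogonal complements.
-/

set_option autoImplicit false
set_option linter.unusedSectionVars false

namespace Run7.h406

open Module Submodule Finset Matrix MeasureTheory
open scoped ENNReal

variable {n : ℕ}

theorem Chain.le' {A B : Submodule ℝ (EE n)} {j : ℕ} {X Y : ℕ → EE n} (h : Chain A B j X Y)
    (hj : 1 ≤ j) {W : Submodule ℝ (EE n)} (hW : W ≤ B) (hWj : j ≤ finrank ℝ W) {t : ℝ}
    (ht : Close A W t) : sn (X (j - 1)) (Y (j - 1)) ≤ t := by
  obtain ⟨b⟩ : Nonempty (Basis (Fin (finrank ℝ W)) ℝ W) := ⟨finBasis ℝ W⟩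
  let c : ℕ → EE n := fun k => if hk : k < finrank ℝ W then (b ⟨k, hk⟩ : EE n) else 0
  have hc : (fun i : Fin (finrank ℝ W) => c i) = fun i => (b i : EE n) := by
    funext i; simp [c]
  have hli : LinearIndependent ℝ (fun i : Fin (finrank ℝ W) => c i) := by
    rw [hc]
    exact b.linearIndependent.map' W.subtype (Submodule.ker_subtype W)
  have hp := (rr_pos_iff c _).2 hli
  refine h.le hj (W := Vs c j) ?_ (finrank_Vs c j (fun k hk => hp k (by omega))) ?_
  · refine le_trans ?_ hW
    rw [Vs, span_le]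
    rintro _ ⟨k, hk, rfl⟩
    have hk' : k < finrank ℝ W := lt_of_lt_of_le hk hWj
    simp only [c, dif_pos hk']
    exact (b ⟨k, hk'⟩).2
  · refine close_mono ?_ ht
    rw [Vs, span_le]
    rintro _ ⟨k, hk, rfl⟩
    have hk' : k < finrank ℝ W := lt_of_lt_of_le hk hWj
    simp only [c, dif_pos hk']
    exact (b ⟨k, hk'⟩).2

theorem psi_le_of_close' {A B C : Submodule ℝ (EE n)} {j : ℕ} (hj : 1 ≤ j)
    (hjA : j ≤ finrank ℝ A) (hC : C ≤ B) (hCj : j ≤ finrank ℝ C) {t : ℝ} (ht : Close A C t) :
    psi A B j ≤ t := by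
  have hjB : j ≤ finrank ℝ B := hCj.trans (Submodule.finrank_mono hC)
  obtain ⟨X, Y, h⟩ := exists_chain (A := A) (B := B) j hjA hjB
  rw [psi_eq hj h]
  exact h.le' hj hC hCj ht

theorem chain_symm {A B : Submodule ℝ (EE n)} {j : ℕ} {X Y : ℕ → EE n} (h : Chain A B j X Y) :
    Chain B A j Y X := h.symm

theorem psi_symm {A B : Submodule ℝ (EE n)} {j : ℕ} (hj : 1 ≤ j)
    (hjA : j ≤ finrank ℝ A) (hjB : j ≤ finrank ℝ B) : psi A B j = psi B A j := by
  obtain ⟨X, Y, h⟩ := exists_chain (A := A) (B := B) j hjA hjB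
  rw [psi_eq hj h, psi_eq hj h.symm, sn_comm]

/-- duality for the angles -/
theorem psi_orth_le {A B : Submodule ℝ (EE n)} {j : ℕ} (hj : 1 ≤ j)
    (hjA : j ≤ finrank ℝ A) (hjB : j ≤ finrank ℝ B) (h : finrank ℝ A + finrank ℝ B = n) :
    psi Aᗮ Bᗮ j ≤ psi A B j := by
  obtain ⟨V, hV1, hV2, hV3⟩ := close_of_psi (A := B) (B := A) hj hjB hjA
  rw [psi_symm hj hjB hjA] at hV3
  have ht0 := psi_nonneg (A := A) (B := B) hj hjA hjB
  set t := psi A B j with ht
  have hnA := Submodule.finrank_add_finrank_orthogonal A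
  have hnB := Submodule.finrank_add_finrank_orthogonal B
  have hn : finrank ℝ (EE n) = n := by simp
  rw [hn] at hnA hnB
  set B1 : Submodule ℝ (EE n) := B ⊓ Vᗮ with hB1
  set V' : Submodule ℝ (EE n) := Aᗮ ⊓ B1ᗮ with hV'
  have hB1f : finrank ℝ B1 + j = finrank ℝ B := by
    have := Submodule.finrank_add_inf_finrank_orthogonal hV1
    rw [inf_comm] at this
    rw [← this, hV2, add_comm]
  have hV'f : j ≤ finrank ℝ V' := by
    have h1 := Submodule.finrank_sup_add_finrank_inf_eq Aᗮ B1ᗮ
    have h2 := Submodule.finrank_le (Aᗮ ⊔ B1ᗮ)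
    have h3 := Submodule.finrank_add_finrank_orthogonal B1
    rw [hn] at h2 h3
    have h4 : finrank ℝ V' = finrank ℝ (Aᗮ ⊓ B1ᗮ : Submodule ℝ (EE n)) := rfl
    omega
  have hclose : Close Bᗮ V' t := by
    intro v hv
    obtain ⟨hvA, hvB⟩ := mem_inf.1 hv
    have h1 : Bᗮᗮ.starProjection v = V.starProjection v := by
      refine eq_starProjection_of_mem_orthogonal ?_ ?_
      · rw [orthogonal_orthogonal]
        exact hV1 (starProjection_apply_mem _ _)
      · rw [orthogonal_orthogonal, mem_orthogonal]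
        intro u hu
        -- `v - P_V v` is orthogonal to `B = V ⊕ B1`
        have hu1 : V.starProjection u ∈ V := starProjection_apply_mem _ _
        have hu2 : Vᗮ.starProjection u ∈ B1 := by
          refine mem_inf.2 ⟨?_, starProjection_apply_mem _ _⟩
          rw [starProjection_orthogonal_val]
          exact sub_mem hu (hV1 hu1)
        rw [← V.starProjection_add_starProjection_orthogonal u, inner_add_left]
        have e1 : inner ℝ (V.starProjection u) (v - V.starProjection v) = 0 := by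
          rw [real_inner_comm]
          exact starProjection_inner_eq_zero _ _ hu1
        have e2 : inner ℝ (Vᗮ.starProjection u) (v - V.starProjection v) = 0 := by
          rw [inner_sub_right, (mem_orthogonal _ _).1 hvB _ hu2,
            (mem_orthogonal' _ _).1 (mem_inf.1 hu2).2 _ (starProjection_apply_mem V v), sub_zero]
        rw [e1, e2, add_zero]
    rw [h1]
    set p := V.starProjection v with hp
    have hpV : p ∈ V := starProjection_apply_mem _ _
    have h2 : ‖p‖ ^ 2 ≤ t * ‖p‖ * ‖v‖ := by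
      have h3 : ‖p‖ ^ 2 = inner ℝ (Aᗮ.starProjection p) v := by
        rw [inner_starProjection_left_eq_right, (starProjection_eq_self_iff).2 hvA,
          ← real_inner_self_eq_norm_sq]
        conv_lhs => rw [hp, inner_starProjection_left_eq_right,
          ← hp, (starProjection_eq_self_iff).2 hpV]
        rw [real_inner_comm]
      rw [h3]
      refine (real_inner_le_norm _ _).trans ?_
      exact mul_le_mul_of_nonneg_right (hV3 p hpV) (norm_nonneg _)
    by_cases hp0 : ‖p‖ = 0
    · rw [hp0]; positivity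
    · have hp1 : 0 < ‖p‖ := lt_of_le_of_ne (norm_nonneg _) (Ne.symm hp0)
      refine le_of_mul_le_mul_left ?_ hp1
      nlinarith
  rw [psi_symm hj (by omega) (by omega)]
  exact psi_le_of_close' hj (by omega) inf_le_left hV'f hclose

theorem psi_orth {A B : Submodule ℝ (EE n)} {j : ℕ} (hj : 1 ≤ j)
    (hjA : j ≤ finrank ℝ A) (hjB : j ≤ finrank ℝ B) (h : finrank ℝ A + finrank ℝ B = n) :
    psi Aᗮ Bᗮ j = psi A B j := by
  refine le_antisymm (psi_orth_le hj hjA hjB h) ?_
  have hnA := Submodule.finrank_add_finrank_orthogonal A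
  have hnB := Submodule.finrank_add_finrank_orthogonal B
  have hn : finrank ℝ (EE n) = n := by simp
  rw [hn] at hnA hnB
  have := psi_orth_le (A := Aᗮ) (B := Bᗮ) hj (by omega) (by omega) (by omega)
  rwa [orthogonal_orthogonal, orthogonal_orthogonal] at this

end Run7.h406
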