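import Pool.Agent.Run7.h406.Dual

/-!
The height of the orthogonal complement.
-/

set_option autoImplicit false
set_option linter.unusedSectionVars false

namespace Run7.h406

open Module Submodule Finset Matrix MeasureTheory
open scoped ENNReal

variable {n : ℕ}

/-- dual vectors of a basis -/
theorem exists_dual {z : ℕ → EE n} (hz : IsZB (⊤ : Submodule ℝ (EE n)) n z) :
    ∃ w : ℕ → EE n, (∀ i < n, ∀ k < n, inner ℝ (w i) (z k) = if i = k then 1 else 0) ∧
      ∀ i < n, w i ∈ ZL n := by
  have hli : LinearIndependent ℝ (fun i : Fin n => z i) := (rr_pos_iff z n).1 hz.pos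
  have hsp : ⊤ ≤ span ℝ (Set.range fun i : Fin n => z i) := by
    rw [← Vs_eq_span_range, hz.span]
  let b : Basis (Fin n) ℝ (EE n) := Basis.mk hli hsp
  have hb : ∀ i, b i = z i := fun i => Basis.mk_apply _ _ _
  let w : ℕ → EE n := fun i => if h : i < n then
    (InnerProductSpace.toDual ℝ (EE n)).symm (LinearMap.toContinuousLinearMap (b.coord ⟨i, h⟩))
    else 0
  have hw : ∀ i (h : i < n) (x : EE n), inner ℝ (w i) x = b.coord ⟨i, h⟩ x := by
    intro i h x
    simp only [w, dif_pos h]
    rw [InnerProductSpace.toDual_symm_apply]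
    rfl
  have hwz : ∀ i < n, ∀ k < n, inner ℝ (w i) (z k) = if i = k then 1 else 0 := by
    intro i hi k hk
    rw [hw i hi, ← hb ⟨k, hk⟩, Basis.coord_apply, Basis.repr_self, Finsupp.single_apply]
    simp only [Fin.mk.injEq]
    by_cases h : i = k
    · rw [if_pos h, if_pos h.symm]
    · rw [if_neg h, if_neg (Ne.symm h)]
  refine ⟨w, hwz, ?_⟩
  intro i hi k
  obtain ⟨c, hc⟩ := hz.gen (stdb n k) (isZB_stdb.int k k.2) mem_top
  refine ⟨c i, ?_⟩
  have h1 : inner ℝ (w i) (stdb n k) = w i k := by
    rw [stdb_of_lt k.2]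
    simp [EuclideanSpace.inner_single_right]
  rw [← h1, hc, inner_sum, Finset.sum_eq_single i]
  · rw [← Int.cast_smul_eq_zsmul ℝ, inner_smul_right, hwz i hi i hi, if_pos rfl, mul_one]
  · intro l hl hne
    rw [← Int.cast_smul_eq_zsmul ℝ, inner_smul_right, hwz i hi l (Finset.mem_range.1 hl),
      if_neg (Ne.symm hne), mul_zero]
  · intro h; exact absurd (Finset.mem_range.2 hi) h

theorem eq_zero_of_inner {z : ℕ → EE n} (hz : Vs z n = ⊤) {x : EE n}
    (h : ∀ k < n, inner ℝ x (z k) = 0) : x = 0 := by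
  have h1 : x ∈ (Vs z n)ᗮ := by
    rw [mem_Vs_orth]
    intro k hk
    rw [real_inner_comm]; exact h k hk
  rw [hz, top_orthogonal_eq_bot, mem_bot] at h1
  exact h1

/-- the reversed dual basis has inverse Gram-Schmidt norms -/
theorem rr_dual {z w : ℕ → EE n} (hz : IsZB (⊤ : Submodule ℝ (EE n)) n z)
    (hw : ∀ i < n, ∀ k < n, inner ℝ (w i) (z k) = if i = k then 1 else 0) {k : ℕ} (hk : k < n) :
    rr (fun i => w (n - 1 - i)) k = (rr z (n - 1 - k))⁻¹ := by
  set w' : ℕ → EE n := fun i => w (n - 1 - i) with hw'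
  have hspan : ∀ k ≤ n, Vs w' k = (Vs z (n - k))ᗮ := by
    intro k hk
    -- linear independence of the dual vectors gives the dimension
    have hli : LinearIndependent ℝ (fun i : Fin k => w' i) := by
      rw [Fintype.linearIndependent_iff]
      intro g hg i
      have h1 := congrArg (fun x => inner ℝ x (z (n - 1 - i))) hg
      simp only [inner_zero_left] at h1
      rw [sum_inner, Finset.sum_eq_single i] at h1
      · have hi := i.2
        rw [inner_smul_left, hw _ (by omega) _ (by omega), if_pos rfl] at h1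
        simpa using h1
      · intro l _ hne
        have hi := i.2
        have hl := l.2
        have hne' : (l : ℕ) ≠ i := fun h => hne (Fin.ext h)
        rw [inner_smul_left, hw _ (by omega) _ (by omega), if_neg (by omega), mul_zero]
      · intro h; exact absurd (Finset.mem_univ i) h
    have hle : Vs w' k ≤ (Vs z (n - k))ᗮ := by
      rw [Vs, span_le]
      rintro _ ⟨i, hi, rfl⟩
      have hi' : i < k := hi
      change w' i ∈ (Vs z (n - k))ᗮ
      rw [mem_Vs_orth]
      intro l hl
      rw [real_inner_comm]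
      simp only [hw']
      rw [hw _ (by omega) _ (by omega), if_neg (by omega)]
    refine Submodule.eq_of_le_of_finrank_eq hle ?_
    have h1 := Submodule.finrank_add_finrank_orthogonal (Vs z (n - k))
    rw [finrank_Vs z (n - k) (fun i hi => hz.pos i (by omega))] at h1
    have h2 : finrank ℝ (EE n) = n := by simp
    rw [h2] at h1
    rw [Vs_eq_span_range, finrank_span_eq_card hli, Fintype.card_fin]
    omega
  have hi : n - 1 - k < n := by omega
  set i := n - 1 - k with hidef
  have hki : n - k = i + 1 := by omega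
  have hr := hz.pos i hi
  have hgs : gs w' k = (rr z i ^ 2)⁻¹ • gs z i := by
    have h1 : gs w' k = (Vs w' k)ᗮ.starProjection (w i) := rfl
    rw [h1, proj_congr (hspan k hk.le)]
    refine eq_starProjection_of_mem_orthogonal ?_ ?_
    · rw [orthogonal_orthogonal, hki]
      exact smul_mem _ _ (gs_mem_succ z i)
    · rw [orthogonal_orthogonal, hki, mem_Vs_orth]
      intro l hl
      rw [inner_sub_right, inner_smul_right]
      rw [real_inner_comm (w i) (z l), hw i hi l (by omega)]
      rcases Nat.lt_succ_iff_lt_or_eq.1 hl with h | h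
      · rw [if_neg (by omega), inner_gs_Vs z (mem_Vs z h)]; simp
      · rw [h, if_pos rfl]
        have h2 : inner ℝ (z i) (gs z i) = rr z i ^ 2 := by
          have h3 : z i = (z i - gs z i) + gs z i := by abel
          conv_lhs => rw [h3]
          rw [inner_add_left, inner_gs_Vs z (sub_gs_mem z i), zero_add, real_inner_self_eq_norm_sq]
          rfl
        rw [h2]
        field_simp
        ring
  have h2 : rr w' k = ‖gs w' k‖ := rfl
  rw [h2, hgs, norm_smul, norm_inv, norm_pow, Real.norm_eq_abs, abs_of_pos hr]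
  change (rr z i ^ 2)⁻¹ * rr z i = (rr z i)⁻¹
  field_simp

theorem orth_mem_Rn {B : Submodule ℝ (EE n)} {e : ℕ} (hB : B ∈ Rn n e) :
    Bᗮ ∈ Rn n (n - e) ∧ height Bᗮ = height B := by
  obtain ⟨z, hzB, hz⟩ := exists_adapted hB
  obtain ⟨w, hw, hwint⟩ := exists_dual hz
  have hen : e ≤ n := by
    rw [← hB.2]
    simpa using Submodule.finrank_le B
  set w' : ℕ → EE n := fun i => w (n - 1 - i) with hw'
  have hrr : ∀ k < n, rr w' k = (rr z (n - 1 - k))⁻¹ := fun k hk => rr_dual hz hw hk
  have hpos : ∀ k < n, 0 < rr w' k := by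
    intro k hk
    rw [hrr k hk]
    exact inv_pos.2 (hz.pos _ (by omega))
  have hint : ∀ k < n, w' k ∈ ZL n := fun k hk => hwint _ (by omega)
  have hperp : ∀ k < n - e, w' k ∈ Bᗮ := by
    intro k hk
    rw [← hzB.span, mem_Vs_orth]
    intro l hl
    rw [real_inner_comm]
    simp only [hw']
    rw [hw _ (by omega) _ (by omega), if_neg (by omega)]
  have hdim : finrank ℝ (Bᗮ : Submodule ℝ (EE n)) = n - e := by
    have h1 := Submodule.finrank_add_finrank_orthogonal B
    have h2 : finrank ℝ (EE n) = n := by simp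
    rw [h2, hB.2] at h1
    omega
  have hspan : Vs w' (n - e) = Bᗮ := by
    refine Submodule.eq_of_le_of_finrank_eq ?_ ?_
    · rw [Vs, span_le]
      rintro _ ⟨k, hk, rfl⟩
      exact hperp k hk
    · rw [finrank_Vs w' _ (fun k hk => hpos k (by omega)), hdim]
  have hZB : IsZB Bᗮ (n - e) w' := by
    refine ⟨fun k hk => hint k (by omega), hspan, fun k hk => hpos k (by omega), ?_⟩
    intro x hx hxB
    have hex : ∀ k, ∃ m : ℤ, k < n → inner ℝ x (z k) = (m : ℝ) := by
      intro k
      by_cases hk : k < n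
      · obtain ⟨m, hm⟩ := inner_int hx (hz.int k hk)
        exact ⟨m, fun _ => hm⟩
      · exact ⟨0, fun h => absurd h hk⟩
    choose m hm using hex
    refine ⟨fun k => m (n - 1 - k), ?_⟩
    rw [← sub_eq_zero]
    refine eq_zero_of_inner hz.span fun l hl => ?_
    rw [inner_sub_left, sum_inner, hm l hl]
    rcases Nat.lt_or_ge l e with hle | hle
    · have h0 : inner ℝ x (z l) = 0 :=
        (mem_orthogonal' _ _).1 hxB _ (by rw [← hzB.span]; exact mem_Vs z hle)
      rw [hm l hl] at h0
      rw [h0, Finset.sum_eq_zero, sub_zero]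
      intro k hk
      have := Finset.mem_range.1 hk
      rw [← Int.cast_smul_eq_zsmul ℝ, inner_smul_left]
      simp only [hw']
      rw [hw _ (by omega) _ (by omega), if_neg (by omega), mul_zero]
    · rw [Finset.sum_eq_single (n - 1 - l)]
      · rw [← Int.cast_smul_eq_zsmul ℝ, inner_smul_left]
        simp only [hw']
        rw [hw _ (by omega) _ (by omega), if_pos (by omega)]
        have : n - 1 - (n - 1 - l) = l := by omega
        rw [this]
        simp
      · intro k hk hne
        have := Finset.mem_range.1 hk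
        rw [← Int.cast_smul_eq_zsmul ℝ, inner_smul_left]
        simp only [hw']
        rw [hw _ (by omega) _ (by omega), if_neg (by omega), mul_zero]
      · intro h
        exact absurd (Finset.mem_range.2 (by omega)) h
  refine ⟨?_, ?_⟩
  · rw [← hspan]
    exact Vs_mem_Rn (fun k hk => hint k (by omega)) (fun k hk => hpos k (by omega))
  · rw [height_eq hZB, height_eq hzB]
    have h1 : ∏ k ∈ range (n - e), rr w' k = ∏ i ∈ Ico e n, (rr z i)⁻¹ := by
      rw [Finset.prod_Ico_eq_prod_range, ← Finset.prod_range_reflect]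
      refine Finset.prod_congr rfl fun k hk => ?_
      have := Finset.mem_range.1 hk
      rw [hrr _ (by omega)]
      congr 2
      omega
    rw [h1, Finset.prod_inv_distrib]
    have h2 := prod_rr_top hz
    rw [← Finset.prod_range_mul_prod_Ico _ hen] at h2
    have h3 : ∏ i ∈ Ico e n, rr z i ≠ 0 := by
      intro h0; rw [h0, mul_zero] at h2; exact zero_ne_one h2
    field_simp
    linarith

/-- complementary dimensions: the exponents agree -/
theorem muA_orth {A : Submodule ℝ (EE n)} {d e j : ℕ} (hj : 1 ≤ j) (hjd : j ≤ d) (hje : j ≤ e)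
    (hde : d + e = n) (hA : finrank ℝ A = d) : muA Aᗮ d j = muA A e j := by
  have hkey : ∀ {A : Submodule ℝ (EE n)} {d e : ℕ}, j ≤ d → j ≤ e → d + e = n →
      finrank ℝ A = d → ∀ β : ℝ,
      {B | B ∈ Rn n e ∧ psi A B j ≤ height B ^ (-β)}.Infinite →
      {B | B ∈ Rn n d ∧ psi Aᗮ B j ≤ height B ^ (-β)}.Infinite := by
    intro A d e hjd hje hde hA β hinf
    have hinj : Function.Injective (fun B : Submodule ℝ (EE n) => Bᗮ) := by
      intro B B' h
      have h' : Bᗮ = B'ᗮ := h
      rw [← orthogonal_orthogonal B, h', orthogonal_orthogonal]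
    refine (hinf.image hinj.injOn).mono ?_
    rintro _ ⟨B, ⟨hB1, hB2⟩, rfl⟩
    obtain ⟨h1, h2⟩ := orth_mem_Rn hB1
    have hd : n - e = d := by omega
    rw [hd] at h1
    refine ⟨h1, ?_⟩
    change psi Aᗮ Bᗮ j ≤ height Bᗮ ^ (-β)
    rw [h2, psi_orth hj (by omega) (by rw [hB1.2]; omega) (by rw [hA, hB1.2]; exact hde)]
    exact hB2
  have hn : finrank ℝ (EE n) = n := by simp
  have hAo : finrank ℝ (Aᗮ : Submodule ℝ (EE n)) = e := by
    have h1 := Submodule.finrank_add_finrank_orthogonal A
    rw [hn, hA] at h1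
    omega
  have hiff : ∀ β : ℝ, {B | B ∈ Rn n e ∧ psi A B j ≤ height B ^ (-β)}.Infinite ↔
      {B | B ∈ Rn n d ∧ psi Aᗮ B j ≤ height B ^ (-β)}.Infinite := by
    intro β
    constructor
    · exact hkey hjd hje hde hA β
    · intro h
      have := hkey (A := Aᗮ) (d := e) (e := d) hje hjd (by omega) hAo β h
      rwa [orthogonal_orthogonal] at this
  unfold muA
  simp_rw [← hiff]

theorem Jn_orth {A : Submodule ℝ (EE n)} {d e j : ℕ} (hde : d + e = n) (hA : A ∈ Jn n d e j) :
    Aᗮ ∈ Jn n e d j := by
  obtain ⟨h1, h2⟩ := hA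
  have hn : finrank ℝ (EE n) = n := by simp
  refine ⟨?_, ?_⟩
  · have h3 := Submodule.finrank_add_finrank_orthogonal A
    rw [hn, h1] at h3
    omega
  · intro B hB
    obtain ⟨h3, -⟩ := orth_mem_Rn hB
    have hd : n - d = e := by omega
    rw [hd] at h3
    have h4 := h2 _ h3
    have h5 : (Aᗮ ⊓ B : Submodule ℝ (EE n)) = (A ⊔ Bᗮ)ᗮ := by
      rw [← inf_orthogonal, orthogonal_orthogonal]
    have h6 := Submodule.finrank_add_finrank_orthogonal (A ⊔ Bᗮ)
    have h7 := Submodule.finrank_sup_add_finrank_inf_eq A Bᗮ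
    rw [hn] at h6
    rw [h1, h3.2] at h7
    rw [h5]
    omega

theorem mu_orth {d e j : ℕ} (hj : 1 ≤ j) (hjd : j ≤ d) (hje : j ≤ e) (hde : d + e = n) :
    mu n d e j = mu n e d j := by
  have hkey : ∀ {d e : ℕ}, j ≤ d → j ≤ e → d + e = n → mu n d e j ≤ mu n e d j := by
    intro d e hjd hje hde
    unfold mu
    refine le_iInf₂ fun A hA => ?_
    refine iInf₂_le_of_le Aᗮ (Jn_orth (by omega) hA) ?_
    exact (muA_orth hj hje hjd (by omega) hA.1).le
  exact le_antisymm (hkey hjd hje hde) (hkey hje hjd (by omega))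

end Run7.h406
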