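import Mathlib

/-!
Schmidt's exponents of approximation of a subspace by rational subspaces: the definitions used in
the statements.
-/

set_option autoImplicit false

namespace Run7.h406.Stmt

open scoped ENNReal

/-- `ℝ^n` with its Euclidean norm. -/
abbrev Sp (n : ℕ) := EuclideanSpace ℝ (Fin n)

/-- The linear subspaces of `ℝ^n`. -/
abbrev Sub (n : ℕ) := Submodule ℝ (Sp n)

/-- The dimension of a subspace. -/
noncomputable def dim {n : ℕ} (A : Sub n) : ℕ := Module.finrank ℝ A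

/-- `x ∈ ℤ^n`. -/
def IsInt {n : ℕ} (x : Sp n) : Prop := ∀ i, ∃ m : ℤ, x i = m

/-- `B` is rational: it is spanned by vectors with rational coordinates. -/
def IsRat {n : ℕ} (B : Sub n) : Prop :=
  ∃ s : Set (Sp n), (∀ x ∈ s, ∀ i, ∃ q : ℚ, x i = q) ∧ Submodule.span ℝ s = B

/-- `𝔯_n(e)`, the set of rational subspaces of dimension `e`. -/
def Rn (n e : ℕ) : Set (Sub n) := {B | IsRat B ∧ dim B = e}

/-- `b` is a basis of the lattice `B ∩ ℤ^n`: its vectors are linearly independent and the vectors of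
`B ∩ ℤ^n` are exactly their integral combinations. -/
def IsLatticeBasis {n e : ℕ} (B : Sub n) (b : Fin e → Sp n) : Prop :=
  LinearIndependent ℝ b ∧ ∀ x : Sp n, (x ∈ B ∧ IsInt x) ↔ ∃ c : Fin e → ℤ, x = ∑ k, c k • b k

/-- `H(B)`: the covolume of the lattice `B ∩ ℤ^n`, that is the square root of the Gram determinant
of a basis of this lattice (the value does not depend on the basis). -/
noncomputable def height {n : ℕ} (B : Sub n) : ℝ :=
  sInf {h | ∃ (e : ℕ) (b : Fin e → Sp n), IsLatticeBasis B b ∧ h = √(Matrix.gram ℝ b).det}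

/-- The sine of the angle between two vectors. -/
noncomputable def sn {n : ℕ} (x y : Sp n) : ℝ := Real.sin (InnerProductGeometry.angle x y)

/-- `x` is a candidate at step `i`: a nonzero vector of `A` orthogonal to `X 0, …, X (i - 1)`. -/
def Cand {n : ℕ} (A : Sub n) (X : ℕ → Sp n) (i : ℕ) (x : Sp n) : Prop :=
  x ∈ A ∧ x ≠ 0 ∧ ∀ k < i, inner ℝ (X k) x = 0

/-- The successive minimisation up to step `j`: for every `i < j` the unit vectors `X i ∈ A` and
`Y i ∈ B` are candidates at step `i` which minimise the sine of the angle among all candidates. -/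
def Chain {n : ℕ} (A B : Sub n) (j : ℕ) (X Y : ℕ → Sp n) : Prop :=
  ∀ i < j, (Cand A X i (X i) ∧ ‖X i‖ = 1) ∧ (Cand B Y i (Y i) ∧ ‖Y i‖ = 1) ∧
    ∀ x y, Cand A X i x → Cand B Y i y → sn (X i) (Y i) ≤ sn x y

/-- `ψ_j(A,B)`, `1 ≤ j ≤ min (dim A) (dim B)`: the minimum reached at the `j`-th step of the
successive minimisation (it does not depend on the choices). -/
noncomputable def psi {n : ℕ} (A B : Sub n) (j : ℕ) : ℝ :=
  sInf {s | ∃ X Y, Chain A B j X Y ∧ s = sn (X (j - 1)) (Y (j - 1))}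

/-- `𝔍_n(d,e)_j`: the `d`-dimensional `A` with `dim (A ∩ B) < j` for all `B ∈ 𝔯_n(e)`. -/
def Jn (n d e j : ℕ) : Set (Sub n) := {A | dim A = d ∧ ∀ B ∈ Rn n e, dim (A ⊓ B) < j}

/-- The `B ∈ 𝔯_n(e)` with `ψ_j(A,B) ≤ H(B)^(-β)`. -/
def approx {n : ℕ} (A : Sub n) (e j : ℕ) (β : ℝ) : Set (Sub n) :=
  {B | B ∈ Rn n e ∧ psi A B j ≤ height B ^ (-β)}

/-- `μ_n(A|e)_j ∈ [0,∞]`: the supremum of the `β > 0` such that `approx A e j β` is infinite. -/
noncomputable def muA {n : ℕ} (A : Sub n) (e j : ℕ) : ℝ≥0∞ :=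
  sSup (ENNReal.ofReal '' {β | 0 < β ∧ (approx A e j β).Infinite})

/-- `μ_n(d|e)_j`: the infimum of `μ_n(A|e)_j` over `A ∈ 𝔍_n(d,e)_j`. -/
noncomputable def mu (n d e j : ℕ) : ℝ≥0∞ := sInf ((fun A => muA A e j) '' Jn n d e j)

end Run7.h406.Stmt
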