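import Pool.Agent.Run7.h406.Upper
import Pool.Agent.Run7.h406.Stmt

/-!
The definitions of `Stmt.lean` agree with the ones used in the proofs.
-/

set_option autoImplicit false
set_option linter.unusedSectionVars false

namespace Run7.h406

open Module Submodule Finset Matrix MeasureTheory
open scoped ENNReal

variable {n : ℕ}

theorem stmt_Rn (n e : ℕ) : Stmt.Rn n e = Rn n e := rfl

theorem stmt_Jn (n d e j : ℕ) : Stmt.Jn n d e j = Jn n d e j := rfl

theorem stmt_chain {A B : Submodule ℝ (EE n)} {j : ℕ} {X Y : ℕ → EE n} :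
    Stmt.Chain A B j X Y ↔ Chain A B j X Y := by
  constructor
  · intro h
    refine ⟨fun i hi => ?_, fun i hi => ?_, ?_⟩
    · obtain ⟨⟨⟨h1, -, h2⟩, h3⟩, -, -⟩ := h i hi
      exact ⟨h1, h3, h2⟩
    · obtain ⟨-, ⟨⟨h1, -, h2⟩, h3⟩, -⟩ := h i hi
      exact ⟨h1, h3, h2⟩
    · intro i hi x hx hx0 hx1 y hy hy0 hy1
      exact (h i hi).2.2 x y ⟨hx, hx0, hx1⟩ ⟨hy, hy0, hy1⟩
  · intro h i hi
    obtain ⟨g1, g2, g3⟩ := h.memX i hi
    obtain ⟨k1, k2, k3⟩ := h.memY i hi
    have hX0 : X i ≠ 0 := by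
      intro h0; rw [h0, norm_zero] at g2; exact zero_ne_one g2
    have hY0 : Y i ≠ 0 := by
      intro h0; rw [h0, norm_zero] at k2; exact zero_ne_one k2
    refine ⟨⟨⟨g1, hX0, g3⟩, g2⟩, ⟨⟨k1, hY0, k3⟩, k2⟩, ?_⟩
    rintro x y ⟨a1, a2, a3⟩ ⟨b1, b2, b3⟩
    exact h.min i hi x a1 a2 a3 y b1 b2 b3

theorem stmt_psi (A B : Submodule ℝ (EE n)) (j : ℕ) : Stmt.psi A B j = psi A B j := by
  unfold Stmt.psi psi
  congr 1
  ext s
  constructor
  · rintro ⟨X, Y, h, hs⟩
    exact ⟨X, Y, stmt_chain.1 h, hs⟩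
  · rintro ⟨X, Y, h, hs⟩
    exact ⟨X, Y, stmt_chain.2 h, hs⟩

theorem isInt_iff {x : EE n} : Stmt.IsInt x ↔ x ∈ ZL n := Iff.rfl

theorem latticeBasis_of_isZB {B : Submodule ℝ (EE n)} {e : ℕ} {b : ℕ → EE n} (h : IsZB B e b) :
    Stmt.IsLatticeBasis B (fun i : Fin e => b i) := by
  refine ⟨(rr_pos_iff b e).1 h.pos, fun x => ⟨?_, ?_⟩⟩
  · rintro ⟨hx, hx'⟩
    obtain ⟨c, hc⟩ := h.gen x hx' hx
    refine ⟨fun i => c i, ?_⟩
    rw [hc, ← Fin.sum_univ_eq_sum_range (fun k => c k • b k) e]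
  · rintro ⟨c, rfl⟩
    refine ⟨?_, ?_⟩
    · rw [← h.span]
      refine sum_mem fun i _ => ?_
      rw [← Int.cast_smul_eq_zsmul ℝ]
      exact smul_mem _ _ (mem_Vs b i.2)
    · have h1 : ∑ k : Fin e, c k • b k ∈ ZL n :=
        sum_mem fun (i : Fin e) _ => zsmul_mem (h.int i i.2) _
      exact h1

theorem height_of_latticeBasis {B : Submodule ℝ (EE n)} (hB : IsRat B) {e : ℕ} {b : Fin e → EE n}
    (h : Stmt.IsLatticeBasis B b) : √(Matrix.gram ℝ b).det = height B := by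
  let bb : ℕ → EE n := fun k => if h : k < e then b ⟨k, h⟩ else 0
  have hbb : (fun i : Fin e => bb i) = b := by
    funext i; simp [bb]
  obtain ⟨hli, hgen⟩ := h
  have hmem : ∀ i, b i ∈ B ∧ Stmt.IsInt (b i) := by
    intro i
    rw [hgen]
    exact ⟨fun k => if k = i then 1 else 0, by simp⟩
  have hpos : ∀ k < e, 0 < rr bb k := by
    rw [rr_pos_iff, hbb]; exact hli
  have hZ : IsZB B e bb := by
    refine ⟨fun k hk => ?_, ?_, hpos, ?_⟩
    · have h1 : bb k = b ⟨k, hk⟩ := by simp [bb, hk]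
      rw [h1]
      exact (hmem ⟨k, hk⟩).2
    · rw [Vs_eq_span_range, hbb]
      apply le_antisymm
      · rw [span_le]
        rintro _ ⟨i, rfl⟩
        exact (hmem i).1
      · obtain ⟨s, hs, hsB⟩ := hB
        intro x hx
        rw [← hsB] at hx
        refine (span_le (p := span ℝ (Set.range b))).2 ?_ hx
        intro y hy
        obtain ⟨D, hD, hDy⟩ := exists_int_mul (hs y hy)
        have hyB : D • y ∈ B := by
          rw [← Int.cast_smul_eq_zsmul ℝ]
          exact smul_mem _ _ (by rw [← hsB]; exact subset_span hy)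
        obtain ⟨c, hc⟩ := (hgen (D • y)).1 ⟨hyB, hDy⟩
        have h1 : D • y ∈ span ℝ (Set.range b) := by
          rw [hc]
          refine sum_mem fun i _ => ?_
          rw [← Int.cast_smul_eq_zsmul ℝ]
          exact smul_mem _ _ (subset_span ⟨i, rfl⟩)
        have hD' : (D : ℝ) ≠ 0 := by exact_mod_cast hD
        rw [← Int.cast_smul_eq_zsmul ℝ] at h1
        have h5 := smul_mem (span ℝ (Set.range b)) ((D : ℝ)⁻¹) h1
        rwa [smul_smul, inv_mul_cancel₀ hD', one_smul] at h5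
    · intro x hx hxB
      obtain ⟨c, hc⟩ := (hgen x).1 ⟨hxB, hx⟩
      refine ⟨fun k => if h : k < e then c ⟨k, h⟩ else 0, ?_⟩
      rw [hc, ← Fin.sum_univ_eq_sum_range
        (fun k => (if h : k < e then c ⟨k, h⟩ else 0) • bb k) e]
      refine Finset.sum_congr rfl fun i _ => ?_
      simp [bb]
  rw [height_eq hZ, ← hbb, det_gram_eq, Finset.prod_pow, Real.sqrt_sq]
  exact Finset.prod_nonneg fun k _ => rr_nonneg _ _

theorem stmt_height {B : Submodule ℝ (EE n)} {e : ℕ} (hB : B ∈ Rn n e) :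
    Stmt.height B = height B := by
  obtain ⟨z, hz, -⟩ := exists_adapted hB
  unfold Stmt.height
  have : {h | ∃ (e : ℕ) (b : Fin e → EE n), Stmt.IsLatticeBasis B b ∧
      h = √(Matrix.gram ℝ b).det} = {height B} := by
    ext h
    constructor
    · rintro ⟨e', b, hb, rfl⟩
      exact height_of_latticeBasis hB.1 hb
    · rintro rfl
      exact ⟨e, fun i => z i, latticeBasis_of_isZB hz,
        (height_of_latticeBasis hB.1 (latticeBasis_of_isZB hz)).symm⟩
  rw [this, csInf_singleton]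

theorem stmt_approx (A : Submodule ℝ (EE n)) (e j : ℕ) (β : ℝ) :
    Stmt.approx A e j β = {B | B ∈ Rn n e ∧ psi A B j ≤ height B ^ (-β)} := by
  ext B
  constructor
  · rintro ⟨h1, h2⟩
    refine ⟨h1, ?_⟩
    rwa [stmt_psi, stmt_height h1] at h2
  · rintro ⟨h1, h2⟩
    refine ⟨h1, ?_⟩
    rwa [stmt_psi, stmt_height h1]

theorem stmt_muA (A : Submodule ℝ (EE n)) (e j : ℕ) : Stmt.muA A e j = muA A e j := by
  unfold Stmt.muA muA
  rw [sSup_image]
  simp_rw [stmt_approx]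

theorem stmt_mu (n d e j : ℕ) : Stmt.mu n d e j = mu n d e j := by
  unfold Stmt.mu mu
  rw [sInf_image, stmt_Jn]
  simp_rw [stmt_muA]

end Run7.h406
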