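import Pool.Agent.Run7.h406.Reduce

/-!
The flow which is the identity on `A` and multiplication by `exp q` on the complement.
-/

set_option autoImplicit false
set_option linter.unusedSectionVars false

namespace Run7.h406

open Module Submodule Finset Matrix MeasureTheory

variable {E : Type*} [NormedAddCommGroup E] [InnerProductSpace ℝ E] [FiniteDimensional ℝ E]

/-- the flow -/
noncomputable def fl (A : Submodule ℝ E) (q : ℝ) : E →ₗ[ℝ] E :=
  (A.starProjection : E →ₗ[ℝ] E) + Real.exp q • (Aᗮ.starProjection : E →ₗ[ℝ] E)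

theorem fl_apply (A : Submodule ℝ E) (q : ℝ) (x : E) :
    fl A q x = A.starProjection x + Real.exp q • Aᗮ.starProjection x := rfl

theorem proj_fl (A : Submodule ℝ E) (q : ℝ) (x : E) :
    A.starProjection (fl A q x) = A.starProjection x := by
  rw [fl_apply, map_add, map_smul, (starProjection_eq_self_iff).2 (starProjection_apply_mem _ _),
    (starProjection_apply_eq_zero_iff _).2 (starProjection_apply_mem _ _), smul_zero, add_zero]

theorem projo_fl (A : Submodule ℝ E) (q : ℝ) (x : E) :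
    Aᗮ.starProjection (fl A q x) = Real.exp q • Aᗮ.starProjection x := by
  rw [fl_apply, map_add, map_smul, proj_self_zero A (starProjection_apply_mem _ _),
    (starProjection_eq_self_iff).2 (starProjection_apply_mem _ _), zero_add]

theorem fl_add (A : Submodule ℝ E) (q r : ℝ) (x : E) : fl A (q + r) x = fl A r (fl A q x) := by
  rw [fl_apply A r, proj_fl, projo_fl, fl_apply, smul_smul, ← Real.exp_add, add_comm q r]

theorem fl_neg (A : Submodule ℝ E) (q : ℝ) (x : E) : fl A (-q) (fl A q x) = x := by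
  rw [← fl_add, add_neg_cancel, fl_apply, Real.exp_zero, one_smul]
  exact A.starProjection_add_starProjection_orthogonal x

theorem norm_fl_sq (A : Submodule ℝ E) (q : ℝ) (x : E) :
    ‖fl A q x‖ ^ 2 = ‖A.starProjection x‖ ^ 2 + Real.exp (2 * q) * ‖Aᗮ.starProjection x‖ ^ 2 := by
  rw [norm_sq_eq_add_norm_sq_starProjection _ A, proj_fl, projo_fl, norm_smul, mul_pow,
    Real.norm_eq_abs, sq_abs, ← Real.exp_nat_mul]
  norm_num

theorem norm_le_fl (A : Submodule ℝ E) {q : ℝ} (hq : 0 ≤ q) (x : E) : ‖x‖ ≤ ‖fl A q x‖ := by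
  refine (pow_le_pow_iff_left₀ (norm_nonneg _) (norm_nonneg _) two_ne_zero).1 ?_
  rw [norm_fl_sq, norm_sq_eq_add_norm_sq_starProjection x A]
  have h1 : 1 ≤ Real.exp (2 * q) := Real.one_le_exp (by linarith)
  nlinarith [sq_nonneg ‖Aᗮ.starProjection x‖]

theorem norm_fl_le (A : Submodule ℝ E) {q : ℝ} (hq : 0 ≤ q) (x : E) :
    ‖fl A q x‖ ≤ Real.exp q * ‖x‖ := by
  refine (pow_le_pow_iff_left₀ (norm_nonneg _) (by positivity) two_ne_zero).1 ?_
  rw [norm_fl_sq, mul_pow, norm_sq_eq_add_norm_sq_starProjection x A, ← Real.exp_nat_mul]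
  have h1 : 1 ≤ Real.exp (2 * q) := Real.one_le_exp (by linarith)
  push_cast
  nlinarith [sq_nonneg ‖A.starProjection x‖]

theorem fl_inj (A : Submodule ℝ E) (q : ℝ) : Function.Injective (fl A q) := by
  intro x y h
  rw [← fl_neg A q x, ← fl_neg A q y, h]

theorem Vs_map (T : E →ₗ[ℝ] E) (b : ℕ → E) (k : ℕ) : Vs (fun i => T (b i)) k = (Vs b k).map T := by
  unfold Vs
  rw [map_span, Set.image_image]

theorem swp_map (T : E →ₗ[ℝ] E) (b : ℕ → E) (i : ℕ) (m : ℤ) :
    swp (fun k => T (b k)) i m = fun k => T (swp b i m k) := by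
  funext k
  unfold swp
  split_ifs
  · rw [map_sub, map_zsmul]
  · rfl
  · rfl

theorem rr_le_of_mem (b : ℕ → E) (k : ℕ) {v : E} (hv : v ∈ Vs b k) : rr b k ≤ ‖b k - v‖ := by
  have h : gs b k = (Vs b k)ᗮ.starProjection (b k - v) := by
    rw [map_sub, proj_self_zero _ hv, sub_zero]; rfl
  rw [rr, h]
  exact norm_starProjection_apply_le _ _

theorem rr_le_rr_fl (A : Submodule ℝ E) {q : ℝ} (hq : 0 ≤ q) (b : ℕ → E) (k : ℕ) :
    rr b k ≤ rr (fun i => fl A q (b i)) k := by
  have h1 : (fun i => fl A q (b i)) k - gs (fun i => fl A q (b i)) k ∈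
      Vs (fun i => fl A q (b i)) k := sub_gs_mem _ k
  rw [Vs_map] at h1
  obtain ⟨v, hv, hv2⟩ := h1
  have h2 : gs (fun i => fl A q (b i)) k = fl A q (b k - v) := by
    rw [map_sub, hv2]; abel
  rw [rr, rr, h2]
  exact (rr_le_of_mem b k hv).trans (norm_le_fl A hq _)

theorem rr_fl_le (A : Submodule ℝ E) {q : ℝ} (hq : 0 ≤ q) (b : ℕ → E) (k : ℕ) :
    rr (fun i => fl A q (b i)) k ≤ Real.exp q * rr b k := by
  have h1 : fl A q (b k - gs b k) ∈ Vs (fun i => fl A q (b i)) k := by
    rw [Vs_map]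
    exact ⟨_, sub_gs_mem b k, rfl⟩
  refine (rr_le_of_mem _ k h1).trans ?_
  rw [← map_sub, sub_sub_cancel]
  exact norm_fl_le A hq _

theorem rr_fl_pos (A : Submodule ℝ E) (q : ℝ) (b : ℕ → E) {N : ℕ} (hb : ∀ k < N, 0 < rr b k) :
    ∀ k < N, 0 < rr (fun i => fl A q (b i)) k := by
  rw [rr_pos_iff] at hb ⊢
  exact hb.map' (fl A q) (LinearMap.ker_eq_bot.2 (fl_inj A q))

/-- an orthonormal basis adapted to a subspace -/
theorem exists_adapted_basis {N : ℕ} (hE : finrank ℝ E = N) (W : Submodule ℝ E) :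
    ∃ u : OrthonormalBasis (Fin N) ℝ E, (∀ i : Fin N, (i : ℕ) < finrank ℝ W → u i ∈ W) ∧
      (∀ i : Fin N, finrank ℝ W ≤ (i : ℕ) → u i ∈ Wᗮ) := by
  have hWN : finrank ℝ W ≤ N := by rw [← hE]; exact Submodule.finrank_le W
  let o := stdOrthonormalBasis ℝ W
  let v : Fin N → E := fun i => if h : (i : ℕ) < finrank ℝ W then (o ⟨i, h⟩ : E) else 0
  have hv : Orthonormal ℝ (Set.domRestrict {i : Fin N | (i : ℕ) < finrank ℝ W} v) := by
    have h1 : Orthonormal ℝ (fun i => (o i : E)) :=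
      o.orthonormal.comp_linearIsometry W.subtypeₗᵢ
    have h2 := h1.comp (fun i : {i : Fin N | (i : ℕ) < finrank ℝ W} =>
      (⟨(i : Fin N), i.2⟩ : Fin (finrank ℝ W))) (by
        intro i j hij
        have h3 := (Fin.mk.injEq _ _ _ _).mp hij
        exact Subtype.ext (Fin.ext h3))
    convert h2 using 1
    funext i
    have hi : ((i : Fin N) : ℕ) < finrank ℝ W := i.2
    simp [Set.domRestrict, v, hi]
  obtain ⟨u, hu⟩ := hv.exists_orthonormalBasis_extension_of_card_eq (by simp [hE])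
  have hu1 : ∀ i : Fin N, (h : (i : ℕ) < finrank ℝ W) → u i = (o ⟨i, h⟩ : E) := by
    intro i h
    rw [hu i h]
    simp [v, h]
  refine ⟨u, fun i h => by rw [hu1 i h]; exact (o ⟨i, h⟩).2, ?_⟩
  intro i hi
  rw [mem_orthogonal]
  intro w hw
  have h1 : w = ∑ k, (o.repr ⟨w, hw⟩ k) • (o k : E) := by
    have := congrArg Subtype.val (o.sum_repr ⟨w, hw⟩)
    refine this.symm.trans ?_
    rw [AddSubmonoidClass.coe_finsetSum]
    rfl
  rw [h1, sum_inner]
  refine Finset.sum_eq_zero fun k _ => ?_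
  rw [inner_smul_left]
  have hk : ((⟨k, lt_of_lt_of_le k.2 hWN⟩ : Fin N) : ℕ) < finrank ℝ W := k.2
  have h2 : (o k : E) = u ⟨k, lt_of_lt_of_le k.2 hWN⟩ := (hu1 _ hk).symm
  rw [h2, u.orthonormal.2 (by
    intro h
    have := congrArg Fin.val h
    simp only at this
    omega), mul_zero]

theorem orthonormal_expand {N : ℕ} (u : OrthonormalBasis (Fin N) ℝ E) (b : ℕ → E) (j : Fin N) :
    b j = ∑ i, (Matrix.of fun i j : Fin N => inner ℝ (u i) (b j)) i j • u i := by
  conv_lhs => rw [← u.sum_repr' (b j)]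
  rfl

/-- total expansion of the flow -/
theorem prod_rr_fl {N : ℕ} (hE : finrank ℝ E = N) (A : Submodule ℝ E) (q : ℝ) (b : ℕ → E) :
    ∏ i ∈ range N, rr (fun k => fl A q (b k)) i ^ 2 =
      (∏ i ∈ range N, rr b i ^ 2) * Real.exp (2 * q) ^ (N - finrank ℝ A) := by
  obtain ⟨u, hu1, hu2⟩ := exists_adapted_basis hE A
  have hAN : finrank ℝ A ≤ N := by rw [← hE]; exact Submodule.finrank_le A
  have hfl1 : ∀ i : Fin N, (i : ℕ) < finrank ℝ A → fl A q (u i) = u i := by
    intro i hi
    rw [fl_apply, (starProjection_eq_self_iff).2 (hu1 i hi), proj_self_zero A (hu1 i hi),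
      smul_zero, add_zero]
  have hfl2 : ∀ i : Fin N, finrank ℝ A ≤ (i : ℕ) → fl A q (u i) = Real.exp q • u i := by
    intro i hi
    rw [fl_apply, (starProjection_eq_self_iff).2 (hu2 i hi),
      (starProjection_apply_eq_zero_iff _).2 (hu2 i hi), zero_add]
  rw [prod_rr_map b N (fl A q) u (Matrix.of fun i j : Fin N => inner ℝ (u i) (b j))
    (orthonormal_expand u b) (gram_eq_one_iff_orthonormal.2 u.orthonormal)
    (fun i => if (i : ℕ) < finrank ℝ A then 1 else Real.exp (2 * q))]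
  · congr 1
    rw [Fin.prod_univ_eq_prod_range
      (fun i => if i < finrank ℝ A then (1 : ℝ) else Real.exp (2 * q)) N,
      ← Finset.prod_range_mul_prod_Ico _ hAN]
    rw [Finset.prod_eq_one (fun i hi => by rw [if_pos (Finset.mem_range.1 hi)]), one_mul,
      Finset.prod_congr rfl (fun i hi => by
        rw [if_neg (not_lt.2 (Finset.mem_Ico.1 hi).1)]), Finset.prod_const, Nat.card_Ico]
  · ext i j
    rw [gram_apply, Matrix.diagonal_apply]
    by_cases hij : i = j
    · rw [if_pos hij, ← hij]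
      by_cases hi : (i : ℕ) < finrank ℝ A
      · rw [hfl1 i hi, if_pos hi, real_inner_self_eq_norm_sq, u.orthonormal.1 i]; norm_num
      · rw [hfl2 i (not_lt.1 hi), if_neg hi, inner_smul_left, inner_smul_right,
          real_inner_self_eq_norm_sq, u.orthonormal.1 i]
        rw [two_mul, Real.exp_add]
        simp
    · rw [if_neg hij]
      have h0 : inner ℝ (u i) (u j) = 0 := u.orthonormal.2 hij
      by_cases hi : (i : ℕ) < finrank ℝ A <;> by_cases hj : (j : ℕ) < finrank ℝ A
      · rw [hfl1 i hi, hfl1 j hj, h0]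
      · rw [hfl1 i hi, hfl2 j (not_lt.1 hj), inner_smul_right, h0, mul_zero]
      · rw [hfl2 i (not_lt.1 hi), hfl1 j hj, inner_smul_left, h0, mul_zero]
      · rw [hfl2 i (not_lt.1 hi), hfl2 j (not_lt.1 hj), inner_smul_left, inner_smul_right, h0,
          mul_zero, mul_zero]

/-- an orthonormal basis of `V` which diagonalises the projection to the complement of `A` -/
theorem exists_diag {k : ℕ} (A V : Submodule ℝ E) (hV : finrank ℝ V = k) :
    ∃ f : Fin k → E, (∀ i, f i ∈ V) ∧ Orthonormal ℝ f ∧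
      (∀ x ∈ V, x = ∑ i, (inner ℝ (f i) x) • f i) ∧
      ∀ i j, i ≠ j → inner ℝ (Aᗮ.starProjection (f i)) (Aᗮ.starProjection (f j)) = 0 := by
  let S : V →ₗ[ℝ] V := (V.orthogonalProjectionOnto : E →ₗ[ℝ] V) ∘ₗ
    (Aᗮ.starProjection : E →ₗ[ℝ] E) ∘ₗ V.subtype
  have hS1 : ∀ x y : V, inner ℝ (S x) y = inner ℝ (Aᗮ.starProjection (x : E)) (y : E) := by
    intro x y
    exact inner_orthogonalProjectionOnto_eq_of_mem_right y _
  have hS : S.IsSymmetric := by
    intro x y
    rw [hS1, inner_starProjection_left_eq_right, real_inner_comm (S y) x, hS1]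
    exact real_inner_comm _ _
  let o := hS.eigenvectorBasis hV
  have ho : ∀ i j, i ≠ j → inner ℝ (S (o i)) (o j) = 0 := by
    intro i j hij
    rw [hS.apply_eigenvectorBasis hV i, inner_smul_left]
    have : inner ℝ (o i) (o j) = 0 := o.orthonormal.2 hij
    rw [this, mul_zero]
  refine ⟨fun i => (o i : E), fun i => (o i).2, o.orthonormal.comp_linearIsometry V.subtypeₗᵢ,
    ?_, ?_⟩
  · intro x hx
    have := congrArg Subtype.val (o.sum_repr' ⟨x, hx⟩)
    refine this.symm.trans ?_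
    rw [AddSubmonoidClass.coe_finsetSum]
    rfl
  · intro i j hij
    have h1 := ho i j hij
    rw [hS1] at h1
    rw [← inner_starProjection_left_eq_right,
      (starProjection_eq_self_iff).2 (starProjection_apply_mem _ _)]
    exact h1

end Run7.h406
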