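import Mathlib

/-!
Gram-Schmidt norms of a sequence of vectors, written with orthogonal projections.
-/

set_option autoImplicit false
set_option linter.unusedSectionVars false

namespace Run7.h406

open Module Submodule Finset

variable {E : Type*} [NormedAddCommGroup E] [InnerProductSpace ℝ E] [FiniteDimensional ℝ E]

/-- span of the first `k` vectors -/
noncomputable def Vs (b : ℕ → E) (k : ℕ) : Submodule ℝ E := span ℝ (b '' Set.Iio k)

/-- component of `b k` orthogonal to the previous vectors -/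
noncomputable def gs (b : ℕ → E) (k : ℕ) : E := (Vs b k)ᗮ.starProjection (b k)

/-- Gram-Schmidt norms -/
noncomputable def rr (b : ℕ → E) (k : ℕ) : ℝ := ‖gs b k‖

theorem Vs_zero (b : ℕ → E) : Vs b 0 = ⊥ := by
  simp [Vs]

theorem Vs_succ (b : ℕ → E) (k : ℕ) : Vs b (k + 1) = Vs b k ⊔ span ℝ {b k} := by
  unfold Vs
  rw [← span_union]
  congr 1
  ext x
  simp only [Set.mem_image, Set.mem_Iio, Set.union_singleton, Set.mem_insert_iff]
  constructor
  · rintro ⟨i, hi, rfl⟩
    rcases Nat.lt_succ_iff_lt_or_eq.1 hi with h | h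
    · exact Or.inr ⟨i, h, rfl⟩
    · exact Or.inl (by rw [h])
  · rintro (rfl | ⟨i, hi, rfl⟩)
    · exact ⟨k, Nat.lt_succ_self k, rfl⟩
    · exact ⟨i, Nat.lt_succ_of_lt hi, rfl⟩

theorem Vs_mono (b : ℕ → E) {k l : ℕ} (h : k ≤ l) : Vs b k ≤ Vs b l :=
  span_mono (Set.image_mono (Set.Iio_subset_Iio h))

theorem mem_Vs (b : ℕ → E) {i k : ℕ} (h : i < k) : b i ∈ Vs b k :=
  subset_span ⟨i, h, rfl⟩

theorem Vs_congr {b b' : ℕ → E} {k : ℕ} (h : ∀ i < k, b i = b' i) : Vs b k = Vs b' k := by
  unfold Vs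
  congr 1
  exact Set.image_congr (fun i hi => h i hi)

theorem proj_congr {V W : Submodule ℝ E} (h : V = W) (x : E) :
    Vᗮ.starProjection x = Wᗮ.starProjection x := by
  subst h
  rfl

theorem gs_congr {b b' : ℕ → E} {k : ℕ} (h : ∀ i ≤ k, b i = b' i) : gs b k = gs b' k := by
  unfold gs
  rw [proj_congr (Vs_congr (fun i hi => h i (le_of_lt hi))), h k le_rfl]

theorem rr_congr {b b' : ℕ → E} {k : ℕ} (h : ∀ i ≤ k, b i = b' i) : rr b k = rr b' k := by
  unfold rr
  rw [gs_congr h]

theorem gs_mem_orth (b : ℕ → E) (k : ℕ) : gs b k ∈ (Vs b k)ᗮ :=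
  starProjection_apply_mem _ _

theorem sub_gs_mem (b : ℕ → E) (k : ℕ) : b k - gs b k ∈ Vs b k := by
  have h : b k - gs b k = (Vs b k).starProjection (b k) := by
    unfold gs
    rw [starProjection_orthogonal_val]
    abel
  rw [h]
  exact starProjection_apply_mem _ _

theorem gs_mem_succ (b : ℕ → E) (k : ℕ) : gs b k ∈ Vs b (k + 1) := by
  have h : gs b k = b k - (b k - gs b k) := by abel
  rw [h]
  exact sub_mem (mem_Vs b (Nat.lt_succ_self k)) (Vs_mono b (Nat.le_succ k) (sub_gs_mem b k))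

theorem gs_eq_gramSchmidt (b : ℕ → E) (k : ℕ) :
    gs b k = InnerProductSpace.gramSchmidt ℝ b k := by
  unfold gs
  refine (eq_starProjection_of_mem_orthogonal (K := (Vs b k)ᗮ) ?_ ?_)
  · rw [mem_orthogonal]
    intro u hu
    unfold Vs at hu
    rw [← InnerProductSpace.span_gramSchmidt_Iio ℝ b k] at hu
    induction hu using span_induction with
    | mem x hx =>
      obtain ⟨i, hi, rfl⟩ := hx
      exact InnerProductSpace.gramSchmidt_orthogonal ℝ b (ne_of_lt hi)
    | zero => exact inner_zero_left _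
    | add x y _ _ hx hy => rw [inner_add_left, hx, hy, add_zero]
    | smul a x _ hx => rw [inner_smul_left, hx, mul_zero]
  · rw [orthogonal_orthogonal]
    rw [InnerProductSpace.gramSchmidt_def ℝ b k]
    rw [sub_sub_cancel]
    refine sum_mem fun i hi => ?_
    have h1 : InnerProductSpace.gramSchmidt ℝ b i ∈ Vs b k := by
      unfold Vs
      rw [← InnerProductSpace.span_gramSchmidt_Iio ℝ b k]
      exact subset_span ⟨i, Finset.mem_Iio.1 hi, rfl⟩
    rw [starProjection_singleton]
    exact smul_mem _ _ h1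

theorem inner_gs_of_ne (b : ℕ → E) {i j : ℕ} (h : i ≠ j) : inner ℝ (gs b i) (gs b j) = 0 := by
  rw [gs_eq_gramSchmidt, gs_eq_gramSchmidt]
  exact InnerProductSpace.gramSchmidt_orthogonal ℝ b h

theorem inner_gs_Vs (b : ℕ → E) {k : ℕ} {x : E} (hx : x ∈ Vs b k) : inner ℝ x (gs b k) = 0 :=
  (mem_orthogonal _ _).1 (gs_mem_orth b k) x hx

/-- projection off `W ⊔ ℝ x` -/
theorem proj_sup (W : Submodule ℝ E) (x y : E) (hx : Wᗮ.starProjection x ≠ 0) :
    (W ⊔ span ℝ {x})ᗮ.starProjection y =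
      Wᗮ.starProjection y -
        (inner ℝ (Wᗮ.starProjection x) (Wᗮ.starProjection y) / ‖Wᗮ.starProjection x‖ ^ 2) •
          Wᗮ.starProjection x := by
  set p := Wᗮ.starProjection x with hp
  set s := Wᗮ.starProjection y with hs
  have hpW : p ∈ Wᗮ := starProjection_apply_mem _ _
  have hsW : s ∈ Wᗮ := starProjection_apply_mem _ _
  have hxp : x - p ∈ W := by
    have : x - p = W.starProjection x := by
      rw [hp, starProjection_orthogonal_val]; abel
    rw [this]; exact starProjection_apply_mem _ _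
  have hys : y - s ∈ W := by
    have : y - s = W.starProjection y := by
      rw [hs, starProjection_orthogonal_val]; abel
    rw [this]; exact starProjection_apply_mem _ _
  have hn : ‖p‖ ^ 2 ≠ 0 := by positivity
  refine (eq_starProjection_of_mem_orthogonal (K := (W ⊔ span ℝ {x})ᗮ) ?_ ?_)
  · rw [mem_orthogonal]
    intro u hu
    obtain ⟨w, hw, v, hv, rfl⟩ := mem_sup.1 hu
    obtain ⟨a, rfl⟩ := mem_span_singleton.1 hv
    have h1 : inner ℝ w (s - (inner ℝ p s / ‖p‖ ^ 2) • p) = 0 := by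
      rw [inner_sub_right, inner_smul_right, (mem_orthogonal _ _).1 hsW w hw,
        (mem_orthogonal _ _).1 hpW w hw]
      simp
    have h2 : inner ℝ x (s - (inner ℝ p s / ‖p‖ ^ 2) • p) = 0 := by
      have hx' : x = (x - p) + p := by abel
      have e1 : inner ℝ x s = inner ℝ p s := by
        conv_lhs => rw [hx']
        rw [inner_add_left, (mem_orthogonal _ _).1 hsW _ hxp, zero_add]
      have e2 : inner ℝ x p = ‖p‖ ^ 2 := by
        conv_lhs => rw [hx']
        rw [inner_add_left, (mem_orthogonal _ _).1 hpW _ hxp, zero_add, real_inner_self_eq_norm_sq]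
      rw [inner_sub_right, inner_smul_right, e1, e2]
      field_simp
      ring
    rw [inner_add_left, inner_smul_left, h1, h2]
    simp
  · rw [orthogonal_orthogonal]
    have : y - (s - (inner ℝ p s / ‖p‖ ^ 2) • p) =
        ((y - s) - (inner ℝ p s / ‖p‖ ^ 2) • (x - p)) + (inner ℝ p s / ‖p‖ ^ 2) • x := by
      module
    rw [this]
    exact add_mem (mem_sup_left (sub_mem hys (smul_mem _ _ hxp)))
      (mem_sup_right (smul_mem _ _ (mem_span_singleton_self x)))

theorem norm_proj_sup_sq (W : Submodule ℝ E) (x y : E) (hx : Wᗮ.starProjection x ≠ 0) :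
    ‖Wᗮ.starProjection x‖ ^ 2 * ‖(W ⊔ span ℝ {x})ᗮ.starProjection y‖ ^ 2 =
      ‖Wᗮ.starProjection x‖ ^ 2 * ‖Wᗮ.starProjection y‖ ^ 2 -
        (inner ℝ (Wᗮ.starProjection x) (Wᗮ.starProjection y)) ^ 2 := by
  rw [proj_sup W x y hx]
  set p := Wᗮ.starProjection x with hp
  set s := Wᗮ.starProjection y with hs
  have hn : ‖p‖ ^ 2 ≠ 0 := by positivity
  rw [norm_sub_sq_real, inner_smul_right, norm_smul, mul_pow, real_inner_comm p s]
  rw [Real.norm_eq_abs, sq_abs]
  field_simp
  ring

theorem rr_nonneg (b : ℕ → E) (k : ℕ) : 0 ≤ rr b k := norm_nonneg _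

theorem rr_le_norm (b : ℕ → E) (k : ℕ) : rr b k ≤ ‖b k‖ :=
  norm_starProjection_apply_le _ _

end Run7.h406
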