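import Pool.Agent.Run7.h406.GS

/-!
Swaps, nearest plane, Gram determinants.
-/

set_option autoImplicit false
set_option linter.unusedSectionVars false

namespace Run7.h406

open Module Submodule Finset

variable {E : Type*} [NormedAddCommGroup E] [InnerProductSpace ℝ E] [FiniteDimensional ℝ E]

/-- replace `b i, b (i+1)` by `b (i+1) - m b i, b i` -/
noncomputable def swp (b : ℕ → E) (i : ℕ) (m : ℤ) (k : ℕ) : E :=
  if k = i then b (i + 1) - m • b i else if k = i + 1 then b i else b k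

theorem swp_self (b : ℕ → E) (i : ℕ) (m : ℤ) : swp b i m i = b (i + 1) - m • b i := by
  simp [swp]

theorem swp_succ (b : ℕ → E) (i : ℕ) (m : ℤ) : swp b i m (i + 1) = b i := by
  simp [swp]

theorem swp_of_ne (b : ℕ → E) {i : ℕ} (m : ℤ) {k : ℕ} (h1 : k ≠ i) (h2 : k ≠ i + 1) :
    swp b i m k = b k := by
  simp [swp, h1, h2]

theorem Vs_swp_le (b : ℕ → E) {i : ℕ} (m : ℤ) {k : ℕ} (h : k ≤ i) :
    Vs (swp b i m) k = Vs b k :=
  Vs_congr (fun l hl => swp_of_ne b m (by omega) (by omega))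

theorem Vs_swp_succ2 (b : ℕ → E) (i : ℕ) (m : ℤ) :
    Vs (swp b i m) (i + 2) = Vs b (i + 2) := by
  rw [Vs_succ, Vs_succ, Vs_succ b (i + 1), Vs_succ b i, Vs_swp_le b m le_rfl, swp_self, swp_succ]
  apply le_antisymm
  · refine sup_le (sup_le (le_sup_of_le_left le_sup_left) ?_) ?_
    · rw [span_singleton_le_iff_mem]
      refine sub_mem (mem_sup_right (mem_span_singleton_self _)) ?_
      rw [← Int.cast_smul_eq_zsmul ℝ]
      exact smul_mem _ _ (mem_sup_left (mem_sup_right (mem_span_singleton_self _)))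
    · exact le_sup_of_le_left le_sup_right
  · refine sup_le (sup_le (le_sup_of_le_left le_sup_left) le_sup_right) ?_
    rw [span_singleton_le_iff_mem]
    have : b (i + 1) = (b (i + 1) - m • b i) + (m : ℝ) • b i := by
      rw [Int.cast_smul_eq_zsmul]; abel
    have hmem : (b (i + 1) - m • b i) + (m : ℝ) • b i ∈
        Vs b i ⊔ span ℝ {b (i + 1) - m • b i} ⊔ span ℝ {b i} :=
      add_mem (mem_sup_left (mem_sup_right (mem_span_singleton_self _)))
        (smul_mem _ _ (mem_sup_right (mem_span_singleton_self _)))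
    rwa [← this] at hmem

theorem Vs_swp (b : ℕ → E) (i : ℕ) (m : ℤ) {k : ℕ} (h : k ≠ i + 1) :
    Vs (swp b i m) k = Vs b k := by
  rcases Nat.lt_or_ge i k with h1 | h1
  · have h2 : i + 2 ≤ k := by omega
    induction k, h2 using Nat.le_induction with
    | base => exact Vs_swp_succ2 b i m
    | succ k hk ih =>
      rw [Vs_succ, Vs_succ, ih (by omega) (by omega), swp_of_ne b m (by omega) (by omega)]
  · exact Vs_swp_le b m h1

theorem rr_swp_of_ne (b : ℕ → E) (i : ℕ) (m : ℤ) {k : ℕ} (h1 : k ≠ i) (h2 : k ≠ i + 1) :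
    rr (swp b i m) k = rr b k := by
  unfold rr gs
  rw [proj_congr (Vs_swp b i m h2), swp_of_ne b m h1 h2]

theorem rr_eq (b : ℕ → E) (k : ℕ) : rr b k = ‖(Vs b k)ᗮ.starProjection (b k)‖ := rfl

theorem rr_swp_self (b : ℕ → E) (i : ℕ) (m : ℤ) :
    rr (swp b i m) i = ‖(Vs b i)ᗮ.starProjection (b (i + 1) - m • b i)‖ := by
  rw [rr_eq, proj_congr (Vs_swp_le b m le_rfl), swp_self]

theorem proj_self_zero (W : Submodule ℝ E) {x : E} (hx : x ∈ W) : Wᗮ.starProjection x = 0 := by
  rw [starProjection_orthogonal_val, (starProjection_eq_self_iff).2 hx, sub_self]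

/-- the second new norm -/
theorem rr_swp_succ (b : ℕ → E) (i : ℕ) (m : ℤ) :
    rr (swp b i m) (i + 1) =
      ‖(Vs b i ⊔ span ℝ {b (i + 1) - m • b i})ᗮ.starProjection (b i)‖ := by
  rw [rr_eq]
  have h : Vs (swp b i m) (i + 1) = Vs b i ⊔ span ℝ {b (i + 1) - m • b i} := by
    rw [Vs_succ, Vs_swp_le b m le_rfl, swp_self]
  rw [proj_congr h, swp_succ]

theorem rr_succ_eq (b : ℕ → E) (i : ℕ) (m : ℤ) :
    rr b (i + 1) = ‖(Vs b i ⊔ span ℝ {b i})ᗮ.starProjection (b (i + 1) - m • b i)‖ := by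
  rw [rr_eq, proj_congr (Vs_succ b i), map_sub, map_zsmul,
    proj_self_zero _ (mem_sup_right (mem_span_singleton_self _)), smul_zero, sub_zero]

/-- the squared norm of the new first vector -/
theorem rr_swp_self_sq (b : ℕ → E) (i : ℕ) (m : ℤ) (h : rr b i ≠ 0) :
    rr (swp b i m) i ^ 2 = rr b (i + 1) ^ 2 +
      (inner ℝ (gs b i) (b (i + 1)) / rr b i ^ 2 - m) ^ 2 * rr b i ^ 2 := by
  have hx : (Vs b i)ᗮ.starProjection (b i) ≠ 0 := by
    intro h0
    exact h (by rw [rr_eq, h0, norm_zero])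
  have key := norm_proj_sup_sq (Vs b i) (b i) (b (i + 1) - m • b i) hx
  rw [← rr_succ_eq, ← rr_swp_self, ← rr_eq] at key
  have e : inner ℝ ((Vs b i)ᗮ.starProjection (b i))
      ((Vs b i)ᗮ.starProjection (b (i + 1) - m • b i)) =
      inner ℝ (gs b i) (b (i + 1)) - m * rr b i ^ 2 := by
    have h1 : inner ℝ ((Vs b i)ᗮ.starProjection (b i))
        ((Vs b i)ᗮ.starProjection (b (i + 1))) = inner ℝ (gs b i) (b (i + 1)) := by
      have h2 : b (i + 1) = (Vs b i).starProjection (b (i + 1)) +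
          (Vs b i)ᗮ.starProjection (b (i + 1)) := by
        rw [starProjection_orthogonal_val]; abel
      have h3 : inner ℝ (gs b i) ((Vs b i).starProjection (b (i + 1))) = 0 := by
        rw [real_inner_comm]
        exact inner_gs_Vs b (starProjection_apply_mem _ _)
      conv_rhs => rw [h2]
      rw [inner_add_right, h3, zero_add]
      rfl
    rw [map_sub, map_zsmul, inner_sub_right, h1, ← Int.cast_smul_eq_zsmul ℝ, inner_smul_right,
      real_inner_self_eq_norm_sq]
    rfl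
  rw [e] at key
  have hr : rr b i ^ 2 ≠ 0 := pow_ne_zero _ h
  field_simp
  linear_combination (-1 : ℝ) * key

theorem rr_swp_mul (b : ℕ → E) (i : ℕ) (m : ℤ) (h : rr b i ≠ 0) (h' : rr (swp b i m) i ≠ 0) :
    rr (swp b i m) i * rr (swp b i m) (i + 1) = rr b i * rr b (i + 1) := by
  have hx : (Vs b i)ᗮ.starProjection (b i) ≠ 0 := by
    intro h0
    exact h (by rw [rr_eq, h0, norm_zero])
  have hy : (Vs b i)ᗮ.starProjection (b (i + 1) - m • b i) ≠ 0 := by
    intro h0
    exact h' (by rw [rr_swp_self, h0, norm_zero])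
  have k1 := norm_proj_sup_sq (Vs b i) (b i) (b (i + 1) - m • b i) hx
  have k2 := norm_proj_sup_sq (Vs b i) (b (i + 1) - m • b i) (b i) hy
  rw [← rr_succ_eq, ← rr_swp_self, ← rr_eq] at k1
  rw [← rr_swp_succ, ← rr_swp_self, ← rr_eq, real_inner_comm] at k2
  have : (rr (swp b i m) i * rr (swp b i m) (i + 1)) ^ 2 = (rr b i * rr b (i + 1)) ^ 2 := by
    rw [mul_pow, mul_pow, k1, k2]; ring
  exact (pow_left_inj₀ (mul_nonneg (rr_nonneg _ _) (rr_nonneg _ _))
    (mul_nonneg (rr_nonneg _ _) (rr_nonneg _ _)) two_ne_zero).1 this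

theorem rr_swp_self_pos (b : ℕ → E) (i : ℕ) (m : ℤ) (h : 0 < rr b i) (h' : 0 < rr b (i + 1)) :
    rr b (i + 1) ≤ rr (swp b i m) i := by
  have := rr_swp_self_sq b i m h.ne'
  have h2 : rr b (i + 1) ^ 2 ≤ rr (swp b i m) i ^ 2 := by
    rw [this]
    have : 0 ≤ (inner ℝ (gs b i) (b (i + 1)) / rr b i ^ 2 - m) ^ 2 * rr b i ^ 2 := by positivity
    linarith
  exact (pow_le_pow_iff_left₀ h'.le (rr_nonneg _ _) two_ne_zero).1 h2

/-- product of all norms is unchanged by a swap below the cut -/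
theorem prod_rr_swp (b : ℕ → E) (i : ℕ) (m : ℤ) {n : ℕ} (hn : n ≠ i + 1)
    (hb : ∀ k < n, 0 < rr b k) :
    ∏ k ∈ range n, rr (swp b i m) k = ∏ k ∈ range n, rr b k := by
  rcases Nat.lt_or_ge i n with h1 | h1
  · have h2 : i + 2 ≤ n := by omega
    have hi := hb i h1
    have hi' := hb (i + 1) (by omega)
    have hs : 0 < rr (swp b i m) i := lt_of_lt_of_le hi' (rr_swp_self_pos b i m hi hi')
    clear hn h1
    induction n, h2 using Nat.le_induction with
    | base =>
      rw [prod_range_succ, prod_range_succ, prod_range_succ _ (i + 1), prod_range_succ _ i,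
        mul_assoc, mul_assoc, rr_swp_mul b i m hi.ne' hs.ne']
      congr 1
      refine prod_congr rfl fun k hk => ?_
      have := Finset.mem_range.1 hk
      exact rr_swp_of_ne b i m (by omega) (by omega)
    | succ n hn ih =>
      rw [prod_range_succ, prod_range_succ _ n, ih (fun k hk => hb k (by omega)),
        rr_swp_of_ne b i m (by omega) (by omega)]
  · refine prod_congr rfl fun k hk => ?_
    have := Finset.mem_range.1 hk
    exact rr_swp_of_ne b i m (by omega) (by omega)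

theorem rr_swp_pos (b : ℕ → E) (i : ℕ) (m : ℤ) {n : ℕ} (hn : i + 1 < n)
    (hb : ∀ k < n, 0 < rr b k) : ∀ k < n, 0 < rr (swp b i m) k := by
  have hi := hb i (by omega)
  have hi' := hb (i + 1) hn
  have hs : 0 < rr (swp b i m) i := lt_of_lt_of_le hi' (rr_swp_self_pos b i m hi hi')
  intro k hk
  by_cases h1 : k = i
  · rw [h1]; exact hs
  by_cases h2 : k = i + 1
  · rw [h2]
    have := rr_swp_mul b i m hi.ne' hs.ne'
    have h3 : 0 < rr (swp b i m) i * rr (swp b i m) (i + 1) := by rw [this]; positivity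
    exact (mul_pos_iff_of_pos_left hs).1 h3
  · rw [rr_swp_of_ne b i m h1 h2]; exact hb k hk

/-- a good choice of `m` -/
theorem exists_swp_le (b : ℕ → E) (i : ℕ) (h : 0 < rr b i) :
    ∃ m : ℤ, rr (swp b i m) i ^ 2 ≤ rr b (i + 1) ^ 2 + 1 / 4 * rr b i ^ 2 := by
  refine ⟨round (inner ℝ (gs b i) (b (i + 1)) / rr b i ^ 2), ?_⟩
  rw [rr_swp_self_sq b i _ h.ne']
  have h1 := abs_sub_round (inner ℝ (gs b i) (b (i + 1)) / rr b i ^ 2)
  have h2 : (inner ℝ (gs b i) (b (i + 1)) / rr b i ^ 2 -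
      round (inner ℝ (gs b i) (b (i + 1)) / rr b i ^ 2)) ^ 2 ≤ 1 / 4 := by
    rw [← sq_abs]
    nlinarith [abs_nonneg (inner ℝ (gs b i) (b (i + 1)) / rr b i ^ 2 -
      round (inner ℝ (gs b i) (b (i + 1)) / rr b i ^ 2))]
  have h3 : 0 ≤ rr b i ^ 2 := by positivity
  nlinarith

/-- nearest plane -/
theorem babai (b : ℕ → E) (k : ℕ) (hb : ∀ i < k, 0 < rr b i) :
    ∀ x ∈ Vs b k, ∃ c : ℕ → ℤ,
      ‖x - ∑ i ∈ range k, c i • b i‖ ^ 2 ≤ 1 / 4 * ∑ i ∈ range k, rr b i ^ 2 := by
  induction k with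
  | zero =>
    intro x hx
    rw [Vs_zero, mem_bot] at hx
    exact ⟨0, by simp [hx]⟩
  | succ k ih =>
    intro x hx
    rw [Vs_succ] at hx
    obtain ⟨w, hw, v, hv, rfl⟩ := mem_sup.1 hx
    obtain ⟨a, rfl⟩ := mem_span_singleton.1 hv
    obtain ⟨c, hc⟩ := ih (fun i hi => hb i (by omega))
      (w + (a - round a) • (b k - gs b k)) (add_mem hw (smul_mem _ _ (sub_gs_mem b k)))
    refine ⟨fun i => if i = k then round a else c i, ?_⟩
    have e1 : ∑ i ∈ range (k + 1), (if i = k then round a else c i) • b i =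
        ∑ i ∈ range k, c i • b i + round a • b k := by
      rw [sum_range_succ, if_pos rfl]
      congr 1
      refine sum_congr rfl fun i hi => ?_
      rw [if_neg (by have := Finset.mem_range.1 hi; omega)]
    rw [e1]
    have e2 : w + a • b k - (∑ i ∈ range k, c i • b i + round a • b k) =
        (w + (a - round a) • (b k - gs b k) - ∑ i ∈ range k, c i • b i) +
          (a - round a) • gs b k := by
      rw [← Int.cast_smul_eq_zsmul ℝ (round a) (b k)]
      module
    have hmem : w + (a - round a) • (b k - gs b k) - ∑ i ∈ range k, c i • b i ∈ Vs b k := by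
      refine sub_mem (add_mem hw (smul_mem _ _ (sub_gs_mem b k))) (sum_mem fun i hi => ?_)
      rw [← Int.cast_smul_eq_zsmul ℝ]
      exact smul_mem _ _ (mem_Vs b (Finset.mem_range.1 hi))
    rw [e2, norm_add_sq_real, inner_smul_right, inner_gs_Vs b hmem, norm_smul, mul_pow,
      sum_range_succ]
    have h1 := abs_sub_round a
    have h2 : ‖a - round a‖ ^ 2 ≤ 1 / 4 := by
      rw [Real.norm_eq_abs]
      nlinarith [abs_nonneg (a - round a)]
    have h3 : 0 ≤ ‖gs b k‖ ^ 2 := by positivity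
    have h4 : rr b k = ‖gs b k‖ := rfl
    rw [h4]
    nlinarith

end Run7.h406
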