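import Pool.Agent.Run7.h406.GS2

/-!
Gram determinants and Gram-Schmidt norms.
-/

set_option autoImplicit false
set_option linter.unusedSectionVars false

namespace Run7.h406

open Module Submodule Finset Matrix

variable {E : Type*} [NormedAddCommGroup E] [InnerProductSpace ℝ E] [FiniteDimensional ℝ E]

/-- Gram matrix of a linear combination -/
theorem gram_comb {m k : ℕ} (c : Fin m → E) (M : Matrix (Fin m) (Fin k) ℝ) :
    gram ℝ (fun j => ∑ i, M i j • c i) = Mᵀ * gram ℝ c * M := by
  ext j l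
  rw [gram_apply, sum_inner]
  simp_rw [inner_sum, inner_smul_left, inner_smul_right]
  rw [Matrix.mul_apply]
  simp_rw [Matrix.mul_apply, Matrix.transpose_apply, gram_apply, Finset.sum_mul]
  rw [Finset.sum_comm]
  refine Finset.sum_congr rfl fun i _ => Finset.sum_congr rfl fun i' _ => ?_
  simp only [conj_trivial]
  ring

/-- the triangular matrix of the Gram-Schmidt process -/
noncomputable def Tm (b : ℕ → E) (k : ℕ) : Matrix (Fin k) (Fin k) ℝ :=
  fun i j => if (i : ℕ) < j then inner ℝ (gs b i) (b j) / ‖gs b i‖ ^ 2 else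
    if i = j then 1 else 0

theorem expand_gs (b : ℕ → E) (k : ℕ) (j : Fin k) :
    b j = ∑ i : Fin k, Tm b k i j • gs b i := by
  have h := InnerProductSpace.gramSchmidt_def'' ℝ b (j : ℕ)
  simp_rw [← gs_eq_gramSchmidt] at h
  have e : ∀ i : Fin k, Tm b k i j • gs b i =
      (fun l : ℕ => (if l < j then inner ℝ (gs b l) (b j) / ‖gs b l‖ ^ 2 else
        if l = j then 1 else 0) • gs b l) (i : ℕ) := by
    intro i
    simp only [Tm, Fin.ext_iff]
  rw [Finset.sum_congr rfl (fun i _ => e i),
    Fin.sum_univ_eq_sum_range (fun l : ℕ => (if l < j then inner ℝ (gs b l) (b j) / ‖gs b l‖ ^ 2 else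
        if l = j then 1 else 0) • gs b l) k]
  have hj : (j : ℕ) + 1 ≤ k := j.2
  rw [← Finset.sum_range_add_sum_Ico _ hj, Finset.sum_range_succ]
  have z : ∑ l ∈ Finset.Ico ((j : ℕ) + 1) k,
      (if l < j then inner ℝ (gs b l) (b j) / ‖gs b l‖ ^ 2 else
        if l = j then 1 else 0) • gs b l = 0 := by
    refine Finset.sum_eq_zero fun l hl => ?_
    have := Finset.mem_Ico.1 hl
    rw [if_neg (by omega), if_neg (by omega), zero_smul]
  rw [z, add_zero, if_neg (lt_irrefl _), if_pos rfl, one_smul]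
  conv_lhs => rw [h]
  rw [add_comm]
  congr 1
  refine Finset.sum_congr (by ext x; simp) fun l hl => ?_
  rw [if_pos (Finset.mem_range.1 hl)]
  rfl

theorem det_Tm (b : ℕ → E) (k : ℕ) : (Tm b k).det = 1 := by
  rw [Matrix.det_of_isUpperTriangular]
  · refine Finset.prod_eq_one fun i _ => ?_
    simp [Tm]
  · intro i j hij
    have h1 : ¬ ((i : ℕ) < j) := by
      have : (j : ℕ) < i := hij
      omega
    have h2 : i ≠ j := fun h => by
      have : (j : ℕ) < i := hij
      rw [h] at this
      exact lt_irrefl _ this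
    simp [Tm, h1, h2]

/-- Gram determinant as a product of squared Gram-Schmidt norms -/
theorem det_gram_eq (b : ℕ → E) (k : ℕ) :
    (gram ℝ (fun i : Fin k => b i)).det = ∏ i ∈ range k, rr b i ^ 2 := by
  have h : (fun i : Fin k => b i) = fun j : Fin k => ∑ i : Fin k, Tm b k i j • gs b i := by
    funext j
    exact expand_gs b k j
  rw [h, gram_comb (fun i : Fin k => gs b i) (Tm b k), Matrix.det_mul, Matrix.det_mul,
    Matrix.det_transpose, det_Tm, one_mul, mul_one]
  have hd : gram ℝ (fun i : Fin k => gs b i) = Matrix.diagonal (fun i : Fin k => rr b i ^ 2) := by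
    ext i j
    rw [gram_apply, Matrix.diagonal_apply]
    by_cases hij : i = j
    · rw [if_pos hij, hij, real_inner_self_eq_norm_sq]; rfl
    · rw [if_neg hij]
      exact inner_gs_of_ne b (fun h' => hij (Fin.ext h'))
  rw [hd, Matrix.det_diagonal, Fin.prod_univ_eq_prod_range (fun i => rr b i ^ 2) k]

theorem rr_pos_iff (b : ℕ → E) (m : ℕ) :
    (∀ k < m, 0 < rr b k) ↔ LinearIndependent ℝ (fun i : Fin m => b i) := by
  rw [← det_gram_ne_zero_iff_linearIndependent (𝕜 := ℝ), det_gram_eq, Finset.prod_ne_zero_iff]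
  constructor
  · intro h k hk
    exact pow_ne_zero _ (h k (Finset.mem_range.1 hk)).ne'
  · intro h k hk
    refine lt_of_le_of_ne (rr_nonneg _ _) (fun h0 => h k (Finset.mem_range.2 hk) ?_)
    rw [← h0]; norm_num

theorem Vs_eq_span_range (b : ℕ → E) (m : ℕ) :
    Vs b m = span ℝ (Set.range (fun i : Fin m => b i)) := by
  unfold Vs
  congr 1
  ext x
  constructor
  · rintro ⟨i, hi, rfl⟩
    exact ⟨⟨i, hi⟩, rfl⟩
  · rintro ⟨i, rfl⟩
    exact ⟨i, i.2, rfl⟩

theorem finrank_Vs (b : ℕ → E) (m : ℕ) (h : ∀ k < m, 0 < rr b k) : finrank ℝ (Vs b m) = m := by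
  rw [Vs_eq_span_range, finrank_span_eq_card ((rr_pos_iff b m).1 h), Fintype.card_fin]

/-- change of the product under a linear map which is diagonal in an orthonormal family -/
theorem prod_rr_map (b : ℕ → E) (m : ℕ) (T : E →ₗ[ℝ] E) (f : Fin m → E)
    (M : Matrix (Fin m) (Fin m) ℝ) (hM : ∀ j : Fin m, b j = ∑ i, M i j • f i)
    (hf : gram ℝ f = 1) (s : Fin m → ℝ)
    (hs : gram ℝ (fun i => T (f i)) = Matrix.diagonal s) :
    ∏ i ∈ range m, rr (fun k => T (b k)) i ^ 2 = (∏ i ∈ range m, rr b i ^ 2) * ∏ i, s i := by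
  rw [← det_gram_eq, ← det_gram_eq]
  have h1 : (fun i : Fin m => b i) = fun j : Fin m => ∑ i : Fin m, M i j • f i := by
    funext j; exact hM j
  have h2 : (fun i : Fin m => T (b i)) = fun j : Fin m => ∑ i : Fin m, M i j • T (f i) := by
    funext j
    rw [hM j, map_sum]
    simp_rw [map_smul]
  rw [h1, h2, gram_comb f M, gram_comb (fun i => T (f i)) M, hf, hs, Matrix.det_mul,
    Matrix.det_mul, Matrix.det_mul, Matrix.det_mul, Matrix.det_diagonal, Matrix.det_one]
  ring

/-- integer combinations: the product can only grow -/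
theorem prod_rr_comb (b w : ℕ → E) (m : ℕ) (N : Matrix (Fin m) (Fin m) ℝ)
    (hN : ∀ j : Fin m, w j = ∑ i : Fin m, N i j • b i) :
    ∏ i ∈ range m, rr w i ^ 2 = N.det ^ 2 * ∏ i ∈ range m, rr b i ^ 2 := by
  rw [← det_gram_eq, ← det_gram_eq]
  have h1 : (fun i : Fin m => w i) = fun j : Fin m => ∑ i : Fin m, N i j • b i := by
    funext j; exact hN j
  rw [h1, gram_comb (fun i : Fin m => b i) N, Matrix.det_mul, Matrix.det_mul,
    Matrix.det_transpose]
  ring

end Run7.h406
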