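import Pool.Agent.Run7.h406.GS3
import Pool.Agent.Run7.h406.Defs

/-!
The height and Gram-Schmidt norms.
-/

set_option autoImplicit false
set_option linter.unusedSectionVars false

namespace Run7.h406

open Module Submodule Finset Matrix MeasureTheory

variable {n : ℕ}

/-- `b 0, …, b (e-1)` is an integral basis of `B ∩ ℤ^n` -/
structure IsZB (B : Submodule ℝ (EE n)) (e : ℕ) (b : ℕ → EE n) : Prop where
  int : ∀ k < e, b k ∈ ZL n
  span : Vs b e = B
  pos : ∀ k < e, 0 < rr b k
  gen : ∀ x ∈ ZL n, x ∈ B → ∃ c : ℕ → ℤ, x = ∑ k ∈ range e, c k • b k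

theorem mem_latt {B : Submodule ℝ (EE n)} {x : B} : x ∈ latt B ↔ (x : EE n) ∈ ZL n := Iff.rfl

theorem height_eq {B : Submodule ℝ (EE n)} {e : ℕ} {b : ℕ → EE n} (h : IsZB B e b) :
    height B = ∏ k ∈ range e, rr b k := by
  have hBm : ∀ k : Fin e, b k ∈ B := fun k => by rw [← h.span]; exact mem_Vs b k.2
  let v : Fin e → B := fun k => ⟨b k, hBm k⟩
  have hli : LinearIndependent ℝ (fun k : Fin e => b k) := (rr_pos_iff b e).1 h.pos
  have hliv : LinearIndependent ℝ v := by
    have : LinearIndependent ℝ (B.subtype ∘ v) := hli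
    exact LinearIndependent.of_comp B.subtype this
  have hfr : finrank ℝ B = e := by rw [← h.span]; exact finrank_Vs b e h.pos
  have hspan : ⊤ ≤ Submodule.span ℝ (Set.range v) := by
    rw [LinearIndependent.span_eq_top_of_card_eq_finrank' hliv (by simp [hfr])]
  let bB : Basis (Fin e) ℝ B := Basis.mk hliv hspan
  have hbB : ∀ k, bB k = v k := fun k => Basis.mk_apply _ _ _
  let o : OrthonormalBasis (Fin e) ℝ B := (stdOrthonormalBasis ℝ B).reindex (finCongr hfr)
  have hL : latt B = Submodule.span ℤ (Set.range bB) := by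
    apply le_antisymm
    · intro x hx
      obtain ⟨c, hc⟩ := h.gen x (mem_latt.1 hx) x.2
      have : x = ∑ k : Fin e, c k • bB k := by
        apply Subtype.ext
        rw [AddSubmonoidClass.coe_finsetSum, hc,
          ← Fin.sum_univ_eq_sum_range (fun k => c k • b k) e]
        refine Finset.sum_congr rfl fun k _ => ?_
        rw [hbB]
        rfl
      rw [this]
      exact sum_mem fun k _ => smul_mem _ _ (subset_span ⟨k, rfl⟩)
    · rw [span_le]
      rintro _ ⟨k, rfl⟩
      rw [hbB]
      exact h.int k k.2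
  have hμ : ((stdOrthonormalBasis ℝ B).toBasis.addHaar : Measure B) = o.toBasis.addHaar := by
    rw [o.addHaar_eq_volume]; rfl
  unfold height
  rw [hL, hμ, ZLattice.covolume_eq_measure_fundamentalDomain _ _
    (ZSpan.isAddFundamentalDomain bB o.toBasis.addHaar),
    ZSpan.measureReal_fundamentalDomain bB o.toBasis.addHaar o.toBasis,
    measureReal_congr (ZSpan.fundamentalDomain_ae_parallelepiped o.toBasis _),
    measureReal_def, Basis.addHaar_self]
  have h1 : (o.toBasis.det bB) ^ 2 = (∏ k ∈ range e, rr b k) ^ 2 := by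
    rw [← Finset.prod_pow, ← det_gram_eq]
    have hg : gram ℝ (fun i : Fin e => b i) = gram ℝ (fun i : Fin e => bB i) := by
      ext i j
      rw [gram_apply, gram_apply, hbB, hbB]
      rfl
    have hb' : (fun j : Fin e => bB j) =
        fun j : Fin e => ∑ i, (o.toBasis.toMatrix bB) i j • o i := by
      funext j
      have := o.toBasis.sum_toMatrix_smul_self bB j
      simpa using this.symm
    rw [hg, hb', gram_comb (fun i => o i) (o.toBasis.toMatrix bB), Matrix.det_mul, Matrix.det_mul,
      Matrix.det_transpose, (gram_eq_one_iff_orthonormal).2 o.orthonormal, Matrix.det_one,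
      Basis.det_apply]
    ring
  have h2 : |o.toBasis.det bB| = ∏ k ∈ range e, rr b k := by
    rw [← abs_of_nonneg (Finset.prod_nonneg fun k _ => rr_nonneg b k)]
    exact (sq_eq_sq_iff_abs_eq_abs _ _).1 h1
  rw [h2]
  simp

end Run7.h406
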