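import Pool.Agent.Run7.h406.Angles

/-!
The lower bound.
-/

set_option autoImplicit false
set_option linter.unusedSectionVars false

namespace Run7.h406

open Module Submodule Finset Matrix MeasureTheory
open scoped ENNReal

variable {n : ℕ}

theorem infinite_of_lt {d e j : ℕ} (hj : 1 ≤ j) (hjd : j ≤ d) (hje : j ≤ e) (hdn : d < n)
    (hen : e < n) {A : Submodule ℝ (EE n)} (hA : A ∈ Jn n d e j) {β : ℝ} (hβ0 : 0 < β)
    (hβ : β < (n : ℝ) * (n - j) / (j * (n - d) * (n - e))) :
    {B | B ∈ Rn n e ∧ psi A B j ≤ height B ^ (-β)}.Infinite := by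
  intro hfin
  obtain ⟨hAd, hAJ⟩ := hA
  -- a positive lower bound for `psi` on the finite set
  obtain ⟨m, hm0, hm⟩ : ∃ m : ℝ, 0 < m ∧
      ∀ B ∈ {B | B ∈ Rn n e ∧ psi A B j ≤ height B ^ (-β)}, m ≤ psi A B j := by
    rcases Set.eq_empty_or_nonempty {B | B ∈ Rn n e ∧ psi A B j ≤ height B ^ (-β)} with h | h
    · exact ⟨1, one_pos, by rw [h]; simp⟩
    · obtain ⟨B0, hB0, hmin⟩ := Set.exists_min_image _ (fun B => psi A B j) hfin h
      exact ⟨psi A B0 j, psi_pos hj (by omega) (by rw [hB0.1.2]; omega) (hAJ B0 hB0.1), hmin⟩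
  obtain ⟨K, hK⟩ := going_up n
  have hn' : (0 : ℝ) < n := by exact_mod_cast (by omega : 0 < n)
  have hj' : (0 : ℝ) < j := by exact_mod_cast (by omega : 0 < j)
  have hnd : (0 : ℝ) < n - d := by
    have : (d : ℝ) < n := by exact_mod_cast hdn
    linarith
  have hne : (0 : ℝ) < n - e := by
    have : (e : ℝ) < n := by exact_mod_cast hen
    linarith
  have hnj : (0 : ℝ) < n - j := by
    have : (j : ℝ) < n := by exact_mod_cast (by omega : j < n)
    linarith
  obtain ⟨θ, hθ⟩ : ∃ θ : ℝ, θ = β * (n - e) * j / (n - j) := ⟨_, rfl⟩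
  have hθ0 : 0 < θ := by rw [hθ]; positivity
  have hθ1 : θ * ((n - d) / n) < 1 := by
    rw [hθ]
    rw [lt_div_iff₀ (by positivity)] at hβ
    have e1 : β * (n - e) * j / (n - j) * ((n - d) / n) =
        β * (j * (n - d) * (n - e)) / (n * (n - j)) := by
      field_simp
    rw [e1, div_lt_one (by positivity)]
    exact hβ
  obtain ⟨γ, hγ⟩ : ∃ γ : ℝ, γ = 1 - θ * ((n - d) / n) := ⟨_, rfl⟩
  have hγ0 : 0 < γ := by rw [hγ]; linarith
  obtain ⟨q, hq, C, hC1, hC2, hC3⟩ := core hj hjd hdn A hAd (ε := γ / (2 * θ)) (by positivity)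
    (max (max 0 (-Real.log m + 1)) (β * |K| / (n - j) / (γ / 2)))
  have hq0 : 0 ≤ q := (le_max_left _ _).trans ((le_max_left _ _).trans hq)
  have hq1 : -Real.log m + 1 ≤ q := (le_max_right _ _).trans ((le_max_left _ _).trans hq)
  have hq2 : β * |K| / (n - j) ≤ γ / 2 * q := by
    have := (le_max_right _ _).trans hq
    rw [div_le_iff₀ (by positivity)] at this
    linarith
  obtain ⟨B, hB1, hB2, hB3⟩ := hK j e hje hen.le C hC1
  have hpsi : psi A B j ≤ Real.exp (-q) :=
    psi_le_of_close hj (by omega) hB2 hC1.2 hC2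
  have hHB := one_le_height hB1
  have hlog : β * Real.log (height B) ≤ q := by
    have h1 : (n - j : ℝ) * Real.log (height B) ≤
        (n - e) * (j * ((n - d) / n + γ / (2 * θ)) * q) + |K| := by
      refine hB3.trans (add_le_add (mul_le_mul_of_nonneg_left hC3 hne.le) (le_abs_self K))
    have h2 : Real.log (height B) ≤
        ((n - e) * (j * ((n - d) / n + γ / (2 * θ)) * q) + |K|) / (n - j) := by
      rw [le_div_iff₀ hnj]; linarith
    have h3 : β * Real.log (height B) ≤
        β * (((n - e) * (j * ((n - d) / n + γ / (2 * θ)) * q) + |K|) / (n - j)) :=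
      mul_le_mul_of_nonneg_left h2 hβ0.le
    have h4 : β * (((n - e) * (j * ((n - d) / n + γ / (2 * θ)) * q) + |K|) / (n - j)) =
        θ * ((n - d) / n) * q + θ * (γ / (2 * θ)) * q + β * |K| / (n - j) := by
      have : β * (((n - e) * (j * ((n - d) / n + γ / (2 * θ)) * q) + |K|) / (n - j)) =
        (β * (n - e) * j / (n - j)) * ((n - d) / n + γ / (2 * θ)) * q + β * |K| / (n - j) := by
        field_simp
      rw [this, ← hθ]; ring
    have h5 : θ * (γ / (2 * θ)) = γ / 2 := by field_simp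
    have h6 : θ * ((n - d) / n) = 1 - γ := by rw [hγ]; ring
    rw [h4, h5, h6] at h3
    linarith
  have hBS : B ∈ {B | B ∈ Rn n e ∧ psi A B j ≤ height B ^ (-β)} := by
    refine ⟨hB1, hpsi.trans ?_⟩
    rw [Real.rpow_def_of_pos (lt_of_lt_of_le one_pos hHB), Real.exp_le_exp]
    linarith
  have h1 := (hm B hBS).trans hpsi
  have h2 := Real.log_le_log hm0 h1
  rw [Real.log_exp] at h2
  linarith

/-- the lower bound for every admissible `A` -/
theorem lower {d e j : ℕ} (hj : 1 ≤ j) (hjd : j ≤ d) (hje : j ≤ e) (hdn : d < n)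
    (hen : e < n) {A : Submodule ℝ (EE n)} (hA : A ∈ Jn n d e j) :
    ENNReal.ofReal ((n : ℝ) * (n - j) / (j * (n - d) * (n - e))) ≤ muA A e j := by
  refine le_of_forall_lt fun c hc => ?_
  obtain ⟨r, hr0, hr1, hr2⟩ := ENNReal.lt_iff_exists_real_btwn.1 hc
  have hr3 : 0 < r := by
    by_contra h
    rw [ENNReal.ofReal_of_nonpos (not_lt.1 h)] at hr1
    exact not_lt_bot hr1
  have hr4 : r < (n : ℝ) * (n - j) / (j * (n - d) * (n - e)) := by
    by_contra h
    exact absurd hr2 (not_lt.2 (ENNReal.ofReal_le_ofReal (not_lt.1 h)))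
  refine lt_of_lt_of_le hr1 ?_
  unfold muA
  exact le_iSup₂_of_le r ⟨hr3, infinite_of_lt hj hjd hje hdn hen hA hr3 hr4⟩ le_rfl

end Run7.h406
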