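import Pool.Agent.Run7.h406.Lower

/-!
Volume estimates.
-/

set_option autoImplicit false
set_option linter.unusedSectionVars false

namespace Run7.h406

open Module Submodule Finset Matrix MeasureTheory
open scoped ENNReal

variable {n : ℕ}

/-- Gaussian elimination with bounded multipliers -/
theorem pivot {d : ℕ} (V : Submodule ℝ (Fin d → ℝ)) (j : ℕ) : j ≤ finrank ℝ V →
    ∃ J : Finset (Fin d), J.card = j ∧ ∀ i ∈ J, ∃ v ∈ V, v i = 1 ∧
      (∀ i' ∈ J, i' ≠ i → v i' = 0) ∧ ∀ l, |v l| ≤ 2 ^ j := by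
  induction j with
  | zero => intro _; exact ⟨∅, by simp, by simp⟩
  | succ j ih =>
    intro hj
    obtain ⟨J, hJ, hv⟩ := ih (by omega)
    let T : V →ₗ[ℝ] (J → ℝ) := LinearMap.pi fun i => (LinearMap.proj (i : Fin d)) ∘ₗ V.subtype
    have hT : LinearMap.ker T ≠ ⊥ := LinearMap.ker_ne_bot_of_finrank_lt (by
      rw [Module.finrank_fintype_fun_eq_card, Fintype.card_coe, hJ]; omega)
    obtain ⟨v0, hv0, hv0'⟩ := (Submodule.ne_bot_iff _).1 hT
    have hv1 : ∀ i ∈ J, (v0 : Fin d → ℝ) i = 0 := by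
      intro i hi
      have := congrFun (LinearMap.mem_ker.1 hv0) ⟨i, hi⟩
      simpa [T] using this
    have hne : ∃ l, (v0 : Fin d → ℝ) l ≠ 0 := by
      by_contra h
      push Not at h
      exact hv0' (Subtype.ext (funext h))
    obtain ⟨l0, hl0⟩ := hne
    have : Nonempty (Fin d) := ⟨l0⟩
    obtain ⟨i0, hi0⟩ := Finite.exists_max (fun i => |(v0 : Fin d → ℝ) i|)
    have hpos : 0 < |(v0 : Fin d → ℝ) i0| := lt_of_lt_of_le (abs_pos.2 hl0) (hi0 l0)
    have hne0 : (v0 : Fin d → ℝ) i0 ≠ 0 := abs_pos.1 hpos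
    set w : Fin d → ℝ := ((v0 : Fin d → ℝ) i0)⁻¹ • (v0 : Fin d → ℝ) with hw
    have hwV : w ∈ V := smul_mem _ _ v0.2
    have hw0 : w i0 = 1 := by simp [hw, hne0]
    have hwJ : ∀ i ∈ J, w i = 0 := by
      intro i hi; simp [hw, hv1 i hi]
    have hwb : ∀ l, |w l| ≤ 1 := by
      intro l
      simp only [hw, Pi.smul_apply, smul_eq_mul, abs_mul, abs_inv]
      rw [inv_mul_le_iff₀ hpos, mul_one]
      exact hi0 l
    have hi0J : i0 ∉ J := by
      intro h
      rw [hwJ i0 h] at hw0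
      exact zero_ne_one hw0
    have h2 : (1 : ℝ) ≤ 2 ^ j := one_le_pow₀ (by norm_num)
    refine ⟨insert i0 J, by rw [Finset.card_insert_of_notMem hi0J, hJ], ?_⟩
    intro i hi
    rcases Finset.mem_insert.1 hi with rfl | hi
    · refine ⟨w, hwV, hw0, ?_, ?_⟩
      · intro i' hi' hne
        rcases Finset.mem_insert.1 hi' with h | h
        · exact absurd h hne
        · exact hwJ i' h
      · intro l
        refine (hwb l).trans ?_
        rw [pow_succ]; linarith
    · obtain ⟨v, hvV, hv2, hv3, hv4⟩ := hv i hi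
      refine ⟨v - v i0 • w, sub_mem hvV (smul_mem _ _ hwV), ?_, ?_, ?_⟩
      · simp [hv2, hwJ i hi]
      · intro i' hi' hne
        rcases Finset.mem_insert.1 hi' with h | h
        · rw [h]; simp [hw0]
        · simp [hv3 i' h hne, hwJ i' h]
      · intro l
        simp only [Pi.sub_apply, Pi.smul_apply, smul_eq_mul]
        calc |v l - v i0 * w l| ≤ |v l| + |v i0 * w l| := abs_sub _ _
          _ ≤ 2 ^ j + 2 ^ j * 1 := by
            rw [abs_mul]
            exact add_le_add (hv4 l) (mul_le_mul (hv4 i0) (hwb l) (abs_nonneg _) (by positivity))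
          _ = 2 ^ (j + 1) := by ring

/-- the volume of a slab in the unit ball -/
theorem vol_slab (W : Submodule ℝ (EE n)) {m : ℕ} (hm : m + finrank ℝ W ≤ n) {s : ℝ}
    (hs : 0 ≤ s) : volume {x : EE n | ‖x‖ ≤ 1 ∧ ‖Wᗮ.starProjection x‖ ≤ s} ≤
      ENNReal.ofReal (2 ^ n * s ^ m) := by
  obtain ⟨u, hu1, hu2⟩ := exists_adapted_basis (N := n) (by simp) W
  set k := finrank ℝ W with hk
  set s' := min s 1 with hs'
  have hs'0 : 0 ≤ s' := le_min hs zero_le_one
  let r : ℕ → ℝ := fun i => if i < k then 1 else s'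
  have hr0 : ∀ i, 0 ≤ r i := by
    intro i; simp only [r]; split_ifs <;> linarith
  have hsub : {x : EE n | ‖x‖ ≤ 1 ∧ ‖Wᗮ.starProjection x‖ ≤ s} ⊆
      u.repr ⁻¹' ((@WithLp.ofLp 2 (Fin n → ℝ)) ⁻¹'
        (Set.pi Set.univ fun i : Fin n => Set.Icc (-(r i)) (r i))) := by
    rintro x ⟨hx1, hx2⟩
    intro i _
    refine abs_le.1 (?_ : |u.repr x i| ≤ r i)
    rw [u.repr_apply_apply]
    have h1 : |inner ℝ (u i) x| ≤ 1 := by
      refine (abs_real_inner_le_norm _ _).trans ?_
      rw [u.orthonormal.1 i, one_mul]; exact hx1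
    simp only [r]
    split_ifs with hi
    · exact h1
    · refine le_min ?_ h1
      have h2 : inner ℝ (u i) x = inner ℝ (u i) (Wᗮ.starProjection x) := by
        rw [← inner_starProjection_left_eq_right,
          (starProjection_eq_self_iff).2 (hu2 i (not_lt.1 hi))]
      rw [h2]
      refine (abs_real_inner_le_norm _ _).trans ?_
      rw [u.orthonormal.1 i, one_mul]; exact hx2
  refine (measure_mono hsub).trans ?_
  have hmeas : MeasurableSet (Set.pi Set.univ fun i : Fin n => Set.Icc (-(r i)) (r i)) :=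
    MeasurableSet.univ_pi fun i => measurableSet_Icc
  rw [(u.measurePreserving_repr).measure_preimage
    ((PiLp.volume_preserving_ofLp (Fin n)).measurable hmeas).nullMeasurableSet,
    (PiLp.volume_preserving_ofLp (Fin n)).measure_preimage hmeas.nullMeasurableSet, volume_pi_pi]
  simp_rw [Real.volume_Icc]
  rw [← ENNReal.ofReal_prod_of_nonneg (fun i _ => by linarith [hr0 i])]
  apply ENNReal.ofReal_le_ofReal
  have e1 : ∏ i : Fin n, (r i - -(r i)) = 2 ^ n * s' ^ (n - k) := by
    have e2 : ∀ i : Fin n, r i - -(r i) = 2 * r i := fun i => by ring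
    simp_rw [e2]
    rw [Finset.prod_mul_distrib, Finset.prod_const, Finset.card_univ, Fintype.card_fin,
      Fin.prod_univ_eq_prod_range (fun i => r i) n, ← Finset.prod_range_mul_prod_Ico r
      (by omega : k ≤ n)]
    rw [Finset.prod_eq_one (fun i hi => by simp [r, Finset.mem_range.1 hi]), one_mul,
      Finset.prod_congr rfl (fun i hi => by
        simp only [r]
        rw [if_neg (not_lt.2 (Finset.mem_Ico.1 hi).1)]), Finset.prod_const, Nat.card_Ico]
  rw [e1]
  refine mul_le_mul_of_nonneg_left ?_ (by positivity)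
  calc s' ^ (n - k) ≤ s' ^ m := pow_le_pow_of_le_one hs'0 (min_le_right _ _) (by omega)
    _ ≤ s ^ m := pow_le_pow_left₀ hs'0 (min_le_left _ _) m

/-- the vectors in `J` are close to the span of `B` and the remaining vectors -/
def FJ {d : ℕ} (B : Submodule ℝ (EE n)) (J : Finset (Fin d)) (s R : ℝ) :
    Set (Fin d → EE n) :=
  {X | (∀ k, ‖X k‖ ≤ 1) ∧ ∃ M : Fin d → Fin d → ℝ, (∀ i l, |M i l| ≤ R) ∧
    ∀ i ∈ J, ‖Bᗮ.starProjection (X i + ∑ l ∈ Finset.univ.filter (· ∉ J), M i l • X l)‖ ≤ s}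

theorem FJ_closed {d : ℕ} (B : Submodule ℝ (EE n)) (J : Finset (Fin d)) (s R : ℝ) :
    IsClosed (FJ B J s R) := by
  have hc : IsCompact {p : (Fin d → EE n) × (Fin d → Fin d → ℝ) | (∀ k, ‖p.1 k‖ ≤ 1) ∧
      (∀ i l, |p.2 i l| ≤ R) ∧
      ∀ i ∈ J, ‖Bᗮ.starProjection (p.1 i + ∑ l ∈ Finset.univ.filter (· ∉ J),
        p.2 i l • p.1 l)‖ ≤ s} := by
    refine Metric.isCompact_of_isClosed_isBounded ?_ ?_
    · simp only [Set.ofPred_and, Set.ofPred_forall]
      refine IsClosed.inter ?_ (IsClosed.inter ?_ ?_)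
      · exact isClosed_iInter fun k => isClosed_le (by fun_prop) continuous_const
      · exact isClosed_iInter fun i => isClosed_iInter fun l =>
          isClosed_le (by fun_prop) continuous_const
      · exact isClosed_iInter fun i => isClosed_iInter fun _ =>
          isClosed_le (by fun_prop) continuous_const
    · refine (Metric.isBounded_closedBall (x := (0 : (Fin d → EE n) × (Fin d → Fin d → ℝ)))
        (r := max 1 (max R 0))).subset ?_
      rintro ⟨X, M⟩ ⟨h1, h2, -⟩
      rw [Metric.mem_closedBall, dist_zero_right, Prod.norm_def]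
      refine max_le ?_ ?_
      · refine le_max_of_le_left ?_
        exact (pi_norm_le_iff_of_nonneg zero_le_one).2 h1
      · refine le_max_of_le_right ?_
        refine (pi_norm_le_iff_of_nonneg (le_max_right _ _)).2 fun i => ?_
        refine (pi_norm_le_iff_of_nonneg (le_max_right _ _)).2 fun l => ?_
        exact (h2 i l).trans (le_max_left _ _)
  have hi : FJ B J s R = Prod.fst '' {p : (Fin d → EE n) × (Fin d → Fin d → ℝ) |
      (∀ k, ‖p.1 k‖ ≤ 1) ∧ (∀ i l, |p.2 i l| ≤ R) ∧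
      ∀ i ∈ J, ‖Bᗮ.starProjection (p.1 i + ∑ l ∈ Finset.univ.filter (· ∉ J),
        p.2 i l • p.1 l)‖ ≤ s} := by
    ext X
    constructor
    · rintro ⟨h1, M, h2, h3⟩
      exact ⟨(X, M), ⟨h1, h2, h3⟩, rfl⟩
    · rintro ⟨⟨X, M⟩, ⟨h1, h2, h3⟩, rfl⟩
      exact ⟨h1, M, h2, h3⟩
  rw [hi]
  exact (hc.image continuous_fst).isClosed

end Run7.h406
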