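import Pool.Agent.Run7.h406.Measure

/-!
Volume estimates, second part.
-/

set_option autoImplicit false
set_option linter.unusedSectionVars false

namespace Run7.h406

open Module Submodule Finset Matrix MeasureTheory
open scoped ENNReal

variable {n : ℕ}

theorem norm_proj_le_of_le {B W : Submodule ℝ (EE n)} (h : B ≤ W) {x w : EE n} (hw : w ∈ W) :
    ‖Wᗮ.starProjection x‖ ≤ ‖Bᗮ.starProjection (x + w)‖ := by
  have h1 : Wᗮ.starProjection x = Wᗮ.starProjection (Bᗮ.starProjection (x + w)) := by
    have h2 : Bᗮ.starProjection (x + w) = x + w - B.starProjection (x + w) := by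
      rw [starProjection_orthogonal_val]
    rw [h2, map_sub, map_add, proj_self_zero W hw,
      proj_self_zero W (h (starProjection_apply_mem _ _)), sub_zero, add_zero]
  rw [h1]
  exact norm_starProjection_apply_le _ _

theorem vol_ball : volume {x : EE n | ‖x‖ ≤ 1} ≤ ENNReal.ofReal (2 ^ n) := by
  have h := vol_slab (n := n) (⊤ : Submodule ℝ (EE n)) (m := 0) (by simp) (le_refl 0)
  rw [pow_zero, mul_one] at h
  refine le_trans (measure_mono ?_) h
  intro x hx
  refine ⟨hx, ?_⟩
  rw [proj_self_zero ⊤ mem_top, norm_zero]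

theorem vol_FJ {d : ℕ} (B : Submodule ℝ (EE n)) (J : Finset (Fin d)) {s R : ℝ} (hs : 0 ≤ s)
    {m : ℕ} (hm : m + (finrank ℝ B + (d - J.card)) ≤ n) :
    volume (FJ B J s R) ≤ ENNReal.ofReal ((2 ^ n) ^ d * (2 ^ n * s ^ m) ^ J.card) := by
  set Φ := MeasurableEquiv.piEquivPiSubtypeProd (fun _ : Fin d => EE n) (fun i => i ∈ J) with hΦ
  have hmp : MeasurePreserving Φ volume (volume : Measure
      (({l : Fin d // l ∈ J} → EE n) × ({l : Fin d // l ∉ J} → EE n))) := by
    have h0 := volume_preserving_piEquivPiSubtypeProd (fun _ : Fin d => EE n) (fun i => i ∈ J)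
    have e : (Subtype.fintype fun i : Fin d => i ∈ J) = Finset.Subtype.fintype J :=
      Subsingleton.elim _ _
    rw [e] at h0
    exact h0
  have hF : MeasurableSet (FJ B J s R) := (FJ_closed B J s R).measurableSet
  have h1 : volume (FJ B J s R) = volume (Φ.symm ⁻¹' FJ B J s R) :=
    ((hmp.symm Φ).measure_preimage hF.nullMeasurableSet).symm
  have hS : MeasurableSet (Φ.symm ⁻¹' FJ B J s R) := Φ.symm.measurable hF
  set K' : Set ({l : Fin d // l ∉ J} → EE n) := {y | ∀ l, ‖y l‖ ≤ 1} with hK'
  have hK'm : MeasurableSet K' := by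
    have : IsClosed K' := by
      simp only [hK', Set.ofPred_forall]
      exact isClosed_iInter fun k => isClosed_le (by fun_prop) continuous_const
    exact this.measurableSet
  have hK'v : volume K' ≤ ENNReal.ofReal ((2 ^ n) ^ d) := by
    have e1 : K' = Set.pi Set.univ fun _ => {x : EE n | ‖x‖ ≤ 1} := by
      ext y; simp [hK']
    rw [e1, volume_pi_pi]
    calc ∏ _l : {l : Fin d // l ∉ J}, volume {x : EE n | ‖x‖ ≤ 1}
        ≤ ∏ _l : {l : Fin d // l ∉ J}, ENNReal.ofReal (2 ^ n) :=
          Finset.prod_le_prod' fun _ _ => vol_ball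
      _ = ENNReal.ofReal ((2 ^ n) ^ (Fintype.card {l : Fin d // l ∉ J})) := by
          rw [Finset.prod_const, Finset.card_univ, ← ENNReal.ofReal_pow (by positivity)]
      _ ≤ ENNReal.ofReal ((2 ^ n) ^ d) := by
          apply ENNReal.ofReal_le_ofReal
          refine pow_le_pow_right₀ (one_le_pow₀ (by norm_num)) ?_
          have := Fintype.card_subtype_le (fun l : Fin d => l ∉ J)
          rwa [Fintype.card_fin] at this
  have hcardJc : Fintype.card {l : Fin d // l ∉ J} = d - J.card := by
    rw [Fintype.card_subtype_compl, Fintype.card_fin, Fintype.card_coe]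
  rw [h1, Measure.volume_eq_prod, Measure.prod_apply_symm hS]
  have hint : ∀ y : {l : Fin d // l ∉ J} → EE n,
      volume ((fun x : {l : Fin d // l ∈ J} → EE n => (x, y)) ⁻¹' (Φ.symm ⁻¹' FJ B J s R)) ≤
        K'.indicator (fun _ => ENNReal.ofReal ((2 ^ n * s ^ m) ^ J.card)) y := by
    intro y
    by_cases hy : y ∈ K'
    · rw [Set.indicator_of_mem hy]
      set W : Submodule ℝ (EE n) := B ⊔ span ℝ (Set.range y) with hW
      have hWr : m + finrank ℝ W ≤ n := by
        have h2 := Submodule.finrank_add_le_finrank_add_finrank B (span ℝ (Set.range y))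
        have h3 := finrank_range_le_card (R := ℝ) y
        rw [hcardJc] at h3
        have h4 : finrank ℝ W ≤ finrank ℝ B + (d - J.card) := by
          refine h2.trans (add_le_add le_rfl ?_)
          exact h3
        omega
      have hsub : ((fun x : {l : Fin d // l ∈ J} → EE n => (x, y)) ⁻¹'
          (Φ.symm ⁻¹' FJ B J s R)) ⊆
          Set.pi Set.univ fun _ => {x : EE n | ‖x‖ ≤ 1 ∧ ‖Wᗮ.starProjection x‖ ≤ s} := by
        intro x hx
        obtain ⟨g1, M, -, g2⟩ := hx
        set X := Φ.symm (x, y) with hX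
        have hΦX : Φ X = (x, y) := by rw [hX]; exact Φ.apply_symm_apply _
        have hXx : ∀ i (h : i ∈ J), X i = x ⟨i, h⟩ := by
          intro i h
          have := congrArg (fun p => p.1 ⟨i, h⟩) hΦX
          exact this
        have hXy : ∀ i (h : i ∉ J), X i = y ⟨i, h⟩ := by
          intro i h
          have := congrArg (fun p => p.2 ⟨i, h⟩) hΦX
          exact this
        rintro ⟨i, hi⟩ -
        have g3 := g1 i
        have g4 := g2 i hi
        rw [hXx i hi] at g3 g4
        refine ⟨g3, ?_⟩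
        refine (norm_proj_le_of_le (B := B) (W := W) le_sup_left ?_).trans g4
        refine sum_mem fun l hl => smul_mem _ _ ?_
        have hl' : l ∉ J := (Finset.mem_filter.1 hl).2
        rw [hXy l hl']
        exact mem_sup_right (subset_span ⟨_, rfl⟩)
      refine (measure_mono hsub).trans ?_
      rw [volume_pi_pi]
      calc ∏ _l : {l : Fin d // l ∈ J},
            volume {x : EE n | ‖x‖ ≤ 1 ∧ ‖Wᗮ.starProjection x‖ ≤ s}
          ≤ ∏ _l : {l : Fin d // l ∈ J}, ENNReal.ofReal (2 ^ n * s ^ m) :=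
            Finset.prod_le_prod' fun _ _ => vol_slab W hWr hs
        _ = ENNReal.ofReal ((2 ^ n * s ^ m) ^ J.card) := by
            rw [Finset.prod_const, Finset.card_univ, Fintype.card_coe,
              ENNReal.ofReal_pow (by positivity)]
    · rw [Set.indicator_of_notMem hy]
      have he : ((fun x : {l : Fin d // l ∈ J} → EE n => (x, y)) ⁻¹'
          (Φ.symm ⁻¹' FJ B J s R)) = ∅ := by
        rw [Set.eq_empty_iff_forall_notMem]
        intro x hx
        obtain ⟨g1, -⟩ := hx
        apply hy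
        intro l
        have hΦX : Φ (Φ.symm (x, y)) = (x, y) := Φ.apply_symm_apply _
        have := congrArg (fun p => p.2 l) hΦX
        have h3 : y l = (Φ.symm (x, y)) l := this.symm
        rw [h3]
        exact g1 l
      rw [he, measure_empty]
  refine (lintegral_mono hint).trans ?_
  rw [lintegral_indicator_const hK'm, mul_comm, ENNReal.ofReal_mul (by positivity)]
  exact mul_le_mul_left hK'v _

/-- tuples for which `B` contains a direction close to a `j`-dimensional part of the span -/
def Bad {d : ℕ} (B : Submodule ℝ (EE n)) (j : ℕ) (δ : ℝ) : Set (Fin d → EE n) :=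
  {X | (∀ k, ‖X k‖ ≤ 1) ∧ ∃ V : Submodule ℝ (Fin d → ℝ), j ≤ finrank ℝ V ∧
    ∀ v ∈ V, ‖Bᗮ.starProjection (∑ k, v k • X k)‖ ≤ δ * ‖v‖}

theorem vol_Bad (n d j m : ℕ) : ∃ C : ℝ, 0 ≤ C ∧ ∀ B : Submodule ℝ (EE n),
    m + (finrank ℝ B + (d - j)) ≤ n → ∀ δ : ℝ, 0 ≤ δ →
    volume (Bad (d := d) B j δ) ≤ ENNReal.ofReal (C * δ ^ (m * j)) := by
  refine ⟨2 ^ d * ((2 ^ n) ^ d * (2 ^ n * (2 ^ j) ^ m) ^ j), by positivity, ?_⟩
  intro B hB δ hδ
  have hsub : Bad (d := d) B j δ ⊆
      ⋃ J ∈ Finset.univ.filter (fun J : Finset (Fin d) => J.card = j),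
        FJ B J (2 ^ j * δ) (2 ^ j) := by
    rintro X ⟨hX, V, hV1, hV2⟩
    obtain ⟨J, hJ, hv⟩ := pivot V j hV1
    rw [Set.mem_iUnion₂]
    refine ⟨J, by simp [hJ], hX, ?_⟩
    choose! v hvV hv1 hv2 hv3 using hv
    refine ⟨fun i l => if i ∈ J then v i l else 0, ?_, ?_⟩
    · intro i l
      change |(if i ∈ J then v i l else 0)| ≤ 2 ^ j
      split_ifs with h
      · exact hv3 i h l
      · rw [abs_zero]; positivity
    · intro i hi
      have e1 : ∑ k, v i k • X k = X i + ∑ l ∈ Finset.univ.filter (· ∉ J),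
          (if i ∈ J then v i l else 0) • X l := by
        rw [← Finset.sum_filter_add_sum_filter_not Finset.univ (· ∈ J)]
        congr 1
        · rw [Finset.sum_eq_single_of_mem i (by simp [hi])]
          · rw [hv1 i hi, one_smul]
          · intro k hk hne
            rw [hv2 i hi k (Finset.mem_filter.1 hk).2 hne, zero_smul]
        · simp only [if_pos hi]
      have h1 := hV2 (v i) (hvV i hi)
      rw [e1] at h1
      refine h1.trans ?_
      rw [mul_comm]
      refine mul_le_mul_of_nonneg_right ?_ hδ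
      refine (pi_norm_le_iff_of_nonneg (by positivity)).2 fun l => ?_
      rw [Real.norm_eq_abs]
      exact hv3 i hi l
  refine (measure_mono hsub).trans ((measure_biUnion_finset_le _ _).trans ?_)
  have hb : ∀ J ∈ Finset.univ.filter (fun J : Finset (Fin d) => J.card = j),
      volume (FJ B J (2 ^ j * δ) (2 ^ j)) ≤
        ENNReal.ofReal ((2 ^ n) ^ d * (2 ^ n * (2 ^ j * δ) ^ m) ^ j) := by
    intro J hJ
    have hJ' : J.card = j := (Finset.mem_filter.1 hJ).2
    have := vol_FJ (R := 2 ^ j) B J (s := 2 ^ j * δ) (by positivity) (m := m)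
      (by rw [hJ']; exact hB)
    rwa [hJ'] at this
  refine (Finset.sum_le_card_nsmul _ _ _ hb).trans ?_
  rw [nsmul_eq_mul]
  have hc : ((Finset.univ.filter (fun J : Finset (Fin d) => J.card = j)).card : ℝ≥0∞) ≤
      ENNReal.ofReal (2 ^ d) := by
    have h1 : (Finset.univ.filter (fun J : Finset (Fin d) => J.card = j)).card ≤ 2 ^ d := by
      refine (Finset.card_le_univ _).trans ?_
      rw [Fintype.card_finset, Fintype.card_fin]
    rw [ENNReal.ofReal_pow (by norm_num)]
    have h2 : ENNReal.ofReal 2 = 2 := by simp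
    rw [h2]
    exact_mod_cast h1
  refine (mul_le_mul_left hc _).trans ?_
  rw [← ENNReal.ofReal_mul (by positivity)]
  apply ENNReal.ofReal_le_ofReal
  apply le_of_eq
  rw [mul_pow (2 ^ j) δ m, ← mul_assoc (2 ^ n) _ (δ ^ m), mul_pow _ (δ ^ m) j, ← pow_mul]
  ring

end Run7.h406
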