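import Pool.Agent.Run7.h406.Sat

/-!
Reduction of bases by swaps.
-/

set_option autoImplicit false
set_option linter.unusedSectionVars false

namespace Run7.h406

open Module Submodule Finset Matrix MeasureTheory

section general

variable {E : Type*} [NormedAddCommGroup E] [InnerProductSpace ℝ E] [FiniteDimensional ℝ E]

/-- logarithm of a Gram-Schmidt norm -/
noncomputable def lr (b : ℕ → E) (k : ℕ) : ℝ := Real.log (rr b k)

/-- a potential which decreases under good swaps -/
noncomputable def pot (b : ℕ → E) (N : ℕ) : ℝ :=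
  ∑ k ∈ range N, (lr b k + ((N : ℝ) - k)) ^ 2

theorem pot_nonneg (b : ℕ → E) (N : ℕ) : 0 ≤ pot b N :=
  Finset.sum_nonneg fun _ _ => sq_nonneg _

theorem sum_two_diff {G : Type*} [AddCommGroup G] (F F' : ℕ → G) {i N : ℕ} (hi : i + 1 < N)
    (h : ∀ k, k ≠ i → k ≠ i + 1 → F k = F' k) :
    ∑ k ∈ range N, F k = ∑ k ∈ range N, F' k + ((F i - F' i) + (F (i + 1) - F' (i + 1))) := by
  have h1 : ∑ k ∈ range N, (F k - F' k) = ∑ k ∈ ({i, i + 1} : Finset ℕ), (F k - F' k) := by
    symm
    apply Finset.sum_subset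
    · intro k hk
      rw [Finset.mem_insert, Finset.mem_singleton] at hk
      rw [Finset.mem_range]
      omega
    · intro k _ hk
      rw [Finset.mem_insert, Finset.mem_singleton, not_or] at hk
      rw [h k hk.1 hk.2, sub_self]
  rw [Finset.sum_pair (by omega), Finset.sum_sub_distrib] at h1
  rw [← h1]
  abel

theorem swp_pot (b : ℕ → E) {i N : ℕ} (hi : i + 1 < N) (hpos : ∀ k < N, 0 < rr b k)
    (h : lr b (i + 1) + Real.log 2 / 2 < lr b i) :
    ∃ m : ℤ, pot (swp b i m) N ≤ pot b N - Real.log (4 / 3) := by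
  have hi0 := hpos i (by omega)
  have hi1 := hpos (i + 1) hi
  obtain ⟨m, hm⟩ := exists_swp_le b i hi0
  refine ⟨m, ?_⟩
  have hs0 : 0 < rr (swp b i m) i := lt_of_lt_of_le hi1 (rr_swp_self_pos b i m hi0 hi1)
  have hs1 : 0 < rr (swp b i m) (i + 1) := rr_swp_pos b i m hi hpos (i + 1) hi
  have e1 : lr (swp b i m) i + lr (swp b i m) (i + 1) = lr b i + lr b (i + 1) := by
    unfold lr
    rw [← Real.log_mul hs0.ne' hs1.ne', ← Real.log_mul hi0.ne' hi1.ne',
      rr_swp_mul b i m hi0.ne' hs0.ne']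
  have e2 : lr b (i + 1) ≤ lr (swp b i m) i :=
    Real.log_le_log hi1 (rr_swp_self_pos b i m hi0 hi1)
  have e3 : rr b (i + 1) ^ 2 ≤ 1 / 2 * rr b i ^ 2 := by
    have h1 : Real.log (2 * rr b (i + 1) ^ 2) ≤ Real.log (rr b i ^ 2) := by
      rw [Real.log_mul (by norm_num) (by positivity), Real.log_pow, Real.log_pow]
      unfold lr at h
      push_cast
      linarith
    have h2 := (Real.log_le_log_iff (by positivity) (by positivity)).1 h1
    linarith
  have e4 : lr (swp b i m) i ≤ lr b i - Real.log (4 / 3) / 2 := by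
    have h1 : rr (swp b i m) i ^ 2 * (4 / 3) ≤ rr b i ^ 2 := by nlinarith
    have h2 := Real.log_le_log (by positivity) h1
    rw [Real.log_mul (by positivity) (by norm_num), Real.log_pow, Real.log_pow] at h2
    unfold lr
    push_cast at h2
    linarith
  unfold pot
  rw [sum_two_diff (fun k => (lr (swp b i m) k + ((N : ℝ) - k)) ^ 2)
    (fun k => (lr b k + ((N : ℝ) - k)) ^ 2) hi (by
      intro k h1 h2
      simp only [lr]
      rw [rr_swp_of_ne b i m h1 h2])]
  have hl : 0 < Real.log (4 / 3) := Real.log_pos (by norm_num)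
  push_cast
  set a := lr b i
  set c := lr b (i + 1)
  set a' := lr (swp b i m) i
  set c' := lr (swp b i m) (i + 1)
  set A := (N : ℝ) - i with hA
  have hc' : c' = a + c - a' := by linarith
  have hA' : (N : ℝ) - (i + 1) = A - 1 := by rw [hA]; ring
  rw [hA', hc']
  have key : (a' + A) ^ 2 - (a + A) ^ 2 + ((a + c - a' + (A - 1)) ^ 2 - (c + (A - 1)) ^ 2) =
      2 * (a - a') * (c - a' - 1) := by ring
  rw [key]
  nlinarith

/-- reduction by swaps -/
theorem reduce (P : (ℕ → E) → Prop) (lo N : ℕ)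
    (hP : ∀ b i m, lo ≤ i → i + 1 < N → (∀ k < N, 0 < rr b k) → P b → P (swp b i m))
    (b : ℕ → E) (hb : P b) (hpos : ∀ k < N, 0 < rr b k) :
    ∃ b', P b' ∧ (∀ k < N, 0 < rr b' k) ∧ pot b' N ≤ pot b N ∧
      ∀ i, lo ≤ i → i + 1 < N → lr b' i ≤ lr b' (i + 1) + Real.log 2 / 2 := by
  have hl : 0 < Real.log (4 / 3) := Real.log_pos (by norm_num)
  have main : ∀ M : ℕ, ∀ b, P b → (∀ k < N, 0 < rr b k) → pot b N < M * Real.log (4 / 3) →
      ∃ b', P b' ∧ (∀ k < N, 0 < rr b' k) ∧ pot b' N ≤ pot b N ∧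
        ∀ i, lo ≤ i → i + 1 < N → lr b' i ≤ lr b' (i + 1) + Real.log 2 / 2 := by
    intro M
    induction M with
    | zero =>
      intro b _ _ h
      exact absurd (pot_nonneg b N) (by push_cast at h; linarith)
    | succ M ih =>
      intro b hb hpos h
      by_cases hc : ∀ i, lo ≤ i → i + 1 < N → lr b i ≤ lr b (i + 1) + Real.log 2 / 2
      · exact ⟨b, hb, hpos, le_rfl, hc⟩
      · push Not at hc
        obtain ⟨i, h1, h2, h3⟩ := hc
        obtain ⟨m, hm⟩ := swp_pot b h2 hpos h3
        obtain ⟨b', h4, h5, h6, h7⟩ := ih (swp b i m) (hP b i m h1 h2 hpos hb)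
          (rr_swp_pos b i m h2 hpos) (by push_cast at h; linarith)
        exact ⟨b', h4, h5, by linarith, h7⟩
  obtain ⟨M, hM⟩ := exists_nat_gt (pot b N / Real.log (4 / 3))
  exact main M b hb hpos ((div_lt_iff₀ hl).1 hM)

/-- near monotonicity over several steps -/
theorem near_mono {l : ℕ → ℝ} {lo N : ℕ} {κ : ℝ} (hκ : 0 ≤ κ)
    (h : ∀ i, lo ≤ i → i + 1 < N → l i ≤ l (i + 1) + κ) :
    ∀ i k, lo ≤ i → i ≤ k → k < N → l i ≤ l k + N * κ := by
  have main : ∀ i k, lo ≤ i → i ≤ k → k < N → l i ≤ l k + ((k : ℝ) - i) * κ := by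
    intro i k hi hik
    induction k, hik using Nat.le_induction with
    | base => intro _; simp
    | succ k hk ih =>
      intro hkN
      have h1 := ih (by omega)
      have h2 := h k (by omega) hkN
      push_cast
      linarith
  intro i k hi hik hk
  refine (main i k hi hik hk).trans ?_
  have h1 : (k : ℝ) - i ≤ N := by
    have : (k : ℝ) ≤ N := by exact_mod_cast hk.le
    have : (0 : ℝ) ≤ i := Nat.cast_nonneg i
    linarith
  nlinarith

/-- initial sums of nearly increasing sequences are small on average -/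
theorem avg_le {l : ℕ → ℝ} {N r : ℕ} {K : ℝ} (hr : r ≤ N)
    (h : ∀ i k, i < r → r ≤ k → k < N → l i ≤ l k + K) :
    N * ∑ i ∈ range r, l i ≤ r * ∑ i ∈ range N, l i + r * (N - r) * K := by
  have h1 : ∑ i ∈ range r, ∑ k ∈ Ico r N, l i ≤ ∑ i ∈ range r, ∑ k ∈ Ico r N, (l k + K) := by
    refine Finset.sum_le_sum fun i hi => Finset.sum_le_sum fun k hk => ?_
    exact h i k (Finset.mem_range.1 hi) (Finset.mem_Ico.1 hk).1 (Finset.mem_Ico.1 hk).2
  simp only [Finset.sum_const, Nat.card_Ico, Finset.card_range, nsmul_eq_mul,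
    Finset.sum_add_distrib] at h1
  rw [← Finset.mul_sum, Nat.cast_sub hr] at h1
  have h2 : ∑ i ∈ range N, l i = ∑ i ∈ range r, l i + ∑ k ∈ Ico r N, l k :=
    (Finset.sum_range_add_sum_Ico l hr).symm
  rw [h2]
  nlinarith

end general

variable {n : ℕ}

theorem isZB_swp {B : Submodule ℝ (EE n)} {e : ℕ} {b : ℕ → EE n} (h : IsZB B e b) {i : ℕ} (m : ℤ)
    (hi : i + 1 < e) : IsZB B e (swp b i m) where
  int := by
    intro k hk
    unfold swp
    split_ifs with h1 h2
    · exact sub_mem (h.int _ hi) (zsmul_mem (h.int i (by omega)) m)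
    · exact h.int i (by omega)
    · exact h.int k hk
  span := by rw [Vs_swp b i m (by omega), h.span]
  pos := rr_swp_pos b i m hi h.pos
  gen := by
    intro x hx hxB
    obtain ⟨c, hc⟩ := h.gen x hx hxB
    refine ⟨fun k => if k = i then c (i + 1) else if k = i + 1 then c i + m * c (i + 1) else c k, ?_⟩
    rw [hc, sum_two_diff (fun k => c k • b k) (fun k => (if k = i then c (i + 1) else
      if k = i + 1 then c i + m * c (i + 1) else c k) • swp b i m k) hi (by
        intro k h1 h2
        simp only [h1, h2, if_false]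
        rw [swp_of_ne b m h1 h2])]
    simp only [if_true, swp_self, swp_succ, Nat.succ_ne_self, if_false]
    simp only [← Int.cast_smul_eq_zsmul ℝ]
    push_cast
    module

theorem isZB_congr {B : Submodule ℝ (EE n)} {e : ℕ} {b b' : ℕ → EE n} (h : IsZB B e b)
    (hb : ∀ k < e, b' k = b k) : IsZB B e b' where
  int := fun k hk => by rw [hb k hk]; exact h.int k hk
  span := by rw [Vs_congr hb, h.span]
  pos := fun k hk => by
    rw [rr_congr (fun i hi => hb i (lt_of_le_of_lt hi hk))]; exact h.pos k hk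
  gen := by
    intro x hx hxB
    obtain ⟨c, hc⟩ := h.gen x hx hxB
    refine ⟨c, hc.trans (Finset.sum_congr rfl fun k hk => ?_)⟩
    rw [hb k (Finset.mem_range.1 hk)]

theorem sum_lr_eq (b : ℕ → EE n) (N : ℕ) (h : ∀ k < N, 0 < rr b k) :
    ∑ k ∈ range N, lr b k = Real.log (∏ k ∈ range N, rr b k) := by
  rw [Real.log_prod]
  · rfl
  · intro k hk
    exact (h k (Finset.mem_range.1 hk)).ne'

/-- Going up: a rational subspace of dimension `j` is contained in a rational subspace of
dimension `e` with small height. -/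
theorem going_up (n : ℕ) : ∃ K : ℝ, ∀ j e : ℕ, j ≤ e → e ≤ n → ∀ C ∈ Rn n j, ∃ B ∈ Rn n e, C ≤ B ∧
    ((n : ℝ) - j) * Real.log (height B) ≤ ((n : ℝ) - e) * Real.log (height C) + K := by
  refine ⟨n * n * (n * (Real.log 2 / 2)), ?_⟩
  intro j e hje hen C hC
  have hl2 : 0 < Real.log 2 := Real.log_pos (by norm_num)
  obtain ⟨z, hzC, hz⟩ := exists_adapted hC
  obtain ⟨b, ⟨hb1, hb2⟩, hb3, -, hb4⟩ := reduce (E := EE n)
    (fun b => (∀ k < j, b k = z k) ∧ IsZB (⊤ : Submodule ℝ (EE n)) n b) j n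
    (by
      rintro b i m h1 h2 _ ⟨h4, h5⟩
      exact ⟨fun k hk => by rw [swp_of_ne b m (by omega) (by omega), h4 k hk], isZB_swp h5 m h2⟩)
    z ⟨fun k _ => rfl, hz⟩ hz.pos
  have hbe : ∀ k < e, 0 < rr b k := fun k hk => hb3 k (by omega)
  have hbi : ∀ k < e, b k ∈ ZL n := fun k hk => hb2.int k (by omega)
  refine ⟨Vs b e, Vs_mem_Rn hbi hbe, ?_, ?_⟩
  · rw [← hzC.span, ← Vs_congr hb1]
    exact Vs_mono b hje
  · have hC' : height C = ∏ k ∈ range j, rr b k := height_eq (isZB_congr hzC hb1)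
    have hB' : height (Vs b e) ≤ ∏ k ∈ range e, rr b k := height_le hbi hbe
    have hlB : Real.log (height (Vs b e)) ≤ ∑ k ∈ range e, lr b k := by
      rw [sum_lr_eq b e hbe]
      exact Real.log_le_log (lt_of_lt_of_le one_pos (one_le_height (Vs_mem_Rn hbi hbe))) hB'
    have hlC : Real.log (height C) = ∑ k ∈ range j, lr b k := by
      rw [sum_lr_eq b j (fun k hk => hb3 k (by omega)), hC']
    have hln : ∑ k ∈ range n, lr b k = 0 := by
      rw [sum_lr_eq b n hb3, prod_rr_top hb2, Real.log_one]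
    have hnm := near_mono (l := lr b) (lo := j) (N := n) (κ := Real.log 2 / 2) (by positivity) hb4
    have ha := avg_le (l := fun k => lr b (j + k)) (N := n - j) (r := e - j)
      (K := n * (Real.log 2 / 2)) (by omega) (by
        intro i k h1 h2 h3
        exact hnm (j + i) (j + k) (by omega) (by omega) (by omega))
    have s1 : ∑ i ∈ range (e - j), lr b (j + i) = ∑ k ∈ range e, lr b k - ∑ k ∈ range j, lr b k := by
      have := Finset.sum_range_add_sum_Ico (lr b) hje
      rw [← this, Finset.sum_Ico_eq_sum_range]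
      ring
    have s2 : ∑ i ∈ range (n - j), lr b (j + i) = - ∑ k ∈ range j, lr b k := by
      have := Finset.sum_range_add_sum_Ico (lr b) (hje.trans hen)
      rw [hln, Finset.sum_Ico_eq_sum_range] at this
      linarith
    rw [s1, s2, Nat.cast_sub (hje.trans hen), Nat.cast_sub hje] at ha
    have hjn : (j : ℝ) ≤ n := by exact_mod_cast hje.trans hen
    have hje' : (j : ℝ) ≤ e := by exact_mod_cast hje
    have hen' : (e : ℝ) ≤ n := by exact_mod_cast hen
    have hj0 : (0 : ℝ) ≤ j := Nat.cast_nonneg j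
    have k1 : ((n : ℝ) - j) * Real.log (height (Vs b e)) ≤
        ((n : ℝ) - j) * ∑ k ∈ range e, lr b k :=
      mul_le_mul_of_nonneg_left hlB (by linarith)
    have k2 : ((e : ℝ) - j) * (n - j - (e - j)) * (n * (Real.log 2 / 2)) ≤
        n * n * (n * (Real.log 2 / 2)) := by
      apply mul_le_mul_of_nonneg_right _ (by positivity)
      apply mul_le_mul <;> linarith
    rw [hlC]
    nlinarith

/-- A rational subspace has an integral basis with small norms. -/
theorem exists_reduced (n : ℕ) : ∃ K : ℝ, 0 < K ∧ ∀ e : ℕ, ∀ B ∈ Rn n e, ∃ b : ℕ → EE n,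
    (∀ k < e, b k ∈ ZL n) ∧ Vs b e = B ∧ ∏ k ∈ range e, ‖b k‖ ≤ K ^ e * height B := by
  refine ⟨1 + n * Real.exp (n * (Real.log 2 / 2)), by positivity, ?_⟩
  intro e B hB
  have hl2 : 0 < Real.log 2 := Real.log_pos (by norm_num)
  have hen : e ≤ n := by
    rw [← hB.2]
    simpa using Submodule.finrank_le B
  obtain ⟨z, hzB, -⟩ := exists_adapted hB
  obtain ⟨b, hb1, hb3, -, hb4⟩ := reduce (E := EE n)
    (fun b => IsZB B e b) 0 e (fun b i m h1 h2 _ h4 => isZB_swp h4 m h2) z hzB hzB.pos
  have hnm := near_mono (l := lr b) (lo := 0) (N := e) (κ := Real.log 2 / 2) (by positivity) hb4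
  have hrk : ∀ i k, i ≤ k → k < e → rr b i ≤ Real.exp (n * (Real.log 2 / 2)) * rr b k := by
    intro i k hik hk
    have h1 := hnm i k (Nat.zero_le _) hik hk
    have h2 : lr b i ≤ lr b k + n * (Real.log 2 / 2) := by
      have : (e : ℝ) ≤ n := by exact_mod_cast hen
      nlinarith
    have h3 := Real.exp_le_exp.2 h2
    unfold lr at h3
    rw [Real.exp_add, Real.exp_log (hb3 i (by omega)), Real.exp_log (hb3 k hk)] at h3
    linarith
  have hex : ∀ k, ∃ c : ℕ → ℤ, k < e →
      ‖(b k - gs b k) - ∑ i ∈ range k, c i • b i‖ ^ 2 ≤ 1 / 4 * ∑ i ∈ range k, rr b i ^ 2 := by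
    intro k
    by_cases hk : k < e
    · obtain ⟨c, hc⟩ := babai b k (fun i hi => hb3 i (by omega)) _ (sub_gs_mem b k)
      exact ⟨c, fun _ => hc⟩
    · exact ⟨0, fun h => absurd h hk⟩
  choose c hc using hex
  let b' : ℕ → EE n := fun k => b k - ∑ i ∈ range k, c k i • b i
  have hV : ∀ k, Vs b' k = Vs b k := by
    intro k
    induction k with
    | zero => rw [Vs_zero, Vs_zero]
    | succ k ih =>
      rw [Vs_succ, Vs_succ, ih]
      have hs : ∑ i ∈ range k, c k i • b i ∈ Vs b k := by
        refine sum_mem fun i hi => ?_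
        rw [← Int.cast_smul_eq_zsmul ℝ]
        exact smul_mem _ _ (mem_Vs b (Finset.mem_range.1 hi))
      apply le_antisymm
      · refine sup_le le_sup_left ?_
        rw [span_singleton_le_iff_mem]
        exact sub_mem (mem_sup_right (mem_span_singleton_self _)) (mem_sup_left hs)
      · refine sup_le le_sup_left ?_
        rw [span_singleton_le_iff_mem]
        have h1 : b k = b' k + ∑ i ∈ range k, c k i • b i := by
          simp only [b']; abel
        rw [h1]
        exact add_mem (mem_sup_right (mem_span_singleton_self _)) (mem_sup_left hs)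
  refine ⟨b', ?_, by rw [hV, hb1.span], ?_⟩
  · intro k hk
    refine sub_mem (hb1.int k hk) (sum_mem fun i hi => ?_)
    have := Finset.mem_range.1 hi
    exact zsmul_mem (hb1.int i (by omega)) _
  · rw [height_eq hb1, ← Finset.card_range e, ← Finset.prod_const, Finset.card_range,
      ← Finset.prod_mul_distrib]
    refine Finset.prod_le_prod (fun k _ => norm_nonneg _) fun k hk => ?_
    have hk' := Finset.mem_range.1 hk
    have h1 : b' k = gs b k + ((b k - gs b k) - ∑ i ∈ range k, c k i • b i) := by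
      simp only [b']; abel
    have h2 : ‖(b k - gs b k) - ∑ i ∈ range k, c k i • b i‖ ≤
        n * Real.exp (n * (Real.log 2 / 2)) * rr b k := by
      have h3 := hc k hk'
      have h4 : ∑ i ∈ range k, rr b i ^ 2 ≤
          k * (Real.exp (n * (Real.log 2 / 2)) * rr b k) ^ 2 := by
        have h5 : ∀ i ∈ range k, rr b i ^ 2 ≤ (Real.exp (n * (Real.log 2 / 2)) * rr b k) ^ 2 := by
          intro i hi
          exact pow_le_pow_left₀ (rr_nonneg _ _)
            (hrk i k (Finset.mem_range.1 hi).le hk') 2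
        have := Finset.sum_le_card_nsmul _ _ _ h5
        simpa using this
      have hkn : (k : ℝ) ≤ n := by exact_mod_cast (by omega : k ≤ n)
      have hn1 : (1 : ℝ) ≤ n := by exact_mod_cast (by omega : 1 ≤ n)
      have hR := rr_nonneg b k
      refine (pow_le_pow_iff_left₀ (norm_nonneg _) (by positivity) two_ne_zero).1 ?_
      refine h3.trans ?_
      have h6 : 0 ≤ (Real.exp (n * (Real.log 2 / 2)) * rr b k) ^ 2 := by positivity
      have h7 : (k : ℝ) ≤ n ^ 2 := by nlinarith
      have h8 : (n * Real.exp (n * (Real.log 2 / 2)) * rr b k) ^ 2 =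
          n ^ 2 * (Real.exp (n * (Real.log 2 / 2)) * rr b k) ^ 2 := by ring
      rw [h8]
      have h9 : 0 ≤ (k : ℝ) * (Real.exp (n * (Real.log 2 / 2)) * rr b k) ^ 2 := by positivity
      nlinarith
    calc ‖b' k‖ ≤ ‖gs b k‖ + ‖(b k - gs b k) - ∑ i ∈ range k, c k i • b i‖ := by
          rw [h1]; exact norm_add_le _ _
      _ ≤ rr b k + n * Real.exp (n * (Real.log 2 / 2)) * rr b k := add_le_add le_rfl h2
      _ = (1 + n * Real.exp (n * (Real.log 2 / 2))) * rr b k := by ring

end Run7.h406
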