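import Pool.Agent.Run7.h406.Height

/-!
Integral bases adapted to a rational subspace.
-/

set_option autoImplicit false
set_option linter.unusedSectionVars false

namespace Run7.h406

open Module Submodule Finset Matrix MeasureTheory

variable {n : ℕ}

/-- integer vectors as Euclidean vectors -/
noncomputable def emb (n : ℕ) : (Fin n → ℤ) →ₗ[ℤ] EE n where
  toFun x := WithLp.toLp 2 (fun i => (x i : ℝ))
  map_add' := by intro x y; ext i; simp
  map_smul' := by intro c x; ext i; simp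

theorem emb_apply (x : Fin n → ℤ) (i : Fin n) : emb n x i = (x i : ℝ) := rfl

theorem emb_mem (x : Fin n → ℤ) : emb n x ∈ ZL n := fun i => ⟨x i, rfl⟩

theorem exists_emb {x : EE n} (hx : x ∈ ZL n) : ∃ y : Fin n → ℤ, emb n y = x := by
  choose y hy using hx
  exact ⟨y, by ext i; rw [emb_apply, hy]⟩

/-- standard basis as a sequence -/
noncomputable def stdb (n : ℕ) (k : ℕ) : EE n :=
  if h : k < n then EuclideanSpace.single ⟨k, h⟩ (1 : ℝ) else 0

theorem stdb_of_lt {k : ℕ} (h : k < n) : stdb n k = EuclideanSpace.single ⟨k, h⟩ (1 : ℝ) := by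
  simp [stdb, h]

theorem gram_stdb : gram ℝ (fun i : Fin n => stdb n i) = 1 := by
  have : (fun i : Fin n => stdb n i) = fun i => EuclideanSpace.single i (1 : ℝ) := by
    funext i; exact stdb_of_lt i.2
  rw [this, gram_eq_one_iff_orthonormal]
  exact EuclideanSpace.orthonormal_single

theorem expand_stdb (x : EE n) : x = ∑ k : Fin n, x k • stdb n k := by
  ext i
  simp only [PiLp.smul_apply, smul_eq_mul, WithLp.ofLp_sum, Finset.sum_apply]
  rw [Finset.sum_eq_single i]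
  · rw [stdb_of_lt i.2]; simp
  · intro k _ hk
    rw [stdb_of_lt k.2]; simp [Ne.symm hk]
  · simp

theorem prod_stdb : ∏ k ∈ range n, rr (stdb n) k = 1 := by
  have h := det_gram_eq (stdb n) n
  rw [gram_stdb, Matrix.det_one, Finset.prod_pow] at h
  have h0 : 0 ≤ ∏ k ∈ range n, rr (stdb n) k := Finset.prod_nonneg fun k _ => rr_nonneg _ k
  nlinarith

theorem isZB_stdb : IsZB (⊤ : Submodule ℝ (EE n)) n (stdb n) where
  int := by
    intro k hk i
    rw [stdb_of_lt hk]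
    by_cases h : i = ⟨k, hk⟩
    · exact ⟨1, by simp [h]⟩
    · exact ⟨0, by simp [h]⟩
  span := by
    rw [Vs_eq_span_range, eq_top_iff]
    intro x _
    rw [expand_stdb x]
    exact sum_mem fun k _ => smul_mem _ _ (subset_span ⟨k, rfl⟩)
  pos := by
    rw [rr_pos_iff, ← det_gram_ne_zero_iff_linearIndependent (𝕜 := ℝ), gram_stdb, Matrix.det_one]
    exact one_ne_zero
  gen := by
    intro x hx _
    choose y hy using hx
    refine ⟨fun k => if h : k < n then y ⟨k, h⟩ else 0, ?_⟩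
    rw [← Fin.sum_univ_eq_sum_range (fun k => (if h : k < n then y ⟨k, h⟩ else 0) • stdb n k) n]
    conv_lhs => rw [expand_stdb x]
    refine Finset.sum_congr rfl fun k _ => ?_
    rw [dif_pos k.2, hy k, Int.cast_smul_eq_zsmul]

theorem prod_rr_top {z : ℕ → EE n} (hz : IsZB (⊤ : Submodule ℝ (EE n)) n z) :
    ∏ k ∈ range n, rr z k = 1 := by
  rw [← height_eq hz, height_eq isZB_stdb, prod_stdb]

/-- an integral multiple of a rational vector is integral -/
theorem exists_int_mul {x : EE n} (hx : ∀ i, ∃ q : ℚ, x i = (q : ℝ)) :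
    ∃ D : ℤ, D ≠ 0 ∧ D • x ∈ ZL n := by
  choose q hq using hx
  refine ⟨∏ i, ((q i).den : ℤ), ?_, ?_⟩
  · exact Finset.prod_ne_zero_iff.2 fun i _ => by exact_mod_cast (q i).den_nz
  · intro i
    refine ⟨(∏ k ∈ Finset.univ.erase i, ((q k).den : ℤ)) * (q i).num, ?_⟩
    have h1 : (∏ k, ((q k).den : ℤ)) = (∏ k ∈ Finset.univ.erase i, ((q k).den : ℤ)) * (q i).den := by
      rw [Finset.prod_erase_mul _ _ (Finset.mem_univ i)]
    rw [h1, ← Int.cast_smul_eq_zsmul ℝ, PiLp.smul_apply, hq, smul_eq_mul]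
    push_cast
    rw [mul_assoc]
    congr 1
    have := Rat.den_mul_eq_num (q i)
    exact_mod_cast this

/-- integral bases adapted to a rational subspace -/
theorem exists_adapted {B : Submodule ℝ (EE n)} {e : ℕ} (hB : B ∈ Rn n e) :
    ∃ z : ℕ → EE n, IsZB B e z ∧ IsZB (⊤ : Submodule ℝ (EE n)) n z := by
  obtain ⟨⟨s, hs, hsB⟩, hfr⟩ := hB
  let N : Submodule ℤ (Fin n → ℤ) := (B.restrictScalars ℤ).comap (emb n)
  have hN : ∀ y, y ∈ N ↔ emb n y ∈ B := fun y => Iff.rfl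
  obtain ⟨e', o, hno, bO, bN, a, hab⟩ :=
    Submodule.exists_smith_normal_form_of_le (Pi.basisFun ℤ (Fin n)) N ⊤ le_top
  have ho : o = n := by
    have h1 := bO.map (LinearEquiv.ofTop _ rfl)
    have h2 := h1.indexEquiv (Pi.basisFun ℤ (Fin n))
    simpa using Fintype.card_congr h2
  subst ho
  let z : ℕ → EE o := fun k => if h : k < o then emb o (bO ⟨k, h⟩ : Fin o → ℤ) else 0
  have hz : ∀ k (h : k < o), z k = emb o (bO ⟨k, h⟩ : Fin o → ℤ) := by
    intro k h; simp [z, h]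
  have hint : ∀ k < o, z k ∈ ZL o := by
    intro k h; rw [hz k h]; exact emb_mem _
  have hgen : ∀ x ∈ ZL o, ∃ c : ℕ → ℤ, x = ∑ k ∈ range o, c k • z k := by
    intro x hx
    obtain ⟨y, rfl⟩ := exists_emb hx
    have h1 := bO.sum_repr ⟨y, mem_top⟩
    have h2 : y = ∑ i, (bO.repr ⟨y, mem_top⟩ i) • (bO i : Fin o → ℤ) := by
      have := congrArg Subtype.val h1
      refine this.symm.trans ?_
      rw [AddSubmonoidClass.coe_finsetSum]
      rfl
    refine ⟨fun k => if h : k < o then bO.repr ⟨y, mem_top⟩ ⟨k, h⟩ else 0, ?_⟩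
    rw [← Fin.sum_univ_eq_sum_range
      (fun k => (if h : k < o then bO.repr ⟨y, mem_top⟩ ⟨k, h⟩ else 0) • z k) o]
    conv_lhs => rw [h2, map_sum]
    refine Finset.sum_congr rfl fun k _ => ?_
    rw [dif_pos k.2, hz k k.2, map_smul]
  have hspan : Vs z o = ⊤ := by
    rw [← isZB_stdb.span]
    apply le_antisymm
    · rw [isZB_stdb.span]; exact le_top
    · rw [Vs, span_le]
      rintro _ ⟨k, hk, rfl⟩
      obtain ⟨c, hc⟩ := hgen (stdb o k) (isZB_stdb.int k hk)
      rw [hc]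
      refine sum_mem fun i hi => ?_
      rw [← Int.cast_smul_eq_zsmul ℝ]
      exact smul_mem _ _ (mem_Vs z (Finset.mem_range.1 hi))
  have hli : LinearIndependent ℝ (fun i : Fin o => z i) := by
    refine linearIndependent_of_top_le_span_of_card_eq_finrank ?_ (by simp)
    rw [← Vs_eq_span_range, hspan]
  have hpos : ∀ k < o, 0 < rr z k := (rr_pos_iff z o).2 hli
  have hzB : ∀ k < e', z k ∈ B := by
    intro k hk
    have h1 := hab ⟨k, hk⟩
    have h2 : a ⟨k, hk⟩ ≠ 0 := by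
      intro h0
      rw [h0, zero_smul] at h1
      exact bN.ne_zero ⟨k, hk⟩ (Subtype.ext h1)
    have h3 : emb o (bN ⟨k, hk⟩ : Fin o → ℤ) ∈ B := (bN ⟨k, hk⟩).2
    rw [h1, map_smul, ← Int.cast_smul_eq_zsmul ℝ] at h3
    have h4 : (a ⟨k, hk⟩ : ℝ) ≠ 0 := by exact_mod_cast h2
    have h5 := smul_mem B ((a ⟨k, hk⟩ : ℝ)⁻¹) h3
    rw [smul_smul, inv_mul_cancel₀ h4, one_smul] at h5
    rw [hz k (lt_of_lt_of_le hk hno)]
    exact h5
  have hgenB : ∀ x ∈ ZL o, x ∈ B → ∃ c : ℕ → ℤ, x = ∑ k ∈ range e', c k • z k := by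
    intro x hx hxB
    obtain ⟨y, rfl⟩ := exists_emb hx
    have hyN : y ∈ N := hxB
    have h1 := bN.sum_repr ⟨y, hyN⟩
    have h2 : y = ∑ i, (bN.repr ⟨y, hyN⟩ i) • (bN i : Fin o → ℤ) := by
      have := congrArg Subtype.val h1
      refine this.symm.trans ?_
      rw [AddSubmonoidClass.coe_finsetSum]
      rfl
    refine ⟨fun k => if h : k < e' then bN.repr ⟨y, hyN⟩ ⟨k, h⟩ * a ⟨k, h⟩ else 0, ?_⟩
    rw [← Fin.sum_univ_eq_sum_range
      (fun k => (if h : k < e' then bN.repr ⟨y, hyN⟩ ⟨k, h⟩ * a ⟨k, h⟩ else 0) • z k) e']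
    conv_lhs => rw [h2, map_sum]
    refine Finset.sum_congr rfl fun k _ => ?_
    rw [dif_pos k.2, hz k (lt_of_lt_of_le k.2 hno), map_smul, hab k, map_smul, smul_smul]
    rfl
  have hspanB : Vs z e' = B := by
    apply le_antisymm
    · rw [Vs, span_le]
      rintro _ ⟨k, hk, rfl⟩
      exact hzB k hk
    · rw [← hsB, span_le]
      intro x hx
      obtain ⟨D, hD, hDx⟩ := exists_int_mul (hs x hx)
      have hxB : x ∈ B := by rw [← hsB]; exact subset_span hx
      obtain ⟨c, hc⟩ := hgenB (D • x) hDx (by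
        rw [← Int.cast_smul_eq_zsmul ℝ]; exact smul_mem _ _ hxB)
      have h1 : D • x ∈ Vs z e' := by
        rw [hc]
        refine sum_mem fun i hi => ?_
        rw [← Int.cast_smul_eq_zsmul ℝ]
        exact smul_mem _ _ (mem_Vs z (Finset.mem_range.1 hi))
      have hD' : (D : ℝ) ≠ 0 := by exact_mod_cast hD
      rw [← Int.cast_smul_eq_zsmul ℝ] at h1
      have h5 := smul_mem (Vs z e') ((D : ℝ)⁻¹) h1
      rwa [smul_smul, inv_mul_cancel₀ hD', one_smul] at h5
  have hee : e' = e := by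
    rw [← hfr, ← hspanB, finrank_Vs z e' (fun k hk => hpos k (lt_of_lt_of_le hk hno))]
  subst hee
  exact ⟨z, ⟨fun k hk => hint k (lt_of_lt_of_le hk hno), hspanB,
    fun k hk => hpos k (lt_of_lt_of_le hk hno), hgenB⟩,
    ⟨hint, hspan, hpos, fun x hx _ => hgen x hx⟩⟩

theorem zl_rat {x : EE n} (hx : x ∈ ZL n) : ∀ i, ∃ q : ℚ, x i = (q : ℝ) := by
  intro i
  obtain ⟨m, hm⟩ := hx i
  exact ⟨m, by rw [hm]; push_cast; rfl⟩

/-- the span of independent integer vectors is rational -/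
theorem Vs_mem_Rn {w : ℕ → EE n} {e : ℕ} (hw : ∀ k < e, w k ∈ ZL n) (hp : ∀ k < e, 0 < rr w k) :
    Vs w e ∈ Rn n e := by
  refine ⟨⟨w '' Set.Iio e, ?_, rfl⟩, finrank_Vs w e hp⟩
  rintro _ ⟨k, hk, rfl⟩
  exact zl_rat (hw k hk)

/-- the inner product of integer vectors is an integer -/
theorem inner_int {x y : EE n} (hx : x ∈ ZL n) (hy : y ∈ ZL n) :
    ∃ m : ℤ, inner ℝ x y = (m : ℝ) := by
  choose a ha using hx
  choose b hb using hy
  refine ⟨∑ i, a i * b i, ?_⟩
  rw [PiLp.inner_apply]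
  push_cast
  refine Finset.sum_congr rfl fun i _ => ?_
  rw [ha, hb]
  simp [mul_comm]

theorem one_le_prod_rr {w : ℕ → EE n} {e : ℕ} (hw : ∀ k < e, w k ∈ ZL n)
    (hp : ∀ k < e, 0 < rr w k) : 1 ≤ ∏ k ∈ range e, rr w k := by
  have h1 := det_gram_eq w e
  have h2 : ∃ m : ℤ, (gram ℝ (fun i : Fin e => w i)).det = (m : ℝ) := by
    have h3 : ∀ i j : Fin e, ∃ m : ℤ, inner ℝ (w i) (w j) = (m : ℝ) :=
      fun i j => inner_int (hw i i.2) (hw j j.2)
    choose M hM using h3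
    refine ⟨(Matrix.of M).det, ?_⟩
    have h4 : gram ℝ (fun i : Fin e => w i) = (Matrix.of M).map (Int.castRingHom ℝ) := by
      ext i j
      simp [gram_apply, hM]
    rw [h4, ← RingHom.mapMatrix_apply, ← RingHom.map_det]
    rfl
  obtain ⟨m, hm⟩ := h2
  rw [hm, Finset.prod_pow] at h1
  have hpos : 0 < ∏ k ∈ range e, rr w k :=
    Finset.prod_pos fun k hk => hp k (Finset.mem_range.1 hk)
  have h5 : (0 : ℝ) < m := by rw [h1]; positivity
  have h6 : (1 : ℝ) ≤ m := by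
    have : 0 < m := by exact_mod_cast h5
    exact_mod_cast this
  rw [h1] at h6
  nlinarith

theorem one_le_height {B : Submodule ℝ (EE n)} {e : ℕ} (hB : B ∈ Rn n e) : 1 ≤ height B := by
  obtain ⟨z, hz, -⟩ := exists_adapted hB
  rw [height_eq hz]
  exact one_le_prod_rr hz.int hz.pos

theorem height_le {w : ℕ → EE n} {e : ℕ} (hw : ∀ k < e, w k ∈ ZL n)
    (hp : ∀ k < e, 0 < rr w k) : height (Vs w e) ≤ ∏ k ∈ range e, rr w k := by
  obtain ⟨z, hz, -⟩ := exists_adapted (Vs_mem_Rn hw hp)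
  rw [height_eq hz]
  have h1 : ∀ j : Fin e, ∃ c : ℕ → ℤ, w j = ∑ k ∈ range e, c k • z k :=
    fun j => hz.gen (w j) (hw j j.2) (mem_Vs w j.2)
  choose c hc using h1
  let N : Matrix (Fin e) (Fin e) ℤ := fun i j => c j i
  have h2 := prod_rr_comb z w e (N.map (Int.castRingHom ℝ)) (by
    intro j
    conv_lhs => rw [hc j]
    rw [← Fin.sum_univ_eq_sum_range (fun k => c j k • z k) e]
    refine Finset.sum_congr rfl fun i _ => ?_
    simp only [N]
    rw [← Int.cast_smul_eq_zsmul ℝ]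
    rfl)
  rw [← RingHom.mapMatrix_apply, ← RingHom.map_det] at h2
  have hzp : 0 < ∏ k ∈ range e, rr z k :=
    Finset.prod_pos fun k hk => hz.pos k (Finset.mem_range.1 hk)
  have hwp : 0 < ∏ k ∈ range e, rr w k :=
    Finset.prod_pos fun k hk => hp k (Finset.mem_range.1 hk)
  rw [Finset.prod_pow, Finset.prod_pow] at h2
  have hd : N.det ≠ 0 := by
    intro h0
    rw [h0] at h2
    simp only [map_zero, ne_eq, OfNat.ofNat_ne_zero, not_false_eq_true, zero_pow, zero_mul] at h2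
    have : 0 < (∏ k ∈ range e, rr w k) ^ 2 := by positivity
    linarith
  have hd2 : (1 : ℝ) ≤ (Int.castRingHom ℝ N.det) ^ 2 := by
    have : 1 ≤ N.det ^ 2 := by
      have := sq_pos_of_ne_zero hd
      omega
    have h3 : (1 : ℝ) ≤ ((N.det ^ 2 : ℤ) : ℝ) := by exact_mod_cast this
    simpa using h3
  refine (pow_le_pow_iff_left₀ hzp.le hwp.le two_ne_zero).1 ?_
  rw [h2]
  nlinarith [sq_nonneg (∏ k ∈ range e, rr z k)]

end Run7.h406
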