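import Pool.Agent.Run7.h406.Measure2

/-!
The upper bound.
-/

set_option autoImplicit false
set_option linter.unusedSectionVars false

namespace Run7.h406

open Module Submodule Finset Matrix MeasureTheory
open scoped ENNReal

variable {n : ℕ}

theorem emb_injective : Function.Injective (emb n) := by
  intro x y h
  funext i
  have := congrArg (fun v : EE n => v i) h
  simp only [emb_apply] at this
  exact_mod_cast this

theorem summable_aux {ι E : Type*} [Fintype ι] [NormedAddCommGroup E] [NormedSpace ℝ E]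
    [FiniteDimensional ℝ E] (b : Basis ι ℝ E) {σ : ℝ} (hσ : (Fintype.card ι : ℝ) < σ) :
    Summable (fun x : span ℤ (Set.range b) => ‖(x : E)‖ ^ (-σ)) := by
  refine ZLattice.summable_norm_rpow (span ℤ (Set.range b)) (-σ) ?_
  rw [Module.finrank_eq_card_basis (b.restrictScalars ℤ)]
  linarith

theorem summable_aux2 {α ι E : Type*} [Fintype ι] [NormedAddCommGroup E] [NormedSpace ℝ E]
    [FiniteDimensional ℝ E] (b : Basis ι ℝ E) {σ : ℝ} (hσ : (Fintype.card ι : ℝ) < σ)
    (f : α → E) (hf : ∀ x, f x ∈ span ℤ (Set.range b)) (hi : Function.Injective f) :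
    Summable (fun x : α => ‖f x‖ ^ (-σ)) := by
  have h1 := summable_aux b hσ
  have h2 : Function.Injective (fun x : α => (⟨f x, hf x⟩ : span ℤ (Set.range b))) := by
    intro x y h
    exact hi (congrArg Subtype.val h)
  have h3 := h1.comp_injective h2
  refine h3.congr fun x => ?_
  simp only [Function.comp]

theorem emb_mem_span (x : Fin n → ℤ) :
    emb n x ∈ span ℤ (Set.range (EuclideanSpace.basisFun (Fin n) ℝ).toBasis) := by
  have h1 : emb n x = ∑ i, x i • (EuclideanSpace.basisFun (Fin n) ℝ).toBasis i := by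
    ext k
    rw [emb_apply, WithLp.ofLp_sum, Finset.sum_apply, Finset.sum_eq_single k]
    · simp
    · intro i _ hi
      simp [Ne.symm hi]
    · simp
  rw [h1]
  exact sum_mem fun i _ => smul_mem _ _ (subset_span ⟨i, rfl⟩)

theorem summable_emb {σ : ℝ} (hσ : (n : ℝ) < σ) :
    Summable (fun x : Fin n → ℤ => ‖emb n x‖ ^ (-σ)) :=
  summable_aux2 (EuclideanSpace.basisFun (Fin n) ℝ).toBasis (σ := σ) (by simpa using hσ)
    (emb n) emb_mem_span emb_injective

theorem summable_pi {α : Type*} {f : α → ℝ} (hf0 : ∀ x, 0 ≤ f x) (hf : Summable f) (e : ℕ) :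
    Summable (fun x : Fin e → α => ∏ i, f (x i)) := by
  induction e with
  | zero => exact Summable.of_finite
  | succ e ih =>
    rw [← (Fin.consEquiv (fun _ : Fin (e + 1) => α)).summable_iff]
    have h1 := hf.mul_of_nonneg ih hf0 (fun x => Finset.prod_nonneg fun i _ => hf0 _)
    refine h1.congr fun x => ?_
    simp [Fin.consEquiv, Fin.prod_univ_succ]

theorem summable_height (e : ℕ) {σ : ℝ} (hσ : (n : ℝ) < σ) :
    Summable (fun B : Rn n e => height (B : Submodule ℝ (EE n)) ^ (-σ)) := by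
  obtain ⟨K, hK0, hK⟩ := exists_reduced n
  have hσ0 : 0 < σ := lt_of_le_of_lt (Nat.cast_nonneg n) hσ
  choose b hb1 hb2 hb3 using fun B : Rn n e => hK e B.1 B.2
  have hex : ∀ (B : Rn n e) (k : Fin e), ∃ y : Fin n → ℤ, emb n y = b B k :=
    fun B k => exists_emb (hb1 B k k.2)
  choose φ hφ using hex
  have hφi : Function.Injective φ := by
    intro B B' h
    apply Subtype.ext
    rw [← hb2 B, ← hb2 B']
    refine Vs_congr fun k hk => ?_
    have h1 := hφ B ⟨k, hk⟩
    rw [h, hφ B' ⟨k, hk⟩] at h1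
    exact h1.symm
  have hs := (summable_pi (fun x => by positivity) (summable_emb (n := n) hσ) e).comp_injective hφi
  refine Summable.of_nonneg_of_le (fun B => ?_) (fun B => ?_) (hs.mul_left ((K ^ e) ^ σ))
  · exact Real.rpow_nonneg (zero_le_one.trans (one_le_height B.2)) _
  · have hpos : ∀ k < e, 0 < rr (b B) k := by
      rw [rr_pos_iff, linearIndependent_iff_card_eq_finrank_span, Set.finrank,
        ← Vs_eq_span_range, hb2 B, B.2.2, Fintype.card_fin]
    have h0 : ∀ k : Fin e, 0 < ‖emb n (φ B k)‖ := by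
      intro k
      rw [hφ]
      exact lt_of_lt_of_le (hpos k k.2) (rr_le_norm _ _)
    have h1 := hb3 B
    rw [← Fin.prod_univ_eq_prod_range (fun k => ‖b B k‖) e] at h1
    have h2 : ∏ i : Fin e, ‖b B i‖ = ∏ i : Fin e, ‖emb n (φ B i)‖ :=
      Finset.prod_congr rfl fun i _ => by rw [hφ]
    rw [h2] at h1
    have hprod : 0 < ∏ i : Fin e, ‖emb n (φ B i)‖ := Finset.prod_pos fun i _ => h0 i
    have h3 : (∏ i : Fin e, ‖emb n (φ B i)‖) / K ^ e ≤ height (B : Submodule ℝ (EE n)) := by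
      rw [div_le_iff₀ (by positivity)]; linarith
    have h4 := Real.rpow_le_rpow_of_nonpos (by positivity) h3 (by linarith : -σ ≤ 0)
    refine h4.trans (le_of_eq ?_)
    simp only [Function.comp]
    rw [Real.finsetProd_rpow _ _ (fun i _ => (h0 i).le), Real.div_rpow hprod.le (by positivity),
      Real.rpow_neg (by positivity : 0 ≤ K ^ e)]
    field_simp

theorem norm_comb_le {d : ℕ} {X : Fin d → EE n} (hX : ∀ k, ‖X k‖ ≤ 1) (v : Fin d → ℝ) :
    ‖∑ k, v k • X k‖ ≤ d * ‖v‖ := by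
  refine (norm_sum_le _ _).trans ?_
  have h1 : ∀ k ∈ (Finset.univ : Finset (Fin d)), ‖v k • X k‖ ≤ ‖v‖ := by
    intro k _
    rw [norm_smul]
    calc ‖v k‖ * ‖X k‖ ≤ ‖v‖ * 1 :=
          mul_le_mul (norm_le_pi_norm v k) (hX k) (norm_nonneg _) (norm_nonneg _)
      _ = ‖v‖ := mul_one _
  have h2 := Finset.sum_le_card_nsmul _ _ _ h1
  simpa using h2

/-- a close subspace of the span gives a bad tuple -/
theorem bad_of_close {d : ℕ} {X : Fin d → EE n} (hX : ∀ k, ‖X k‖ ≤ 1) {B V : Submodule ℝ (EE n)}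
    {j : ℕ} {t δ : ℝ} (hV : V ≤ span ℝ (Set.range X)) (hVj : j ≤ finrank ℝ V) (hVB : Close B V t)
    (ht : 0 ≤ t) (hδ : t * d ≤ δ) : X ∈ Bad (d := d) B j δ := by
  refine ⟨hX, V.comap (Fintype.linearCombination ℝ X), ?_, ?_⟩
  · have h1 : (V.comap (Fintype.linearCombination ℝ X)).map (Fintype.linearCombination ℝ X) = V := by
      rw [Submodule.map_comap_eq, Fintype.range_linearCombination, inf_eq_right]
      exact hV
    have h2 := Submodule.finrank_map_le (Fintype.linearCombination ℝ X)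
      (V.comap (Fintype.linearCombination ℝ X))
    rw [h1] at h2
    exact hVj.trans h2
  · intro v hv
    have h1 := hVB _ hv
    rw [Fintype.linearCombination_apply] at h1
    refine h1.trans ?_
    calc t * ‖∑ k, v k • X k‖ ≤ t * (d * ‖v‖) :=
          mul_le_mul_of_nonneg_left (norm_comb_le hX v) ht
      _ = t * d * ‖v‖ := by ring
      _ ≤ δ * ‖v‖ := mul_le_mul_of_nonneg_right hδ (norm_nonneg _)

theorem bad_of_dep {d : ℕ} {X : Fin d → EE n} (hX : ∀ k, ‖X k‖ ≤ 1)
    (h : ¬ LinearIndependent ℝ X) {δ : ℝ} (hδ : 0 ≤ δ) :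
    X ∈ Bad (d := d) (⊥ : Submodule ℝ (EE n)) 1 δ := by
  refine ⟨hX, LinearMap.ker (Fintype.linearCombination ℝ X), ?_, ?_⟩
  · rw [Nat.one_le_iff_ne_zero, Ne, Submodule.finrank_eq_zero]
    intro h0
    apply h
    rw [Fintype.linearIndependent_iff]
    intro g hg k
    have h1 : g ∈ LinearMap.ker (Fintype.linearCombination ℝ X) := by
      rw [LinearMap.mem_ker, Fintype.linearCombination_apply]; exact hg
    rw [h0, mem_bot] at h1
    rw [h1]; rfl
  · intro v hv
    rw [LinearMap.mem_ker, Fintype.linearCombination_apply] at hv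
    rw [hv, map_zero, norm_zero]
    positivity

/-- a set contained in all `Bad B j δ` is null -/
theorem null_of_bad {d j m : ℕ} (hm : 1 ≤ m) (hj : 1 ≤ j) {B : Submodule ℝ (EE n)}
    (hB : m + (finrank ℝ B + (d - j)) ≤ n) {S : Set (Fin d → EE n)}
    (hS : ∀ δ : ℝ, 0 < δ → S ⊆ Bad (d := d) B j δ) : volume S = 0 := by
  obtain ⟨C, hC0, hC⟩ := vol_Bad n d j m
  have h1 : ∀ ε : ℝ, 0 < ε → volume S ≤ ENNReal.ofReal ε := by
    intro ε hε
    have hδ : 0 < min 1 (ε / (C + 1)) := lt_min one_pos (by positivity)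
    refine (measure_mono (hS _ hδ)).trans ((hC B hB _ hδ.le).trans ?_)
    apply ENNReal.ofReal_le_ofReal
    have hmj : m * j ≠ 0 := Nat.mul_ne_zero (by omega) (by omega)
    have h2 : (min 1 (ε / (C + 1))) ^ (m * j) ≤ min 1 (ε / (C + 1)) :=
      pow_le_of_le_one hδ.le (min_le_left _ _) hmj
    calc C * (min 1 (ε / (C + 1))) ^ (m * j) ≤ (C + 1) * (ε / (C + 1)) := by
          refine mul_le_mul (by linarith) (h2.trans (min_le_right _ _)) (by positivity)
            (by positivity)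
      _ = ε := by field_simp
  by_contra hne
  have hpos : 0 < volume S := pos_iff_ne_zero.2 hne
  obtain ⟨r, hr0, hr1, hr2⟩ := ENNReal.lt_iff_exists_real_btwn.1 hpos
  have hr3 : 0 < r := by
    by_contra h
    rw [ENNReal.ofReal_of_nonpos (not_lt.1 h)] at hr1
    exact absurd hr1 (lt_irrefl _)
  exact absurd (h1 r hr3) (not_le.2 hr2)

theorem countable_Rn (n e : ℕ) : Countable (Rn n e) := by
  have h := (summable_height (n := n) e (σ := n + 1) (by linarith)).countable_support
  have h2 : Function.support (fun B : Rn n e =>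
      height (B : Submodule ℝ (EE n)) ^ (-((n : ℝ) + 1))) = Set.univ := by
    ext B
    simp only [Function.mem_support, Set.mem_univ, iff_true]
    exact (Real.rpow_pos_of_pos (lt_of_lt_of_le one_pos (one_le_height B.2)) _).ne'
  rw [h2] at h
  exact Set.countable_univ_iff.1 h

/-- existence of badly approximable subspaces -/
theorem exists_finite {d e j : ℕ} (hj : 1 ≤ j) (hjd : j ≤ d) (hje : j ≤ e) (hde : d + e ≤ n)
    {β : ℝ} (hβ : (n : ℝ) / (j * (n - d - e + j)) < β) :
    ∃ A ∈ Jn n d e j, {B | B ∈ Rn n e ∧ psi A B j ≤ height B ^ (-β)}.Finite := by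
  obtain ⟨m, hm⟩ : ∃ m : ℕ, m + d + e = n + j := ⟨n + j - d - e, by omega⟩
  have hm1 : 1 ≤ m := by omega
  have hmr : (n : ℝ) - d - e + j = m := by
    have : (m : ℝ) + d + e = n + j := by exact_mod_cast hm
    linarith
  rw [hmr] at hβ
  have hj' : (0 : ℝ) < j := by exact_mod_cast (by omega : 0 < j)
  have hm' : (0 : ℝ) < m := by exact_mod_cast (by omega : 0 < m)
  rw [div_lt_iff₀ (by positivity)] at hβ
  obtain ⟨C, hC0, hC⟩ := vol_Bad n d j m
  -- almost every tuple is bad for finitely many subspaces only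
  let s : Rn n e → Set (Fin d → EE n) := fun B =>
    Bad (d := d) (B : Submodule ℝ (EE n)) j (height (B : Submodule ℝ (EE n)) ^ (-β) * d)
  have hH : ∀ B : Rn n e, 0 < height (B : Submodule ℝ (EE n)) :=
    fun B => lt_of_lt_of_le one_pos (one_le_height B.2)
  have hsum : ∑' B, volume (s B) ≠ ∞ := by
    have h1 : ∀ B : Rn n e, volume (s B) ≤ ENNReal.ofReal
        ((C * (d : ℝ) ^ (m * j)) * height (B : Submodule ℝ (EE n)) ^ (-(β * (j * m)))) := by
      intro B
      refine (hC B (by rw [B.2.2]; omega) _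
        (mul_nonneg (Real.rpow_nonneg (hH B).le _) (Nat.cast_nonneg d))).trans ?_
      apply ENNReal.ofReal_le_ofReal
      apply le_of_eq
      rw [mul_pow, ← Real.rpow_natCast (height (B : Submodule ℝ (EE n)) ^ (-β)),
        ← Real.rpow_mul (hH B).le]
      have e1 : -β * ((m * j : ℕ) : ℝ) = -(β * (j * m)) := by push_cast; ring
      rw [e1]; ring
    have h2 := ((summable_height (n := n) e hβ).mul_left (C * (d : ℝ) ^ (m * j))).tsum_ofReal_ne_top
    exact ne_top_of_le_ne_top h2 (ENNReal.tsum_le_tsum h1)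
  have hcount : Countable (Rn n e) := countable_Rn n e
  have hae1 : ∀ᵐ X : Fin d → EE n, {B | X ∈ s B}.Finite := ae_finite_setOfPred_mem hsum
  have hae2 : ∀ᵐ X : Fin d → EE n, ∀ B : Rn n e, ¬ ((∀ k, ‖X k‖ ≤ 1) ∧
      j ≤ finrank ℝ (span ℝ (Set.range X) ⊓ (B : Submodule ℝ (EE n)) : Submodule ℝ (EE n))) := by
    rw [ae_all_iff]
    intro B
    rw [ae_iff]
    refine null_of_bad (m := m) hm1 hj (B := (B : Submodule ℝ (EE n))) (by rw [B.2.2]; omega) ?_
    intro δ hδ X hX
    simp only [not_not, Set.mem_ofPred_eq] at hX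
    refine bad_of_close hX.1 (t := 0) inf_le_left hX.2 ?_ le_rfl (by rw [zero_mul]; exact hδ.le)
    intro v hv
    rw [proj_self_zero _ (mem_inf.1 hv).2, norm_zero, zero_mul]
  have hae3 : ∀ᵐ X : Fin d → EE n, ¬ ((∀ k, ‖X k‖ ≤ 1) ∧ ¬ LinearIndependent ℝ X) := by
    rw [ae_iff]
    refine null_of_bad (m := n - d + 1) (by omega) (le_refl 1) (B := (⊥ : Submodule ℝ (EE n)))
      (by rw [finrank_bot]; omega) ?_
    intro δ hδ X hX
    simp only [not_not, Set.mem_ofPred_eq] at hX
    exact bad_of_dep hX.1 hX.2 hδ.le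
  have hK : volume {X : Fin d → EE n | ∀ k, ‖X k‖ ≤ 1} ≠ 0 := by
    refine (lt_of_lt_of_le (Metric.measure_ball_pos volume (0 : Fin d → EE n) one_pos)
      (measure_mono ?_)).ne'
    intro X hX k
    rw [Metric.mem_ball, dist_zero_right] at hX
    exact (norm_le_pi_norm X k).trans hX.le
  obtain ⟨X, hX1, hX2, hX3, hX4⟩ : ∃ X : Fin d → EE n, (∀ k, ‖X k‖ ≤ 1) ∧ {B | X ∈ s B}.Finite ∧
      (∀ B : Rn n e, ¬ ((∀ k, ‖X k‖ ≤ 1) ∧ j ≤ finrank ℝ (span ℝ (Set.range X) ⊓
        (B : Submodule ℝ (EE n)) : Submodule ℝ (EE n)))) ∧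
      ¬ ((∀ k, ‖X k‖ ≤ 1) ∧ ¬ LinearIndependent ℝ X) := by
    by_contra hcon
    push Not at hcon
    apply hK
    have hall := hae1.and (hae2.and hae3)
    rw [ae_iff] at hall
    refine measure_mono_null ?_ hall
    intro X hX hX'
    obtain ⟨g1, g2, g3⟩ := hX'
    obtain ⟨g4, g5⟩ := hcon X hX g1 (fun B => by
      have := g2 B
      push Not at this
      exact this)
    exact g3 ⟨g4, g5⟩
  have hli : LinearIndependent ℝ X := by
    by_contra h
    exact hX4 ⟨hX1, h⟩
  set A := span ℝ (Set.range X) with hA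
  have hAd : finrank ℝ A = d := by rw [hA, finrank_span_eq_card hli, Fintype.card_fin]
  refine ⟨A, ⟨hAd, ?_⟩, ?_⟩
  · intro B hB
    have := hX3 ⟨B, hB⟩
    by_contra h
    exact this ⟨hX1, not_lt.1 h⟩
  · refine (hX2.image (Subtype.val)).subset ?_
    rintro B ⟨hB1, hB2⟩
    refine ⟨⟨B, hB1⟩, ?_, rfl⟩
    obtain ⟨V, hV1, hV2, hV3⟩ := close_of_psi (A := A) (B := B) hj (by omega) (by rw [hB1.2]; exact hje)
    refine bad_of_close hX1 hV1 hV2.ge hV3
      (psi_nonneg hj (by omega) (by rw [hB1.2]; exact hje)) ?_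
    exact mul_le_mul_of_nonneg_right hB2 (Nat.cast_nonneg d)

/-- the upper bound -/
theorem upper {d e j : ℕ} (hj : 1 ≤ j) (hjd : j ≤ d) (hje : j ≤ e) (hde : d + e ≤ n) :
    mu n d e j ≤ ENNReal.ofReal ((n : ℝ) / (j * (n - d - e + j))) := by
  refine le_of_forall_gt fun c hc => ?_
  obtain ⟨r, hr0, hr1, hr2⟩ := ENNReal.lt_iff_exists_real_btwn.1 hc
  have hr3 : (n : ℝ) / (j * (n - d - e + j)) < r := by
    by_contra h
    exact absurd hr1 (not_lt.2 (ENNReal.ofReal_le_ofReal (not_lt.1 h)))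
  refine lt_of_le_of_lt ?_ hr2
  obtain ⟨A, hA1, hA2⟩ := exists_finite hj hjd hje hde hr3
  unfold mu
  refine iInf₂_le_of_le A hA1 ?_
  unfold muA
  refine iSup₂_le fun β hβ => ?_
  apply ENNReal.ofReal_le_ofReal
  by_contra h
  obtain ⟨hβ0, hβ1⟩ := hβ
  apply hβ1
  refine hA2.subset ?_
  rintro B ⟨hB1, hB2⟩
  refine ⟨hB1, hB2.trans ?_⟩
  exact Real.rpow_le_rpow_of_exponent_le (one_le_height hB1) (by linarith [not_le.1 h])

end Run7.h406
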